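import Pool.Agent.H4.OH.SubDefs
import Pool.Agent.H4.OH.BaseS

/-!
# Definitions (MP_187c26_nt, sums of radicals over a number field)

`satG β`: all radicals of the group generated by the `β i`. `cyc K Ω = K(μ_∞)`, `cycZ K z = K(μ_∞)(z_i)`.
`intOf E`: the algebraic integers of `E`. `radRingK K Ω β`: the ring generated by the algebraic integers
of `K(μ_∞)` and of `satG β`. `baseF K ζ y = K(ζ, y_i)`, `ordB K ζ y x T`: the order generated by the
algebraic integers of `K(ζ, y_i)` and the `x_i`, `i ∈ T`. `zT y x T i = x i` for `i ∈ T`, `y i` otherwise.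
`grpT`: the group generated by the roots of unity of `K(ζ, y_i)` and the `zT y x T i`.
-/

set_option autoImplicit false

open IntermediateField

namespace Pool.Agent.H4.OG

open Pool.Agent.H4.OH (rootsIn)

/-- All radicals of the group generated by the units `β i`. -/
def satG {Ω : Type} [Field Ω] {ι : Type} [Fintype ι] (β : ι → Ωˣ) : Subgroup Ωˣ where
  carrier := {x | ∃ n : ℕ, 1 ≤ n ∧ ∃ e : ι → ℤ, x ^ n = ∏ i, β i ^ e i}
  one_mem' := ⟨1, le_rfl, 0, by simp⟩
  mul_mem' := by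
    rintro a b ⟨n, hn, e, ha⟩ ⟨k, hk, f, hb⟩
    refine ⟨n * k, Nat.mul_pos hn hk, fun i => e i * k + f i * n, ?_⟩
    rw [mul_pow, pow_mul, ha, mul_comm n k, pow_mul, hb, ← Finset.prod_pow, ← Finset.prod_pow,
      ← Finset.prod_mul_distrib]
    refine Finset.prod_congr rfl fun i _ => ?_
    rw [zpow_add, zpow_mul, zpow_mul, zpow_natCast, zpow_natCast]
  inv_mem' := by
    rintro a ⟨n, hn, e, ha⟩
    refine ⟨n, hn, fun i => - e i, ?_⟩
    rw [inv_pow, ha, ← Finset.prod_inv_distrib]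
    exact Finset.prod_congr rfl fun i _ => (zpow_neg _ _).symm

lemma mem_satG {Ω : Type} [Field Ω] {ι : Type} [Fintype ι] (β : ι → Ωˣ) (x : Ωˣ) :
    x ∈ satG β ↔ ∃ n : ℕ, 1 ≤ n ∧ ∃ e : ι → ℤ, x ^ n = ∏ i, β i ^ e i := Iff.rfl

section

variable (K Ω : Type) [Field K] [Field Ω] [Algebra K Ω]

/-- The field `K(μ_∞)`. -/
noncomputable def cyc : IntermediateField K Ω :=
  IntermediateField.adjoin K {ξ : Ω | ∃ n : ℕ, 1 ≤ n ∧ ξ ^ n = 1}

/-- The ring generated by the algebraic integers of `K(μ_∞)` and of `satG β`. -/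
noncomputable def radRingK {ι : Type} [Fintype ι] (β : ι → Ωˣ) : Subring Ω :=
  Subring.closure {z | IsIntegral ℤ z ∧ (z ∈ cyc K Ω ∨ ∃ γ ∈ satG β, z = (γ : Ω))}

variable {Ω}

/-- The field `K(μ_∞)(z_i)`. -/
noncomputable def cycZ {ι : Type} (z : ι → Ωˣ) : IntermediateField K Ω :=
  IntermediateField.adjoin K ({ξ : Ω | ∃ n : ℕ, 1 ≤ n ∧ ξ ^ n = 1} ∪ {w | ∃ i, w = (z i : Ω)})

/-- The field `K(ζ, y_i)`. -/
noncomputable def baseF {ι : Type} (ζ : Ω) (y : ι → Ωˣ) : IntermediateField K Ω :=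
  IntermediateField.adjoin K ({ζ} ∪ {w | ∃ i, w = (y i : Ω)})

variable {K}

/-- The algebraic integers of an intermediate field. -/
noncomputable def intOf (E : IntermediateField K Ω) : Subring Ω :=
  E.toSubalgebra.toSubring ⊓ (integralClosure ℤ Ω).toSubring

lemma mem_intOf (E : IntermediateField K Ω) (z : Ω) : z ∈ intOf E ↔ z ∈ E ∧ IsIntegral ℤ z :=
  Iff.rfl

variable (K)

/-- The order generated by the algebraic integers of `K(ζ, y_i)` and the `x_i`, `i ∈ T`. -/
noncomputable def ordB {ι : Type} (ζ : Ω) (y x : ι → Ωˣ) (T : Finset ι) : Subring Ω :=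
  intOf (baseF K ζ y) ⊔ Subring.closure {w | ∃ i ∈ T, w = (x i : Ω)}

/-- `x i` for `i ∈ T`, `y i` otherwise. -/
def zT {ι : Type} [DecidableEq ι] (y x : ι → Ωˣ) (T : Finset ι) : ι → Ωˣ :=
  fun i => if i ∈ T then x i else y i

/-- The group generated by the roots of unity of `K(ζ, y_i)` and the `zT y x T i`. -/
noncomputable def grpT {ι : Type} [DecidableEq ι] (ζ : Ω) (y x : ι → Ωˣ) (T : Finset ι) :
    Subgroup Ωˣ :=
  rootsIn (intOf (baseF K ζ y)) ⊔ ⨆ i, Subgroup.zpowers (zT y x T i)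

end

end Pool.Agent.H4.OG
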