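import Mathlib

/-!
# Module ConstSeq (MP_187c26_nt, sums of radicals over K): choice of the exponents and constants

Proof. For every `t > 0` there is `e : ℕ` with `C / (k₀ * 2^e) / 2 ≤ min t η / 2` (`k₀ * 2^e → ∞`,
`exists_nat_gt`, `Nat.lt_two_pow_self`); let `E t` be such an `e` (`Classical.choose`, or 0 if `t ≤ 0`). Define `κ` by recursion:
`κ 0 = κ₀`, `κ (j+1) = min (min (κ j) η / 2) (c / (k₀ * 2 ^ E (κ j)) / 2) / 2` and `k j = k₀ * 2 ^ E (κ j)`. All `κ j > 0`.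
-/

set_option autoImplicit false

namespace Pool.Agent.H4.OG

theorem constSeq_step (η C : ℝ) (hη : 0 < η) (k₀ : ℕ) (hk₀ : 1 ≤ k₀) (t : ℝ) :
    ∃ e : ℕ, 0 < t → C / ((k₀ * 2 ^ e : ℕ) : ℝ) / 2 ≤ min t η / 2 := by
  by_cases ht : 0 < t
  · have hm : 0 < min t η := lt_min ht hη
    obtain ⟨e, he⟩ := exists_nat_gt (C / min t η)
    refine ⟨e, fun _ => ?_⟩
    have h1 : (e : ℝ) ≤ ((k₀ * 2 ^ e : ℕ) : ℝ) := by
      have h2 : e ≤ k₀ * 2 ^ e := by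
        calc e ≤ 2 ^ e := Nat.lt_two_pow_self.le
          _ = 1 * 2 ^ e := (one_mul _).symm
          _ ≤ k₀ * 2 ^ e := Nat.mul_le_mul_right _ hk₀
      exact_mod_cast h2
    have hpos : (0 : ℝ) < ((k₀ * 2 ^ e : ℕ) : ℝ) := by
      have : 0 < k₀ * 2 ^ e := Nat.mul_pos hk₀ (by positivity)
      exact_mod_cast this
    have h3 : C ≤ min t η * ((k₀ * 2 ^ e : ℕ) : ℝ) := by
      have h4 : C / min t η ≤ ((k₀ * 2 ^ e : ℕ) : ℝ) := he.le.trans h1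
      rw [div_le_iff₀ hm] at h4
      linarith
    have h5 : C / ((k₀ * 2 ^ e : ℕ) : ℝ) ≤ min t η := by
      rw [div_le_iff₀ hpos]
      exact h3
    linarith
  · exact ⟨0, fun h => absurd h ht⟩

theorem constSeq (κ₀ η C c : ℝ) (h0 : 0 < κ₀) (hη : 0 < η) (hc : 0 < c) (k₀ : ℕ)
    (hk₀ : 1 ≤ k₀) :
    ∃ (k : ℕ → ℕ) (κ : ℕ → ℝ), κ 0 = κ₀ ∧ ∀ j, 0 < κ j ∧ (∃ e : ℕ, k j = k₀ * 2 ^ e) ∧
      C / (k j : ℝ) / 2 ≤ min (κ j) η / 2 ∧
      κ (j + 1) = min (min (κ j) η / 2) (c / (k j : ℝ) / 2) / 2 := by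
  choose E hE using constSeq_step η C hη k₀ hk₀
  let κ : ℕ → ℝ := fun j => Nat.rec κ₀
    (fun _ t => min (min t η / 2) (c / ((k₀ * 2 ^ E t : ℕ) : ℝ) / 2) / 2) j
  have hs : ∀ j, κ (j + 1) =
      min (min (κ j) η / 2) (c / ((k₀ * 2 ^ E (κ j) : ℕ) : ℝ) / 2) / 2 := fun j => rfl
  have hpos : ∀ j, 0 < κ j := by
    intro j
    induction j with
    | zero => exact h0
    | succ j ih =>
      rw [hs]
      have h1 : (0 : ℝ) < ((k₀ * 2 ^ E (κ j) : ℕ) : ℝ) := by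
        have : 0 < k₀ * 2 ^ E (κ j) := Nat.mul_pos hk₀ (by positivity)
        exact_mod_cast this
      have h2 : 0 < min (κ j) η := lt_min ih hη
      have h3 : 0 < c / ((k₀ * 2 ^ E (κ j) : ℕ) : ℝ) := div_pos hc h1
      have h4 : 0 < min (min (κ j) η / 2) (c / ((k₀ * 2 ^ E (κ j) : ℕ) : ℝ) / 2) :=
        lt_min (by linarith) (by linarith)
      linarith
  exact ⟨fun j => k₀ * 2 ^ E (κ j), κ, rfl, fun j =>
    ⟨hpos j, ⟨E (κ j), rfl⟩, hE (κ j) (hpos j), hs j⟩⟩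

end Pool.Agent.H4.OG
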