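import Pool.Agent.H4.OG.Defs
import Pool.Agent.H72.RG.Final
import Pool.Agent.H4.RR.AbsHeight

/-!
# Module Kidx (MP_187c26_nt, sums of radicals over K): bounded divisibility in `K(μ_∞)`

There is `k₀ ≥ 1` such that every radical `γ ∈ K(μ_∞)` of the group generated by the `β i` satisfies
`γ^k₀ = ξ ∏ β_i^(e_i)` with a root of unity `ξ`.

Proof. Apply `Pool.Agent.H72.RG.final_S` (as given) with `Λ = ⊥`, `S = ∅` and `Γ =` the group of all roots of
unity: there is `c > 0` with `c ≤ absLogHeight₁ a` for every `a ∈ K(μ_∞)` (`cyc K Ω`) that is not a root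
of unity (`N = 1` works: `γ^1 * γ⁻¹ = 1 ∈ ⊥`). Let `H = ∑ i, absLogHeight₁ (β i)` and `M ≥ 1` a natural
number with `H < c * M`. Let `γ ∈ cyc K Ω`, `γ^n = ∏ β_i^(e_i)`, `n ≥ 1`. For `j : ℕ` write
`j e_i = n q_(j,i) + r_(j,i)`, `0 ≤ r_(j,i) < n` (`Int.ediv`, `Int.emod`) and consider the box
`i ↦ ⌊M r_(j,i) / n⌋ ∈ {0, …, M-1}`. By the pigeonhole principle (`Finset.exists_ne_map_eq_of_card_lt_of_maps_to`)
there are `j < j' ≤ M^|ι|` with the same box; put `d = j' - j`, `1 ≤ d ≤ M^|ι|`, `f_i = q_(j',i) - q_(j,i)`.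
Then `δ = γ^d ∏ β_i^(-f_i)` satisfies `δ^n = ∏ β_i^(t_i)`, `t_i = r_(j',i) - r_(j,i)`, `|M t_i| < n`. So
`n h(δ) = h(δ^n) ≤ ∑ |t_i| h(β_i) ≤ (n/M) H < n c` (`absLogHeight_pow`, `absLogHeight_mul_le`,
`absLogHeight_inv` in RR/AbsHeight.lean or H72), so `h(δ) < c` and `δ`, an element of `K(μ_∞)` (the `β_i` are in `K`), is a
root of unity: `γ^d = δ ∏ β_i^(f_i)`. Now `k₀ = (M^|ι|)!` is a multiple of `d`.
-/

set_option autoImplicit false

open IntermediateField NumberField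

namespace Pool.Agent.H4.OG

/-- elements of `K(μ_∞)` of small height are roots of unity -/
theorem kidx_small (K Ω : Type) [Field K] [NumberField K] [Field Ω] [CharZero Ω] [IsAlgClosed Ω]
    [Algebra K Ω] [Algebra.IsAlgebraic K Ω] :
    ∃ c : ℝ, 0 < c ∧ ∀ a : Ωˣ, (a : Ω) ∈ cyc K Ω → absLogHeight₁ (a : Ω) < c →
      ∃ n : ℕ, 1 ≤ n ∧ a ^ n = 1 := by
  have : IsAlgClosure K Ω := ⟨inferInstance, inferInstance⟩
  have : IsGalois K Ω := inferInstance
  obtain ⟨c, hc, h⟩ := Pool.Agent.H72.RG.final_S (K := K) (Ω := Ω) ⊥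
    ⟨∅, by simp⟩ ∅ (by simp)
  refine ⟨c, hc, fun a ha hlt => ?_⟩
  by_contra hcon
  push Not at hcon
  let Γ : Subgroup Ωˣ := CommGroup.torsion Ωˣ
  have hΓ : ∀ x : Ωˣ, x ∈ Γ ↔ ∃ n : ℕ, 1 ≤ n ∧ x ^ n = 1 := by
    intro x
    have h1 : x ∈ Γ ↔ IsOfFinOrder x := Iff.rfl
    rw [h1, isOfFinOrder_iff_pow_eq_one]
    exact Iff.rfl
  have h1 := h Γ bot_le (fun γ hγ => ⟨1, le_rfl, fun q hq hq1 => by
      exact absurd (Nat.dvd_one.1 hq1) hq.ne_one, γ⁻¹, by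
      obtain ⟨n, hn, hn1⟩ := (hΓ γ).1 hγ
      exact ⟨n, hn, by rw [inv_pow, hn1, inv_one]⟩, by
      rw [pow_one, mul_inv_cancel]
      exact Subgroup.one_mem _⟩) a ?_ ?_
  · exact absurd hlt (not_lt.2 h1)
  · have h2 : cyc K Ω ≤ IntermediateField.adjoin K {y : Ω | ∃ γ ∈ Γ, y = (γ : Ω)} := by
      unfold cyc
      rw [IntermediateField.adjoin_le_iff]
      rintro ξ ⟨n, hn, hξ⟩
      have hξ0 : ξ ≠ 0 := by
        rintro rfl
        rw [zero_pow (by omega)] at hξ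
        exact zero_ne_one hξ
      refine IntermediateField.subset_adjoin K _ ⟨Units.mk0 ξ hξ0, ?_, rfl⟩
      rw [hΓ]
      refine ⟨n, hn, Units.ext ?_⟩
      rw [Units.val_pow_eq_pow_val]
      exact hξ
    exact h2 ha
  · intro n hn hmem
    obtain ⟨k, hk, hk1⟩ := (hΓ _).1 hmem
    rw [← pow_mul] at hk1
    exact hcon (n * k) (Nat.mul_pos hn hk) hk1

theorem kidx_nonneg {Ω : Type} [Field Ω] [CharZero Ω] (x : Ω) (hx : IsIntegral ℚ x) :
    0 ≤ absLogHeight₁ x := by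
  have h1 : FiniteDimensional ℚ (IntermediateField.adjoin ℚ {x}) :=
    IntermediateField.adjoin.finiteDimensional hx
  have h2 : NumberField (IntermediateField.adjoin ℚ {x}) := {}
  have h3 := Pool.Agent.H4.RR.absLogHeight_eq (IntermediateField.adjoin ℚ {x}) Ω
    (IntermediateField.val (IntermediateField.adjoin ℚ {x})).toRingHom
    (IntermediateField.AdjoinSimple.gen ℚ x)
  have h4 : (IntermediateField.val (IntermediateField.adjoin ℚ {x})).toRingHom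
    (IntermediateField.AdjoinSimple.gen ℚ x) = x := rfl
  rw [h4] at h3
  rw [h3]
  exact div_nonneg (Height.zero_le_logHeight₁ _) (Nat.cast_nonneg _)

/-- the height of a product of powers -/
theorem kidx_prod (Ω : Type) [Field Ω] [CharZero Ω] [IsAlgClosed Ω] {ι : Type} [DecidableEq ι] (β : ι → Ωˣ)
    (hβ : ∀ i, IsIntegral ℚ (β i : Ω)) (t : ι → ℤ) (s : Finset ι) :
    absLogHeight₁ ((∏ i ∈ s, β i ^ t i : Ωˣ) : Ω) ≤
      ∑ i ∈ s, |(t i : ℝ)| * absLogHeight₁ (β i : Ω) := by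
  have hz : ∀ i, IsIntegral ℚ ((β i : Ω) ^ t i) := by
    intro i
    rcases Int.eq_nat_or_neg (t i) with ⟨n, hn | hn⟩
    · rw [hn, zpow_natCast]
      exact (hβ i).pow n
    · rw [hn, zpow_neg, zpow_natCast]
      exact ((hβ i).pow n).inv
  have hint : ∀ s : Finset ι, IsIntegral ℚ ((∏ i ∈ s, β i ^ t i : Ωˣ) : Ω) := by
    intro s
    rw [Units.coe_prod]
    refine IsIntegral.prod _ fun i _ => ?_
    rw [Units.val_zpow_eq_zpow_val]
    exact hz i
  induction s using Finset.induction_on with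
  | empty =>
    rw [Finset.prod_empty, Finset.sum_empty, Units.val_one]
    have h1 := Pool.Agent.H4.RR.absLogHeight_pow Ω (1 : Ω) isIntegral_one 0
    rw [pow_zero, Nat.cast_zero, zero_mul] at h1
    exact h1.le
  | insert a s ha ih =>
    rw [Finset.prod_insert ha, Finset.sum_insert ha, Units.val_mul]
    refine (Pool.Agent.H4.RR.absLogHeight_mul_le Ω _ _ ?_ (hint s)).trans ?_
    · rw [Units.val_zpow_eq_zpow_val]
      exact hz a
    · rw [Units.val_zpow_eq_zpow_val, Pool.Agent.H72.RM.absLogHeight_zpow]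
      exact add_le_add le_rfl ih

/-- simultaneous approximation -/
theorem kidx_box {ι : Type} [Fintype ι] [DecidableEq ι] (M n : ℕ) (hM : 1 ≤ M) (hn : 1 ≤ n)
    (e : ι → ℤ) : ∃ (d : ℕ) (f : ι → ℤ), 1 ≤ d ∧ d ≤ M ^ Fintype.card ι ∧
      ∀ i, |(M : ℤ) * (d * e i - n * f i)| < n := by
  have hn0 : (0 : ℤ) < n := by exact_mod_cast hn
  have hM0 : (0 : ℤ) < M := by exact_mod_cast hM
  have hr : ∀ (j : ℕ) (i : ι), 0 ≤ ((j : ℤ) * e i) % n ∧ ((j : ℤ) * e i) % n < n := fun j i =>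
    ⟨Int.emod_nonneg _ hn0.ne', Int.emod_lt_of_pos _ hn0⟩
  have hb0 : ∀ (j : ℕ) (i : ι), 0 ≤ ((M : ℤ) * (((j : ℤ) * e i) % n)) / n := fun j i =>
    Int.ediv_nonneg (mul_nonneg hM0.le (hr j i).1) hn0.le
  have hb1 : ∀ (j : ℕ) (i : ι), ((M : ℤ) * (((j : ℤ) * e i) % n)) / n < M := fun j i =>
    Int.ediv_lt_of_lt_mul hn0 (mul_lt_mul_of_pos_left (hr j i).2 hM0)
  let g : ℕ → (ι → Fin M) := fun j i =>
    ⟨(((M : ℤ) * (((j : ℤ) * e i) % n)) / n).toNat, by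
      have h1 := hb0 j i
      have h2 := hb1 j i
      omega⟩
  obtain ⟨j, hj, j', hj', hne, hg⟩ := Finset.exists_ne_map_eq_of_card_lt_of_maps_to
    (s := Finset.range (M ^ Fintype.card ι + 1)) (t := (Finset.univ : Finset (ι → Fin M)))
    (f := g) (by
      rw [Finset.card_univ, Fintype.card_fun, Fintype.card_fin, Finset.card_range]
      omega) (fun _ _ => Finset.mem_univ _)
  rw [Finset.mem_range] at hj hj'
  have hbox : ∀ i, ((M : ℤ) * (((j : ℤ) * e i) % n)) / n =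
      ((M : ℤ) * (((j' : ℤ) * e i) % n)) / n := by
    intro i
    have h1 := congrArg Fin.val (congrFun hg i)
    have h2 : (((M : ℤ) * (((j : ℤ) * e i) % n)) / n).toNat =
      (((M : ℤ) * (((j' : ℤ) * e i) % n)) / n).toNat := h1
    have h3 := hb0 j i
    have h4 := hb0 j' i
    omega
  have key : ∀ a b : ℕ, a < b → (∀ i, ((M : ℤ) * (((a : ℤ) * e i) % n)) / n =
      ((M : ℤ) * (((b : ℤ) * e i) % n)) / n) → ∀ i,
      |(M : ℤ) * (((b - a : ℕ) : ℤ) * e i - n * (((b : ℤ) * e i) / n - ((a : ℤ) * e i) / n))| < n := by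
    intro a b hab hh i
    have h1 := Int.emod_add_mul_ediv ((a : ℤ) * e i) n
    have h2 := Int.emod_add_mul_ediv ((b : ℤ) * e i) n
    have h3 : (((b - a : ℕ) : ℤ) * e i - n * (((b : ℤ) * e i) / n - ((a : ℤ) * e i) / n)) =
        (((b : ℤ) * e i) % n) - (((a : ℤ) * e i) % n) := by
      push_cast [Nat.cast_sub hab.le]
      linear_combination h1 - h2
    rw [h3, mul_sub, abs_lt]
    have h4 := Int.mul_ediv_self_le (x := (M : ℤ) * (((a : ℤ) * e i) % n)) (k := (n : ℤ)) hn0.ne'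
    have h5 := Int.lt_mul_ediv_self_add (x := (M : ℤ) * (((a : ℤ) * e i) % n)) (k := (n : ℤ)) hn0
    have h6 := Int.mul_ediv_self_le (x := (M : ℤ) * (((b : ℤ) * e i) % n)) (k := (n : ℤ)) hn0.ne'
    have h7 := Int.lt_mul_ediv_self_add (x := (M : ℤ) * (((b : ℤ) * e i) % n)) (k := (n : ℤ)) hn0
    rw [hh i] at h4 h5
    constructor <;> linarith
  rcases lt_or_gt_of_ne hne with h | h
  · exact ⟨j' - j, fun i => ((j' : ℤ) * e i) / n - ((j : ℤ) * e i) / n, by omega, by omega,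
      key j j' h hbox⟩
  · exact ⟨j - j', fun i => ((j : ℤ) * e i) / n - ((j' : ℤ) * e i) / n, by omega, by omega,
      key j' j h fun i => (hbox i).symm⟩

theorem kidx (K Ω : Type) [Field K] [NumberField K] [Field Ω] [CharZero Ω] [IsAlgClosed Ω]
    [Algebra K Ω] [Algebra.IsAlgebraic K Ω] {ι : Type} [Fintype ι] [DecidableEq ι] (β : ι → Ωˣ)
    (hβ : ∀ i, (β i : Ω) ∈ Set.range (algebraMap K Ω)) :
    ∃ k₀ : ℕ, 1 ≤ k₀ ∧ ∀ γ : Ωˣ, γ ∈ satG β → (γ : Ω) ∈ cyc K Ω →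
      ∃ (ξ : Ωˣ) (e : ι → ℤ), (∃ n : ℕ, 1 ≤ n ∧ ξ ^ n = 1) ∧ γ ^ k₀ = ξ * ∏ i, β i ^ e i := by
  obtain ⟨c, hc, hsmall⟩ := kidx_small K Ω
  have hint : ∀ i, IsIntegral ℚ (β i : Ω) := by
    intro i
    obtain ⟨b, hb⟩ := hβ i
    rw [← hb]
    have h1 : IsIntegral ℚ b := Algebra.IsIntegral.isIntegral b
    exact h1.map (algebraMap K Ω).toRatAlgHom
  have hK : ∀ i, (β i : Ω) ∈ cyc K Ω := by
    intro i
    obtain ⟨b, hb⟩ := hβ i
    rw [← hb]
    exact (cyc K Ω).algebraMap_mem b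
  set H : ℝ := ∑ i, absLogHeight₁ (β i : Ω) with hH
  have hh0 : ∀ i, 0 ≤ absLogHeight₁ (β i : Ω) := fun i => kidx_nonneg _ (hint i)
  have hH0 : 0 ≤ H := Finset.sum_nonneg fun i _ => hh0 i
  obtain ⟨M, hM⟩ := exists_nat_gt (H / c)
  have hM0 : (0 : ℝ) < M := lt_of_le_of_lt (div_nonneg hH0 hc.le) hM
  have hM1 : 1 ≤ M := by
    have : 0 < M := by exact_mod_cast hM0
    omega
  have hHc : H < c * M := by
    rw [div_lt_iff₀ hc] at hM
    linarith
  refine ⟨(M ^ Fintype.card ι).factorial, Nat.succ_le_of_lt (Nat.factorial_pos _), ?_⟩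
  intro γ hγ hγc
  obtain ⟨n, hn, e, hγn⟩ := (mem_satG β γ).1 hγ
  obtain ⟨d, f, hd1, hd2, hf⟩ := kidx_box M n hM1 hn e
  have hn0 : (0 : ℝ) < n := by exact_mod_cast hn
  set δ : Ωˣ := γ ^ d * ∏ i, β i ^ (-f i) with hδ
  have hδc : (δ : Ω) ∈ cyc K Ω := by
    rw [hδ, Units.val_mul, Units.val_pow_eq_pow_val, Units.coe_prod]
    refine mul_mem (pow_mem hγc d) (prod_mem fun i _ => ?_)
    rw [Units.val_zpow_eq_zpow_val]
    exact zpow_mem (hK i) _
  have hδn : δ ^ n = ∏ i, β i ^ ((d : ℤ) * e i - n * f i) := by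
    rw [hδ, mul_pow, ← pow_mul, mul_comm d n, pow_mul, hγn, ← Finset.prod_pow, ← Finset.prod_pow,
      ← Finset.prod_mul_distrib]
    refine Finset.prod_congr rfl fun i _ => ?_
    rw [← zpow_natCast, ← zpow_natCast, ← zpow_mul, ← zpow_mul, ← zpow_add]
    congr 1
    ring
  have hδh : absLogHeight₁ (δ : Ω) < c := by
    have h1 := kidx_prod Ω β hint (fun i => (d : ℤ) * e i - n * f i) Finset.univ
    rw [← hδn, Units.val_pow_eq_pow_val, ← zpow_natCast,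
      Pool.Agent.H72.RM.absLogHeight_zpow, Int.cast_natCast, abs_of_pos hn0] at h1
    have h2 : ∑ i, |(((d : ℤ) * e i - n * f i : ℤ) : ℝ)| * absLogHeight₁ (β i : Ω) ≤
        ∑ i, (n / M : ℝ) * absLogHeight₁ (β i : Ω) := by
      refine Finset.sum_le_sum fun i _ => mul_le_mul_of_nonneg_right ?_ (hh0 i)
      rw [le_div_iff₀ hM0]
      have h3 : |(M : ℤ) * (d * e i - n * f i)| ≤ n := (hf i).le
      have h4 : |((M : ℝ) * (((d : ℤ) * e i - n * f i : ℤ) : ℝ))| ≤ n := by exact_mod_cast h3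
      rw [abs_mul, abs_of_pos hM0] at h4
      linarith
    rw [← Finset.mul_sum, ← hH] at h2
    have h3 : (n / M : ℝ) * H < n * c := by
      rw [div_mul_eq_mul_div, div_lt_iff₀ hM0]
      nlinarith
    have h4 : (n : ℝ) * absLogHeight₁ (δ : Ω) < n * c := lt_of_le_of_lt (h1.trans h2) h3
    exact lt_of_mul_lt_mul_left h4 hn0.le
  obtain ⟨k, hk, hk1⟩ := hsmall δ hδc hδh
  obtain ⟨w, hw⟩ := Nat.dvd_factorial (by omega : 0 < d) hd2
  refine ⟨δ ^ w, fun i => f i * w, ⟨k, hk, ?_⟩, ?_⟩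
  · rw [← pow_mul, mul_comm, pow_mul, hk1, one_pow]
  · have h5 : γ ^ d = δ * ∏ i, β i ^ f i := by
      rw [hδ, mul_assoc, ← Finset.prod_mul_distrib]
      have h6 : ∏ i, β i ^ (-f i) * β i ^ f i = 1 := by
        refine Finset.prod_eq_one fun i _ => ?_
        rw [zpow_neg, inv_mul_cancel]
      rw [h6, mul_one]
    rw [hw, pow_mul, h5, mul_pow, ← Finset.prod_pow]
    congr 1
    refine Finset.prod_congr rfl fun i _ => ?_
    rw [zpow_mul, zpow_natCast]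

end Pool.Agent.H4.OG
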