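import Pool.Agent.H4.OG.Indep

/-!
# Module Level (MP_187c26_nt, sums of radicals over K): finitely many elements live at a finite level

Proof. Compare OH/GenFin.lean and OH/Level.lean. (1) Every `z ∈ radRingK K Ω β` lies in
`Subring.closure G` for a finite set `G ⊆ Ω` of algebraic integers each of which is in `cyc K Ω` or is (the value of) an
element of `satG β` (`Subring.closure_induction`, unions), hence so do finitely many `z`.
(2) For `g ∈ G ∩ cyc K Ω` there is `N_g ≥ 1` such that `g ∈ adjoin K {ξ | ξ^(N_g) = 1}`: the union of these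
fields is directed (`IntermediateField.adjoin_induction`, take products of the `N`), equivalently
`g ∈ K⟮ζ⟯` for every primitive root of unity `ζ` of order divisible by `N_g`.
(3) For the other `g = γ ∈ satG β`: `γ^(n_g) = ∏ β_i^(a_i)`, `a_i ∈ ℕ` (`radFormB`, as given).
Let `m = ∏ n_g`, `N = m ∏ N_g`, `ζ` a primitive `N`-th root of unity, `x_i` an `m`-th root of `y_i`
(`IsAlgClosed.exists_pow_nat_eq`, nonzero). Then `g ∈ K⟮ζ⟯`, `g` integral, is in `intOf (baseF K ζ y)` in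
case (2); in case (3), `m = n_g m'`: `(∏ x_i^(m' k_i a_i))^(n_g) = ∏ y_i^(k_i a_i) = ∏ β_i^(a_i) = γ^(n_g)`, so
`γ = ω ∏ x_i^(m' k_i a_i)` with `ω^(n_g) = 1`, `ω` is a power of `ζ`, so `ω ∈ intOf (baseF K ζ y)`.
-/

set_option autoImplicit false

open NumberField IntermediateField

namespace Pool.Agent.H4.OG

theorem levelB_root {Ω : Type} [Field Ω] [CharZero Ω] [IsAlgClosed Ω] (N : ℕ) (hN : 1 ≤ N) :
    ∃ ζ : Ω, IsPrimitiveRoot ζ N := by
  have hne : NeZero (N : Ω) := ⟨by exact_mod_cast (by omega : N ≠ 0)⟩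
  have hdeg : (Polynomial.cyclotomic N Ω).degree ≠ 0 := by
    rw [Polynomial.degree_cyclotomic]
    have := Nat.totient_pos.2 (by omega : 0 < N)
    exact_mod_cast this.ne'
  obtain ⟨ζ, hζ⟩ := IsAlgClosed.exists_root _ hdeg
  exact ⟨ζ, Polynomial.isRoot_cyclotomic_iff.1 hζ⟩

theorem levelB_fin {R : Type} [CommRing R] (S : Set R) (z : R) (hz : z ∈ Subring.closure S) :
    ∃ G : Finset R, (G : Set R) ⊆ S ∧ z ∈ Subring.closure (G : Set R) := by
  classical
  induction hz using Subring.closure_induction with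
  | mem x hx =>
    exact ⟨{x}, by simpa using hx, Subring.subset_closure (by simp)⟩
  | zero => exact ⟨∅, by simp, Subring.zero_mem _⟩
  | one => exact ⟨∅, by simp, Subring.one_mem _⟩
  | add x y _ _ hx hy =>
    obtain ⟨G1, h1, h2⟩ := hx
    obtain ⟨G2, h3, h4⟩ := hy
    refine ⟨G1 ∪ G2, by rw [Finset.coe_union]; exact Set.union_subset h1 h3, Subring.add_mem _
      (Subring.closure_mono (by rw [Finset.coe_union]; exact Set.subset_union_left) h2)
      (Subring.closure_mono (by rw [Finset.coe_union]; exact Set.subset_union_right) h4)⟩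
  | neg x _ hx =>
    obtain ⟨G1, h1, h2⟩ := hx
    exact ⟨G1, h1, Subring.neg_mem _ h2⟩
  | mul x y _ _ hx hy =>
    obtain ⟨G1, h1, h2⟩ := hx
    obtain ⟨G2, h3, h4⟩ := hy
    refine ⟨G1 ∪ G2, by rw [Finset.coe_union]; exact Set.union_subset h1 h3, Subring.mul_mem _
      (Subring.closure_mono (by rw [Finset.coe_union]; exact Set.subset_union_left) h2)
      (Subring.closure_mono (by rw [Finset.coe_union]; exact Set.subset_union_right) h4)⟩

theorem levelB_finF {R : Type} [CommRing R] (S : Set R) (F : Finset R)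
    (hF : ∀ z ∈ F, z ∈ Subring.closure S) :
    ∃ G : Finset R, (G : Set R) ⊆ S ∧ ∀ z ∈ F, z ∈ Subring.closure (G : Set R) := by
  classical
  induction F using Finset.induction_on with
  | empty => exact ⟨∅, by simp, by simp⟩
  | insert z F _ ih =>
    obtain ⟨G1, h1, h2⟩ := ih (fun y hy => hF y (Finset.mem_insert_of_mem hy))
    obtain ⟨G2, h3, h4⟩ := levelB_fin S z (hF z (Finset.mem_insert_self z F))
    refine ⟨G1 ∪ G2, by rw [Finset.coe_union]; exact Set.union_subset h1 h3, ?_⟩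
    intro y hy
    rcases Finset.mem_insert.mp hy with h | h
    · rw [h]
      exact Subring.closure_mono (by rw [Finset.coe_union]; exact Set.subset_union_right) h4
    · exact Subring.closure_mono (by rw [Finset.coe_union]; exact Set.subset_union_left) (h2 y h)

theorem levelB_pow {Ω : Type} [Field Ω] {M n : ℕ} {ζ ξ : Ω} (hM : 1 ≤ M) (hζ : IsPrimitiveRoot ζ M)
    (hn : n ∣ M) (hξ : ξ ^ n = 1) : ∃ i : ℕ, ξ = ζ ^ i := by
  obtain ⟨M', hM'⟩ := hn
  have hn0 : n ≠ 0 := by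
    rintro rfl
    rw [zero_mul] at hM'
    omega
  have hprim : IsPrimitiveRoot (ζ ^ M') n := hζ.pow (by omega) (by rw [hM']; ring)
  have : NeZero n := ⟨hn0⟩
  obtain ⟨i, _, hi⟩ := hprim.eq_pow_of_pow_eq_one hξ
  exact ⟨M' * i, by rw [← hi, ← pow_mul]⟩

theorem levelB_cyc (K Ω : Type) [Field K] [Field Ω] [Algebra K Ω] (g : Ω) (hg : g ∈ cyc K Ω) :
    ∃ N : ℕ, 1 ≤ N ∧ ∀ (M : ℕ) (ζ : Ω), 1 ≤ M → IsPrimitiveRoot ζ M → N ∣ M →
      g ∈ IntermediateField.adjoin K {ζ} := by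
  unfold cyc at hg
  induction hg using IntermediateField.adjoin_induction with
  | mem x hx =>
    obtain ⟨n, hn, hxn⟩ := hx
    refine ⟨n, hn, ?_⟩
    intro M ζ hM hζ hd
    obtain ⟨i, hi⟩ := levelB_pow hM hζ hd hxn
    rw [hi]
    exact pow_mem (IntermediateField.subset_adjoin K _ (by simp)) i
  | algebraMap x =>
    exact ⟨1, le_rfl, fun M ζ _ _ _ => IntermediateField.algebraMap_mem _ _⟩
  | add x y _ _ hx hy =>
    obtain ⟨N1, h1, h2⟩ := hx
    obtain ⟨N2, h3, h4⟩ := hy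
    refine ⟨N1 * N2, Nat.mul_pos h1 h3, fun M ζ hM hζ hd => add_mem
      (h2 M ζ hM hζ (dvd_trans (Dvd.intro _ rfl) hd))
      (h4 M ζ hM hζ (dvd_trans (Dvd.intro_left _ rfl) hd))⟩
  | inv x _ hx =>
    obtain ⟨N1, h1, h2⟩ := hx
    exact ⟨N1, h1, fun M ζ hM hζ hd => inv_mem (h2 M ζ hM hζ hd)⟩
  | mul x y _ _ hx hy =>
    obtain ⟨N1, h1, h2⟩ := hx
    obtain ⟨N2, h3, h4⟩ := hy
    refine ⟨N1 * N2, Nat.mul_pos h1 h3, fun M ζ hM hζ hd => mul_mem
      (h2 M ζ hM hζ (dvd_trans (Dvd.intro _ rfl) hd))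
      (h4 M ζ hM hζ (dvd_trans (Dvd.intro_left _ rfl) hd))⟩

theorem levelB (K Ω : Type) [Field K] [NumberField K] [Field Ω] [CharZero Ω] [IsAlgClosed Ω]
    [Algebra K Ω] [Algebra.IsAlgebraic K Ω]
    {ι : Type} [Fintype ι] [DecidableEq ι] (b : ι → 𝓞 K) (hbu : ∀ i, ¬ IsUnit (b i))
    (hcop : ∀ i j, i ≠ j → IsCoprime (b i) (b j)) (β : ι → Ωˣ)
    (hβ : ∀ i, (β i : Ω) = algebraMap K Ω (b i : K)) (k : ι → ℕ) (hk : ∀ i, 1 ≤ k i)
    (y : ι → Ωˣ) (hy : ∀ i, y i ^ k i = β i)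
    (F : Finset Ω) (hF : ∀ z ∈ F, z ∈ radRingK K Ω β) :
    ∃ (N m : ℕ) (ζ : Ω) (x : ι → Ωˣ), 1 ≤ N ∧ 1 ≤ m ∧ IsPrimitiveRoot ζ N ∧
      (∀ i, x i ^ m = y i) ∧ ∀ z ∈ F, z ∈ ordB K ζ y x Finset.univ := by
  obtain ⟨G, hG, hFG⟩ := levelB_finF _ F hF
  have hex : ∀ g : Ω, ∃ (n N : ℕ) (a : ι → ℕ), g ∈ G → (1 ≤ n ∧ 1 ≤ N ∧ IsIntegral ℤ g ∧
      ((∀ (M : ℕ) (ζ : Ω), 1 ≤ M → IsPrimitiveRoot ζ M → N ∣ M →
        g ∈ IntermediateField.adjoin K {ζ}) ∨ ∃ γ : Ωˣ, g = (γ : Ω) ∧ γ ^ n = ∏ i, β i ^ a i)) := by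
    intro g
    by_cases hg : g ∈ G
    · obtain ⟨hint, h1⟩ := hG hg
      rcases h1 with h1 | ⟨γ, hγ, rfl⟩
      · obtain ⟨N, hN, h2⟩ := levelB_cyc K Ω g h1
        exact ⟨1, N, fun _ => 0, fun _ => ⟨le_rfl, hN, hint, Or.inl h2⟩⟩
      · obtain ⟨n, a, hn, h2⟩ := radFormB K Ω b hbu hcop β hβ γ hγ hint
        exact ⟨n, 1, a, fun _ => ⟨hn, le_rfl, hint, Or.inr ⟨γ, rfl, h2⟩⟩⟩
    · exact ⟨0, 0, fun _ => 0, fun h => absurd h hg⟩
  choose n Nf a hna using hex
  have hm : 1 ≤ ∏ g ∈ G, n g := Nat.succ_le_of_lt (Finset.prod_pos fun g hg => (hna g hg).1)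
  set m := ∏ g ∈ G, n g with hmdef
  have hNN : 1 ≤ ∏ g ∈ G, Nf g := Nat.succ_le_of_lt (Finset.prod_pos fun g hg => (hna g hg).2.1)
  set N := m * ∏ g ∈ G, Nf g with hNdef
  have hN : 1 ≤ N := Nat.mul_pos hm hNN
  obtain ⟨ζ, hζ⟩ := levelB_root (Ω := Ω) N hN
  have hx : ∀ i : ι, ∃ u : Ωˣ, u ^ m = y i := by
    intro i
    obtain ⟨z, hz⟩ := IsAlgClosed.exists_pow_nat_eq (y i : Ω) (n := m) (by omega)
    have hz0 : z ≠ 0 := by
      rintro rfl
      rw [zero_pow (by omega)] at hz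
      exact (y i).ne_zero hz.symm
    refine ⟨Units.mk0 z hz0, Units.ext ?_⟩
    rw [Units.val_pow_eq_pow_val]
    exact hz
  choose x hx using hx
  refine ⟨N, m, ζ, x, hN, hm, hζ, hx, ?_⟩
  have hadj : IntermediateField.adjoin K {ζ} ≤ baseF K ζ y :=
    IntermediateField.adjoin.mono K _ _ Set.subset_union_left
  have hζb : ζ ∈ baseF K ζ y := hadj (IntermediateField.subset_adjoin K _ (by simp))
  have hζint : IsIntegral ℤ ζ := hζ.isIntegral (by omega)
  have hleft : intOf (baseF K ζ y) ≤ ordB K ζ y x Finset.univ := le_sup_left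
  have hright : Subring.closure {w | ∃ i ∈ (Finset.univ : Finset ι), w = (x i : Ω)}
      ≤ ordB K ζ y x Finset.univ := le_sup_right
  have hgen : ∀ g ∈ G, g ∈ ordB K ζ y x Finset.univ := by
    intro g hg
    obtain ⟨h1, h2, hint, h3⟩ := hna g hg
    rcases h3 with h3 | ⟨γ, hgγ, h4⟩
    · have h5 : Nf g ∣ N := dvd_trans (Finset.dvd_prod_of_mem Nf hg) (Dvd.intro_left _ rfl)
      exact hleft ((mem_intOf _ _).2 ⟨hadj (h3 N ζ hN hζ h5), hint⟩)
    · obtain ⟨m', hm'⟩ : n g ∣ m := Finset.dvd_prod_of_mem n hg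
      set v : Ωˣ := ∏ i, x i ^ (m' * (k i * a g i)) with hv
      have hvn : v ^ n g = γ ^ n g := by
        rw [h4, hv, ← Finset.prod_pow]
        refine Finset.prod_congr rfl fun i _ => ?_
        rw [← pow_mul, ← hy i, ← hx i, ← pow_mul, ← pow_mul]
        congr 1
        rw [hm']
        ring
      have hω : ((γ * v⁻¹ : Ωˣ) : Ω) ^ n g = 1 := by
        rw [← Units.val_pow_eq_pow_val, mul_pow, inv_pow, hvn, mul_inv_cancel, Units.val_one]
      have hnN : n g ∣ N := dvd_trans (Finset.dvd_prod_of_mem n hg) (Dvd.intro _ rfl)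
      obtain ⟨j, hj⟩ := levelB_pow hN hζ hnN hω
      have hγe : g = ζ ^ j * (v : Ω) := by
        rw [← hj, ← Units.val_mul, inv_mul_cancel_right, hgγ]
      rw [hγe]
      refine Subring.mul_mem _ (hleft ((mem_intOf _ _).2 ⟨pow_mem hζb j, hζint.pow j⟩)) ?_
      rw [hv, Units.coe_prod]
      refine Subring.prod_mem _ fun i _ => ?_
      rw [Units.val_pow_eq_pow_val]
      exact Subring.pow_mem _ (hright (Subring.subset_closure ⟨i, Finset.mem_univ i, rfl⟩)) _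
  intro z hz
  have h3 : Subring.closure (G : Set Ω) ≤ ordB K ζ y x Finset.univ := by
    rw [Subring.closure_le]
    intro g hg
    exact hgen g hg
  exact h3 (hFG z hz)

end Pool.Agent.H4.OG
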