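import Pool.Agent.H4.OG.Tower
import Pool.Agent.H4.OG.Kidx
import Pool.Agent.H4.OG.Level
import Pool.Agent.H4.OG.ConstSeq
import Pool.Agent.H4.OH.Regular
import Pool.Agent.H4.RR.FinalK

/-!
# Final assembly (MP_187c26_nt, sums of radicals over K)
-/

set_option autoImplicit false

open NumberField IntermediateField

namespace Pool.Agent.H4.OG

open Pool.Agent.H4.OH

theorem main_pair (K Ω : Type) [Field K] [NumberField K] [Field Ω] [CharZero Ω] [IsAlgClosed Ω]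
    [Algebra K Ω] [Algebra.IsAlgebraic K Ω] (r : ℕ) (b : Fin r → 𝓞 K)
    (hbu : ∀ i, ¬ IsUnit (b i)) (hcop : ∀ i j, i ≠ j → IsCoprime (b i) (b j))
    (β : Fin r → Ωˣ) (hβ : ∀ i, (β i : Ω) = algebraMap K Ω (b i : K)) :
    ∃ κ : ℝ, 0 < κ ∧ ∀ u v c a d : Ω, u ∈ radRingK K Ω β → v ∈ radRingK K Ω β →
      c ∈ radRingK K Ω β → a ∈ radRingK K Ω β → d ∈ radRingK K Ω β →
      u ≠ 0 → v ≠ 0 → c * v = a * u → (1 - c) * u = d * v →
      (∀ γ ∈ satG β, v ≠ (γ : Ω) * u) → κ ≤ absLogHeight₁ (v / u) := by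
  classical
  have hβK : ∀ i, (β i : Ω) ∈ Set.range (algebraMap K Ω) := fun i => ⟨_, (hβ i).symm⟩
  have hb0 : ∀ i, b i ≠ 0 := by
    intro i h
    have h1 := hβ i
    rw [h] at h1
    simp at h1
  obtain ⟨k₀, hk₀, hidx⟩ := kidx K Ω β hβK
  obtain ⟨κ₀, hκ₀, hht⟩ := baseHt K Ω β hβK k₀ hk₀ hidx
  obtain ⟨C, c', hC, hc', hbd⟩ := boundsB K Ω b hb0 hbu
  have hη : 0 < Real.log (5 / 4) / (2 + 2 * (C / c')) := by
    have := Pool.Agent.H4.OH.log_five_four_pos
    positivity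
  obtain ⟨k, κ, hκ0, hκ⟩ := constSeq κ₀ _ C c' hκ₀ hη hc' k₀ hk₀
  have hk1 : ∀ j, 1 ≤ k j := by
    intro j
    obtain ⟨e, he⟩ := (hκ j).2.1
    rw [he]
    exact Nat.mul_pos hk₀ (pow_pos (by norm_num) e)
  have hyex : ∀ i : Fin r, ∃ y : Ωˣ, y ^ k i = β i := by
    intro i
    obtain ⟨z, hz⟩ := IsAlgClosed.exists_pow_nat_eq (β i : Ω) (hk1 i)
    have hz0 : z ≠ 0 := by
      rintro rfl
      rw [zero_pow (by have := hk1 i; omega)] at hz
      exact (β i).ne_zero hz.symm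
    exact ⟨Units.mk0 z hz0, Units.ext (by rw [Units.val_pow_eq_pow_val, Units.val_mk0, hz])⟩
  choose y hy using hyex
  refine ⟨κ r, (hκ r).1, ?_⟩
  intro u v c a d hu hv hc ha hd hu0 hv0 h1 h2 hne
  obtain ⟨N, m, ζ, x, hN, hm, hζ, hx, hF⟩ := levelB K Ω b hbu hcop β hβ (fun i => k i)
    (fun i => hk1 i) y hy {u, v, c, a, d} (by
    intro z hz
    simp only [Finset.mem_insert, Finset.mem_singleton] at hz
    rcases hz with rfl | rfl | rfl | rfl | rfl
    · exact hu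
    · exact hv
    · exact hc
    · exact ha
    · exact hd)
  have huA := hF u (by simp)
  have hvA := hF v (by simp)
  have hcA := hF c (by simp)
  have haA := hF a (by simp)
  have hdA := hF d (by simp)
  have hBT := towerB K Ω r b hbu hcop β hβ k₀ hk₀ hidx C c' hC hc' hbd κ₀ hht k κ hκ0 hκ y hy
    N m hN hm ζ hζ x hx r le_rfl
  have hT : (Finset.univ.filter fun i : Fin r => (i : ℕ) < r) = Finset.univ := by
    ext i
    simp
  rw [hT] at hBT
  obtain ⟨hfin, hB⟩ := hBT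
  set A := ordB K ζ y x Finset.univ with hA
  set u' : A := ⟨u, huA⟩ with hu'
  set v' : A := ⟨v, hvA⟩ with hv'
  have hu'0 : u' ≠ 0 := fun h => hu0 (congrArg (fun y : A => (y : Ω)) h)
  have hv'0 : v' ≠ 0 := fun h => hv0 (congrArg (fun y : A => (y : Ω)) h)
  have hβS : ∀ i, β i ∈ satG β := by
    intro i
    refine ⟨1, le_rfl, Pi.single i 1, ?_⟩
    rw [pow_one, Finset.prod_eq_single i]
    · simp
    · intro j _ hj
      rw [Pi.single_eq_of_ne hj, zpow_zero]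
    · intro h
      exact absurd (Finset.mem_univ i) h
  have hroot : ∀ (z : Ωˣ) (n : ℕ), 1 ≤ n → z ^ n ∈ satG β → z ∈ satG β := by
    rintro z n hn ⟨n', hn', e, he⟩
    exact ⟨n * n', Nat.mul_pos hn hn', e, by rw [pow_mul, he]⟩
  have hGle : grpT K ζ y x Finset.univ ≤ satG β := by
    unfold grpT
    refine sup_le ?_ (iSup_le fun i => ?_)
    · rintro ξ ⟨-, n, hn, hξ⟩
      exact hroot ξ n hn (by rw [hξ]; exact Subgroup.one_mem _)
    · rw [Subgroup.zpowers_le]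
      have h3 : zT y x (Finset.univ : Finset (Fin r)) i = x i := by
        unfold zT
        rw [if_pos (Finset.mem_univ i)]
      rw [h3]
      apply hroot _ (m * k i) (Nat.mul_pos hm (hk1 i))
      rw [pow_mul, hx, hy]
      exact hβS i
  have h3 := hB u' v' hu'0 hv'0 (by
    intro g hg hug
    have hg' := hGle hg
    apply hne g⁻¹ (Subgroup.inv_mem _ hg')
    have h2 : u = (g : Ω) * v := hug
    rw [h2, ← mul_assoc, Units.val_inv_eq_inv_val, inv_mul_cancel₀ (Units.ne_zero g), one_mul])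
  have h4 := log_OHt_regular A hfin u' v' ⟨c, hcA⟩ ⟨a, haA⟩ ⟨d, hdA⟩ hu'0 hv'0
    (Subtype.ext h1) (Subtype.ext h2)
  rw [h4, mul_comm] at h3
  have hpos : (0 : ℝ) < Fintype.card (A →+* ℂ) := by exact_mod_cast card_hom_pos A
  exact le_of_mul_le_mul_left h3 hpos

/-- Lower bound for the heights of regular elements. -/
theorem main_regular (K Ω : Type) [Field K] [NumberField K] [Field Ω] [CharZero Ω] [IsAlgClosed Ω]
    [Algebra K Ω] [Algebra.IsAlgebraic K Ω] (r : ℕ) (b : Fin r → 𝓞 K)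
    (hbu : ∀ i, ¬ IsUnit (b i)) (hcop : ∀ i j, i ≠ j → IsCoprime (b i) (b j))
    (β : Fin r → Ωˣ) (hβ : ∀ i, (β i : Ω) = algebraMap K Ω (b i : K)) :
    ∃ κ : ℝ, 0 < κ ∧ ∀ α : Ωˣ,
      (∃ c ∈ radRingK K Ω β, c * (α : Ω) ∈ radRingK K Ω β ∧ (1 - c) * (α : Ω)⁻¹ ∈ radRingK K Ω β) →
      α ∉ satG β → κ ≤ absLogHeight₁ (α : Ω) := by
  obtain ⟨κ, hκ, hmain⟩ := main_pair K Ω r b hbu hcop β hβ
  refine ⟨κ, hκ, ?_⟩
  rintro α ⟨c, hc, hcα, hcα'⟩ hne
  have hα0 : (α : Ω) ≠ 0 := Units.ne_zero α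
  by_cases hc0 : c = 0
  · rw [hc0, sub_zero, one_mul] at hcα'
    have h := hmain (α : Ω)⁻¹ 1 0 0 (α : Ω)⁻¹ hcα' (Subring.one_mem _)
      (Subring.zero_mem _) (Subring.zero_mem _) hcα' (inv_ne_zero hα0) one_ne_zero
      (by ring) (by ring) (by
        intro γ hγ h1
        apply hne
        have h2 : (α : Ω) = (γ : Ω) := by
          field_simp at h1
          exact h1
        exact Units.ext h2 ▸ hγ)
    have e : (1 : Ω) / (α : Ω)⁻¹ = (α : Ω) := by rw [one_div, inv_inv]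
    rwa [e] at h
  · have h := hmain c (c * (α : Ω)) c (c * (α : Ω)) ((1 - c) * (α : Ω)⁻¹) hc hcα hc hcα hcα'
      hc0 (mul_ne_zero hc0 hα0) (by ring) (by field_simp) (by
        intro γ hγ h1
        apply hne
        have h2 : (α : Ω) = (γ : Ω) := by
          rw [mul_comm c] at h1
          exact mul_right_cancel₀ hc0 h1
        exact Units.ext h2 ▸ hγ)
    rwa [mul_div_cancel_left₀ _ hc0] at h

end Pool.Agent.H4.OG
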