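import Pool.Agent.H4.OG.Defs

/-!
# Module BaseB (MP_187c26_nt, sums of radicals over K): the order of all algebraic integers of a finite extension

For a finite extension `E/K` inside `Ω` the ring `intOf E` of its algebraic integers is isomorphic to
the ring of integers of a number field, so its order height is the Weil height.

Proof. Compare `base_bog` in OH/BaseS.lean. `E` is a number field (`NumberField E`: finite over `K`,
`FiniteDimensional.trans ℚ K E`; `ℚ`-algebra structures are unique). The map `𝓞 E → Ω`,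
`y ↦ ((y : E) : Ω)`, is injective with range `intOf E` (`IsIntegral ℤ ((y : E) : Ω) ↔ IsIntegral ℤ (y : E)`,
`isIntegral_algHom_iff`/`isIntegral_algebraMap_iff`), which gives `e : 𝓞 E ≃+* intOf E`. `Module.Finite ℤ (intOf E)`:
`Module.Finite.equiv`. For `a = e a'`, `b = e b'` nonzero: `baseS_OHt_equiv`, `baseS_ringOfIntegers`
(OH/BaseS.lean): `OHt (intOf E) a b = mulHeight₁ (b'/a')`, `absLogHeight_eq E Ω (algebraMap E Ω) (b'/a')`,
`card (intOf E →+* ℂ) = [E : ℚ]` (`card_hom`, `RingOfIntegers.rank`), so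
`log (OHt) = card * absLogHeight₁ (b/a)`. The unit `b/a` of `Ω` is in `E`, and not in `G`: otherwise
`a = (b/a)⁻¹ b`, excluded. So `κ ≤ absLogHeight₁ (b/a)`.
-/

set_option autoImplicit false

open IntermediateField NumberField

namespace Pool.Agent.H4.OG

open Pool.Agent.H4.OH (BogS baseS_OHt_equiv baseS_ringOfIntegers card_hom)

/-- the ring of integers of `E` inside `Ω` -/
private noncomputable def intHom {K Ω : Type} [Field K] [Field Ω] [CharZero Ω] [Algebra K Ω]
    (E : IntermediateField K Ω) : 𝓞 E →+* Ω :=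
  (algebraMap E Ω).comp (algebraMap (𝓞 E) E)

private theorem intHom_injective {K Ω : Type} [Field K] [Field Ω] [CharZero Ω] [Algebra K Ω]
    (E : IntermediateField K Ω) : Function.Injective (intHom E) := by
  intro x y h
  have h1 : (algebraMap E Ω) (x : E) = (algebraMap E Ω) (y : E) := h
  exact RingOfIntegers.ext ((algebraMap E Ω).injective h1)

private theorem intHom_range {K Ω : Type} [Field K] [Field Ω] [CharZero Ω] [Algebra K Ω]
    (E : IntermediateField K Ω) : (intHom E).range = intOf E := by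
  ext w
  rw [mem_intOf]
  constructor
  · rintro ⟨y, rfl⟩
    refine ⟨(y : E).2, ?_⟩
    have h1 : IsIntegral ℤ (y : E) := RingOfIntegers.isIntegral_coe y
    exact h1.map ((algebraMap E Ω).toIntAlgHom)
  · rintro ⟨hw, hint⟩
    have h1 : IsIntegral ℤ (⟨w, hw⟩ : E) := by
      have h2 : IsIntegral ℤ ((algebraMap E Ω).toIntAlgHom (⟨w, hw⟩ : E)) := hint
      exact (isIntegral_algHom_iff _ (algebraMap E Ω).injective).1 h2
    exact ⟨⟨⟨w, hw⟩, h1⟩, rfl⟩

/-- the isomorphism -/
private noncomputable def intEquiv {K Ω : Type} [Field K] [Field Ω] [CharZero Ω] [Algebra K Ω]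
    (E : IntermediateField K Ω) : 𝓞 E ≃+* intOf E :=
  (RingEquiv.ofLeftInverse (Function.leftInverse_invFun (intHom_injective E))).trans
    (RingEquiv.subringCongr (intHom_range E))

private theorem intEquiv_apply {K Ω : Type} [Field K] [Field Ω] [CharZero Ω] [Algebra K Ω]
    (E : IntermediateField K Ω) (y : 𝓞 E) :
    ((intEquiv E y : intOf E) : Ω) = (algebraMap E Ω) (y : E) := rfl

theorem base_bogB (K Ω : Type) [Field K] [NumberField K] [Field Ω] [CharZero Ω] [Algebra K Ω]
    (E : IntermediateField K Ω) (hE : FiniteDimensional K E) (G : Subgroup Ωˣ) (κ : ℝ)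
    (h : ∀ a : Ωˣ, (a : Ω) ∈ E → a ∉ G → κ ≤ absLogHeight₁ (a : Ω)) :
    BogS (intOf E) G κ := by
  have hfinQ : FiniteDimensional ℚ E := Module.Finite.trans K E
  have hNF : NumberField E := { to_charZero := inferInstance, to_finiteDimensional := hfinQ }
  have hfin : Module.Finite ℤ (intOf E) :=
    Module.Finite.equiv (intEquiv E).toAddEquiv.toIntLinearEquiv
  refine ⟨hfin, fun a b ha hb hS => ?_⟩
  obtain ⟨a', rfl⟩ := (intEquiv E).surjective a
  obtain ⟨b', rfl⟩ := (intEquiv E).surjective b
  have ha' : a' ≠ 0 := by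
    rintro rfl
    exact ha (map_zero _)
  have hb' : b' ≠ 0 := by
    rintro rfl
    exact hb (map_zero _)
  have haE : (a' : E) ≠ 0 := fun h => ha' (RingOfIntegers.ext h)
  have hbE : (b' : E) ≠ 0 := fun h => hb' (RingOfIntegers.ext h)
  rw [baseS_OHt_equiv (𝓞 E) (intOf E) (intEquiv E) a' b', baseS_ringOfIntegers E a' b' ha']
  have hcard : Fintype.card ((intOf E) →+* ℂ) = Module.finrank ℚ E := by
    rw [card_hom, ← RingOfIntegers.rank E]
    exact (LinearEquiv.finrank_eq (intEquiv E).toAddEquiv.toIntLinearEquiv).symm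
  rw [hcard]
  have hpos : (0 : ℝ) < Module.finrank ℚ E := by exact_mod_cast Module.finrank_pos
  have h1 := Pool.Agent.H4.RR.absLogHeight_eq E Ω (algebraMap E Ω) ((b' : E) / (a' : E))
  have hne : (algebraMap E Ω) ((b' : E) / (a' : E)) ≠ 0 := by
    rw [map_ne_zero]
    exact div_ne_zero hbE haE
  have h2 : κ ≤ absLogHeight₁ ((algebraMap E Ω) ((b' : E) / (a' : E))) := by
    refine h (Units.mk0 _ hne) ((b' : E) / (a' : E)).2 ?_
    intro hG
    refine hS (Units.mk0 _ hne)⁻¹ (G.inv_mem hG) ?_
    rw [intEquiv_apply, intEquiv_apply, Units.val_inv_eq_inv_val, Units.val_mk0, map_div₀,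
      inv_div, div_mul_cancel₀]
    rw [map_ne_zero]
    exact hbE
  rw [h1, le_div_iff₀ hpos] at h2
  exact h2

end Pool.Agent.H4.OG
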