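import Pool.Agent.H4.OG.KumGrp
import Pool.Agent.H72.RG.Final

/-!
# Module BaseHt (MP_187c26_nt, sums of radicals over K): the base height bound, uniform in `k_i = k₀ 2^(e_i)`

Proof. Let `Λ = Subgroup.closure (Set.range β)` (finitely generated) and `S = (2 * k₀).primeFactors`; let
`κ` be the constant of `Pool.Agent.H72.RG.final_S` (as given) for `K`, `Ω`, `Λ`, `S`. Let `k`, `z` be as in the statement and
let `Γ = Λ ⊔ torsion ⊔ ⨆ i, zpowers (z i)` (torsion = all roots of unity in `Ωˣ`). With `P = ∏ k_i`, composed of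
primes of `S`, every `γ ∈ Γ` satisfies `γ^P t ∈ Λ` for a root of unity `t` (closed under products: the
set of such `γ` is a subgroup, as `Ωˣ` is commutative; generators: `z_i^P = β_i^(P/k_i)`). `cycZ K z` is contained in
`adjoin K {y | ∃ γ ∈ Γ, y = γ}` (`adjoin_mono`/`adjoin_le_iff`). Let `a ∈ cycZ K z`. If `a^n ∈ Γ` for some `n ≥ 1`, then
`a^(nP) t ∈ Λ`, and `a ∈ satG β` (raise to the order of `t`; an element of `Λ` is `∏ β_i^(e_i)`), so by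
`kumGrp` (as given) `a = ξ ∏ z_i^(e_i)`, excluded. So `final_S` gives `κ ≤ absLogHeight₁ a`.
-/

set_option autoImplicit false

open IntermediateField NumberField

namespace Pool.Agent.H4.OG

/-- the roots of unity -/
private def torsG (Ω : Type) [Field Ω] : Subgroup Ωˣ where
  carrier := {ζ | ∃ n : ℕ, 1 ≤ n ∧ ζ ^ n = 1}
  one_mem' := ⟨1, le_rfl, one_pow 1⟩
  mul_mem' := by
    rintro a b ⟨n, hn, hna⟩ ⟨k, hk, hkb⟩
    refine ⟨n * k, Nat.mul_pos hn hk, ?_⟩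
    rw [mul_pow, pow_mul, hna, one_pow, one_mul, mul_comm n k, pow_mul, hkb, one_pow]
  inv_mem' := by
    rintro a ⟨n, hn, hna⟩
    exact ⟨n, hn, by rw [inv_pow, hna, inv_one]⟩

/-- the elements whose `P`-th power is in `Λ` up to a root of unity -/
private def rtG {Ω : Type} [Field Ω] (Λ : Subgroup Ωˣ) (P : ℕ) : Subgroup Ωˣ where
  carrier := {γ | ∃ t : Ωˣ, (∃ n : ℕ, 1 ≤ n ∧ t ^ n = 1) ∧ γ ^ P * t ∈ Λ}
  one_mem' := ⟨1, ⟨1, le_rfl, one_pow 1⟩, by rw [one_pow, one_mul]; exact Λ.one_mem⟩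
  mul_mem' := by
    rintro a b ⟨s, hs, hsa⟩ ⟨t, ht, htb⟩
    refine ⟨s * t, (torsG Ω).mul_mem hs ht, ?_⟩
    have h : (a * b) ^ P * (s * t) = (a ^ P * s) * (b ^ P * t) := by
      rw [mul_pow]
      exact mul_mul_mul_comm _ _ _ _
    rw [h]
    exact Λ.mul_mem hsa htb
  inv_mem' := by
    rintro a ⟨s, hs, hsa⟩
    refine ⟨s⁻¹, (torsG Ω).inv_mem hs, ?_⟩
    have h : a⁻¹ ^ P * s⁻¹ = (a ^ P * s)⁻¹ := by
      rw [mul_inv, inv_pow]
    rw [h]
    exact Λ.inv_mem hsa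

private lemma mem_clo {Ω : Type} [Field Ω] {ι : Type} [Fintype ι] (β : ι → Ωˣ) (x : Ωˣ)
    (hx : x ∈ Subgroup.closure (Set.range β)) : ∃ e : ι → ℤ, x = ∏ i, β i ^ e i := by
  classical
  induction hx using Subgroup.closure_induction with
  | mem x hx =>
    obtain ⟨i, rfl⟩ := hx
    refine ⟨fun j => if j = i then 1 else 0, ?_⟩
    rw [Finset.prod_eq_single i]
    · simp
    · intro j _ hj
      simp [hj]
    · intro h
      exact absurd (Finset.mem_univ i) h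
  | one => exact ⟨0, by simp⟩
  | mul x y _ _ hx hy =>
    obtain ⟨e, rfl⟩ := hx
    obtain ⟨f, rfl⟩ := hy
    refine ⟨fun i => e i + f i, ?_⟩
    rw [← Finset.prod_mul_distrib]
    exact Finset.prod_congr rfl fun i _ => (zpow_add _ _ _).symm
  | inv x _ hx =>
    obtain ⟨e, rfl⟩ := hx
    refine ⟨fun i => - e i, ?_⟩
    rw [← Finset.prod_inv_distrib]
    exact Finset.prod_congr rfl fun i _ => (zpow_neg _ _).symm

theorem baseHt (K Ω : Type) [Field K] [NumberField K] [Field Ω] [CharZero Ω] [IsAlgClosed Ω]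
    [Algebra K Ω] [Algebra.IsAlgebraic K Ω] {ι : Type} [Fintype ι] [DecidableEq ι] (β : ι → Ωˣ)
    (hβ : ∀ i, (β i : Ω) ∈ Set.range (algebraMap K Ω))
    (k₀ : ℕ) (hk₀ : 1 ≤ k₀)
    (hidx : ∀ γ : Ωˣ, γ ∈ satG β → (γ : Ω) ∈ cyc K Ω →
      ∃ (ξ : Ωˣ) (e : ι → ℤ), (∃ n : ℕ, 1 ≤ n ∧ ξ ^ n = 1) ∧ γ ^ k₀ = ξ * ∏ i, β i ^ e i) :
    ∃ κ : ℝ, 0 < κ ∧ ∀ k : ι → ℕ, (∀ i, ∃ e : ℕ, k i = k₀ * 2 ^ e) → ∀ z : ι → Ωˣ,
      (∀ i, z i ^ k i = β i) → ∀ a : Ωˣ, (a : Ω) ∈ cycZ K z →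
      (∀ (ξ : Ωˣ) (e : ι → ℤ), (∃ n : ℕ, 1 ≤ n ∧ ξ ^ n = 1) → a ≠ ξ * ∏ i, z i ^ e i) →
      κ ≤ absLogHeight₁ (a : Ω) := by
  classical
  have hchar : CharZero K := inferInstance
  have hgal : IsGalois K Ω := by
    have : IsAlgClosure K Ω := ⟨inferInstance, inferInstance⟩
    have := IsAlgClosure.normal K Ω
    exact ⟨⟩
  let Λ : Subgroup Ωˣ := Subgroup.closure (Set.range β)
  have hFG : Λ.FG := by
    rw [Subgroup.fg_iff]
    exact ⟨Set.range β, rfl, Set.finite_range β⟩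
  obtain ⟨κ, hκ, hκ'⟩ := Pool.Agent.H72.RG.final_S (K := K) (Ω := Ω) Λ hFG (2 * k₀).primeFactors
    (fun p hp => Nat.prime_of_mem_primeFactors hp)
  refine ⟨κ, hκ, fun k hk z hz a ha hna => ?_⟩
  have hkpos : ∀ i, 1 ≤ k i := by
    intro i
    obtain ⟨e, he⟩ := hk i
    rw [he]
    exact Nat.mul_pos hk₀ (pow_pos (by norm_num) e)
  have hkk : ∀ i, k₀ ∣ k i := by
    intro i
    obtain ⟨e, he⟩ := hk i
    exact ⟨2 ^ e, he⟩
  let P : ℕ := ∏ i, k i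
  have hP : 1 ≤ P := Nat.succ_le_of_lt (Finset.prod_pos fun i _ => hkpos i)
  have hPS : ∀ q : ℕ, q.Prime → q ∣ P → q ∈ (2 * k₀).primeFactors := by
    intro q hq hqP
    obtain ⟨i, _, hi⟩ := (hq.prime.dvd_finsetProd_iff _).1 hqP
    obtain ⟨e, he⟩ := hk i
    rw [he] at hi
    have h1 : q ∣ 2 * k₀ := by
      rcases hq.dvd_mul.1 hi with h | h
      · exact Dvd.dvd.mul_left h 2
      · exact Dvd.dvd.mul_right (hq.dvd_of_dvd_pow h) k₀
    exact Nat.mem_primeFactors.2 ⟨hq, h1, by omega⟩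
  let Γ : Subgroup Ωˣ := Λ ⊔ torsG Ω ⊔ ⨆ i, Subgroup.zpowers (z i)
  have hβΛ : ∀ i, β i ∈ Λ := fun i => Subgroup.subset_closure ⟨i, rfl⟩
  have hΓ : Γ ≤ rtG Λ P := by
    refine sup_le (sup_le ?_ ?_) (iSup_le fun i => ?_)
    · intro x hx
      exact ⟨1, ⟨1, le_rfl, one_pow 1⟩, by rw [mul_one]; exact Λ.pow_mem hx P⟩
    · intro x hx
      refine ⟨(x ^ P)⁻¹, (torsG Ω).inv_mem ((torsG Ω).pow_mem hx P), ?_⟩
      rw [mul_inv_cancel]
      exact Λ.one_mem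
    · rw [Subgroup.zpowers_le]
      refine ⟨1, ⟨1, le_rfl, one_pow 1⟩, ?_⟩
      obtain ⟨m, hm⟩ : k i ∣ P := Finset.dvd_prod_of_mem _ (Finset.mem_univ i)
      rw [mul_one, hm, pow_mul, hz i]
      exact Λ.pow_mem (hβΛ i) m
  refine hκ' Γ (le_sup_left.trans le_sup_left) (fun γ hγ => ⟨P, hP, hPS, hΓ hγ⟩) a ?_ ?_
  · have hle : cycZ K z ≤ IntermediateField.adjoin K {y : Ω | ∃ γ ∈ Γ, y = (γ : Ω)} := by
      unfold cycZ
      apply IntermediateField.adjoin.mono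
      rintro w (⟨n, hn, hw⟩ | ⟨i, rfl⟩)
      · have hu : IsUnit w := IsUnit.of_pow_eq_one hw (by omega)
        obtain ⟨u, rfl⟩ := hu
        refine ⟨u, ?_, rfl⟩
        have h1 : u ∈ torsG Ω := ⟨n, hn, by
          ext
          rw [Units.val_pow_eq_pow_val, hw, Units.val_one]⟩
        exact (le_sup_right.trans le_sup_left : torsG Ω ≤ Γ) h1
      · refine ⟨z i, ?_, rfl⟩
        have h1 : z i ∈ ⨆ i, Subgroup.zpowers (z i) :=
          Subgroup.mem_iSup_of_mem i (Subgroup.mem_zpowers _)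
        exact (le_sup_right : (⨆ i, Subgroup.zpowers (z i)) ≤ Γ) h1
    exact hle ha
  · intro n hn hmem
    obtain ⟨t, ⟨s, hs, hts⟩, hΛt⟩ := hΓ hmem
    have hmem' : (a ^ n) ^ P * t ∈ Λ := hΛt
    obtain ⟨e, he⟩ := mem_clo β _ hmem'
    have hsat : a ∈ satG β := by
      refine ⟨n * P * s, Nat.mul_pos (Nat.mul_pos hn hP) hs, fun i => e i * s, ?_⟩
      have h1 : ((a ^ n) ^ P * t) ^ s = a ^ (n * P * s) := by
        rw [mul_pow, hts, mul_one, ← pow_mul, ← pow_mul, mul_assoc]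
      rw [← h1, he, ← Finset.prod_pow]
      refine Finset.prod_congr rfl fun i _ => ?_
      rw [zpow_mul, zpow_natCast]
    obtain ⟨ξ, f, hξ, hf⟩ := kumGrp K Ω β hβ k₀ hk₀ hidx k hkpos hkk z hz a hsat ha
    exact hna ξ f hξ hf

end Pool.Agent.H4.OG
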