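import Pool.Agent.H4.OG.Defs

/-!
# Module Bounds (MP_187c26_nt, sums of radicals over K): conjugates of nonunits of `K` in an order

Proof. `C = ∑ i, ∑ σ : K →+* ℂ, |log ‖σ (b i)‖|` and `c = log 2 / [K : ℚ]`. Let `A ⊆ Ω` be an order containing
the image of `𝓞 K`, `j : 𝓞 K →+* A` the inclusion, `bA = j (b i)` (`Subtype.ext`). For `τ : A →+* ℂ` the ring
homomorphism `τ.comp j : 𝓞 K →+* ℂ` is injective and extends to `σ : K →+* ℂ` (`IsFractionRing.lift`), so
`τ bA = σ (b i)`, `|log ‖τ bA‖| ≤ C`, which gives the first two bounds (`‖τ bA‖ > 0`).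
For the last one let `L = FractionRing A` (a number field, `numberField_frac A L`), `K → L` the lift of `j`.
`∏_τ ‖τ bA‖ = |N_{A/ℤ}(bA)| = |N_{L/ℚ}(bA)|` (`norm_eq`, `norm_eq_aux`, `homEquiv` in OH/Ord.lean), and
`N_{L/ℚ}(b) = N_{K/ℚ}(b)^[L:K]` (`Algebra.norm_norm`, `Algebra.norm_algebraMap`), `[L:K][K:ℚ] = [L:ℚ] = card (A →+* ℂ)`
(`card_hom_aux`). `|N_{K/ℚ}(b i)| ≥ 2`: a nonzero integer (`RingOfIntegers`, `Algebra.norm ℤ (b i)`), not `±1`
since `b i` is not a unit (`NumberField.isUnit_iff_norm`/`RingOfIntegers.isUnit_norm...`). So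
`log ∏ = [L:K] log |N_{K/ℚ}(b i)| ≥ [L:K] log 2 = c * card`.
-/

set_option autoImplicit false

open NumberField

namespace Pool.Agent.H4.OG

open Pool.Agent.H4.OH

/-- the norm of a nonunit -/
theorem boundsB_two (K : Type) [Field K] [NumberField K] (b : 𝓞 K) (hb0 : b ≠ 0)
    (hbu : ¬ IsUnit b) : 2 ≤ (Algebra.norm ℤ b).natAbs := by
  have h0 : Algebra.norm ℤ b ≠ 0 := Algebra.norm_ne_zero_iff.2 hb0
  have h1 : (Algebra.norm ℤ b).natAbs ≠ 1 := by
    intro h
    apply hbu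
    rw [NumberField.isUnit_iff_norm, RingOfIntegers.coe_norm, ← Algebra.coe_norm_int]
    rw [← Int.cast_abs, Int.abs_eq_natAbs, h]
    simp
  have h2 : (Algebra.norm ℤ b).natAbs ≠ 0 := by
    rwa [Ne, Int.natAbs_eq_zero]
  omega

theorem boundsB_norm_aux (K : Type) [Field K] [NumberField K] (A : Type) [CommRing A] [IsDomain A]
    [CharZero A] [Module.Finite ℤ A] (j : 𝓞 K →+* A) (b : 𝓞 K) (L : Type) [Field L] [Algebra A L]
    [IsFractionRing A L] :
    ∃ d : ℕ, Fintype.card (A →+* ℂ) = Module.finrank ℚ K * d ∧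
      (Algebra.norm ℤ (j b)).natAbs = (Algebra.norm ℤ b).natAbs ^ d := by
  have hnf : NumberField L := numberField_frac A L
  have hloc : IsLocalization (Algebra.algebraMapSubmonoid A (nonZeroDivisors ℤ)) L :=
    isLocalization_frac A L
  have hj : Function.Injective j := by
    have h1 := fun (τ : A →+* ℂ) => hom_injective (𝓞 K) (τ.comp j)
    obtain ⟨τ⟩ : Nonempty (A →+* ℂ) := Fintype.card_pos_iff.1 (card_hom_pos A)
    intro x y hxy
    apply h1 τ
    show τ (j x) = τ (j y)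
    rw [hxy]
  have hinj : Function.Injective ((algebraMap A L).comp j) :=
    (IsFractionRing.injective A L).comp hj
  let f : K →+* L := IsFractionRing.lift hinj
  have hf : ∀ z : 𝓞 K, f (algebraMap (𝓞 K) K z) = algebraMap A L (j z) := by
    intro z
    exact IsFractionRing.lift_algebraMap hinj z
  algebraize [f]
  have hst : IsScalarTower ℚ K L := inferInstance
  have hfin : Module.Finite K L := Module.Finite.of_restrictScalars_finite ℚ K L
  refine ⟨Module.finrank K L, ?_, ?_⟩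
  · rw [← Fintype.card_congr (homEquiv A L), NumberField.Embeddings.card,
      Module.finrank_mul_finrank ℚ K L]
  · have h3 : Algebra.norm ℚ (algebraMap A L (j b)) = algebraMap ℤ ℚ (Algebra.norm ℤ (j b)) :=
      Algebra.norm_localization ℤ (Rₘ := ℚ) (Sₘ := L) (nonZeroDivisors ℤ) (j b)
    have h4 : Algebra.norm ℚ (algebraMap K L (algebraMap (𝓞 K) K b))
        = (Algebra.norm ℚ (algebraMap (𝓞 K) K b)) ^ (Module.finrank K L) := by
      rw [← Algebra.norm_norm (R := ℚ) (S := K), Algebra.norm_algebraMap, map_pow]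
    have h5 : algebraMap K L (algebraMap (𝓞 K) K b) = algebraMap A L (j b) := hf b
    rw [h5, h3] at h4
    have h6 : Algebra.norm ℚ (algebraMap (𝓞 K) K b) = ((Algebra.norm ℤ b : ℤ) : ℚ) :=
      (Algebra.coe_norm_int b).symm
    rw [h6] at h4
    have h7 : Algebra.norm ℤ (j b) = (Algebra.norm ℤ b) ^ (Module.finrank K L) := by
      have : ((Algebra.norm ℤ (j b) : ℤ) : ℚ)
          = (((Algebra.norm ℤ b) ^ (Module.finrank K L) : ℤ) : ℚ) := by
        push_cast
        exact h4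
      exact_mod_cast this
    rw [h7, Int.natAbs_pow]

theorem boundsB_norm (K : Type) [Field K] [NumberField K] (A : Type) [CommRing A] [IsDomain A]
    [CharZero A] [Module.Finite ℤ A] (j : 𝓞 K →+* A) (b : 𝓞 K) :
    ∃ d : ℕ, Fintype.card (A →+* ℂ) = Module.finrank ℚ K * d ∧
      (Algebra.norm ℤ (j b)).natAbs = (Algebra.norm ℤ b).natAbs ^ d :=
  boundsB_norm_aux K A j b (FractionRing A)

theorem boundsB (K Ω : Type) [Field K] [NumberField K] [Field Ω] [CharZero Ω] [Algebra K Ω]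
    {ι : Type} [Fintype ι] (b : ι → 𝓞 K) (hb0 : ∀ i, b i ≠ 0) (hbu : ∀ i, ¬ IsUnit (b i)) :
    ∃ C c : ℝ, 0 ≤ C ∧ 0 < c ∧ ∀ (A : Subring Ω) [Module.Finite ℤ A],
      (∀ z : 𝓞 K, algebraMap K Ω (z : K) ∈ A) → ∀ (i : ι) (bA : A),
      (bA : Ω) = algebraMap K Ω (b i : K) →
      (∀ τ : A →+* ℂ, Real.exp (-C) ≤ ‖τ bA‖ ∧ ‖τ bA‖ ≤ Real.exp C) ∧
      c * Fintype.card (A →+* ℂ) ≤ Real.log (∏ τ : A →+* ℂ, ‖τ bA‖) := by
  classical
  set C : ℝ := ∑ i, ∑ σ : K →+* ℂ, |Real.log ‖σ (b i : K)‖| with hC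
  have hK : (0 : ℝ) < Module.finrank ℚ K := by
    have : 0 < Module.finrank ℚ K := Module.finrank_pos
    exact_mod_cast this
  refine ⟨C, Real.log 2 / Module.finrank ℚ K, Finset.sum_nonneg fun i _ =>
    Finset.sum_nonneg fun σ _ => abs_nonneg _, div_pos (Real.log_pos (by norm_num)) hK, ?_⟩
  intro A _ hA i bA hbA
  let j : 𝓞 K →+* A := RingHom.codRestrict ((algebraMap K Ω).comp (algebraMap (𝓞 K) K)) A hA
  have hj : j (b i) = bA := Subtype.ext hbA.symm
  constructor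
  · intro τ
    let σ : K →+* ℂ := (homEquiv (𝓞 K) K).symm (τ.comp j)
    have hσ : σ (b i : K) = τ bA := by
      have h1 : (homEquiv (𝓞 K) K) σ = τ.comp j := Equiv.apply_symm_apply _ _
      have h2 : (homEquiv (𝓞 K) K) σ (b i) = σ (b i : K) := rfl
      rw [← h2, h1, ← hj]
      rfl
    have h1 : |Real.log ‖σ (b i : K)‖| ≤ C := by
      refine le_trans (Finset.single_le_sum (f := fun σ : K →+* ℂ => |Real.log ‖σ (b i : K)‖|)
        (fun σ _ => abs_nonneg _) (Finset.mem_univ σ)) ?_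
      exact Finset.single_le_sum (f := fun i => ∑ σ : K →+* ℂ, |Real.log ‖σ (b i : K)‖|)
        (fun i _ => Finset.sum_nonneg fun σ _ => abs_nonneg _) (Finset.mem_univ i)
    have hb : (b i : K) ≠ 0 := fun h => hb0 i (RingOfIntegers.ext h)
    have hpos : 0 < ‖σ (b i : K)‖ := by
      rw [norm_pos_iff]
      exact (map_ne_zero σ).2 hb
    rw [hσ] at h1 hpos
    rw [abs_le] at h1
    exact ⟨(Real.le_log_iff_exp_le hpos).1 h1.1, (Real.log_le_iff_le_exp hpos).1 h1.2⟩
  · obtain ⟨d, hd1, hd2⟩ := boundsB_norm K A j (b i)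
    rw [← norm_eq A bA, ← hj, hd2, hd1]
    have h2 := boundsB_two K (b i) (hb0 i) (hbu i)
    have h3 : (2 : ℝ) ≤ ((Algebra.norm ℤ (b i)).natAbs : ℝ) := by exact_mod_cast h2
    push_cast
    rw [Real.log_pow]
    have h4 : Real.log 2 ≤ Real.log ((Algebra.norm ℤ (b i)).natAbs : ℝ) :=
      Real.log_le_log (by norm_num) h3
    calc Real.log 2 / (Module.finrank ℚ K : ℝ) * ((Module.finrank ℚ K : ℝ) * (d : ℝ))
        = d * Real.log 2 := by field_simp
      _ ≤ d * Real.log ((Algebra.norm ℤ (b i)).natAbs : ℝ) :=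
        mul_le_mul_of_nonneg_left h4 (Nat.cast_nonneg d)

end Pool.Agent.H4.OG
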