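import Pool.Agent.H4.OH.Core

/-!
# Core inequality for orders, variable absolute values (MP_187c26_nt, sums of radicals over K)
-/

set_option autoImplicit false
set_option linter.unusedSectionVars false

open Polynomial

namespace Pool.Agent.H4.OG

open Pool.Agent.H4.RR (fam famDet rho le_of_sq_le_sq' mean_gt)
open Pool.Agent.H4.OH

section

variable {A : Type} [CommRing A] [IsDomain A] [CharZero A] [Module.Finite ℤ A]

variable (m D : ℕ) (c : (A →+* ℂ) → ℂ) (u v : A[X])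

/-- (I_w) for an embedding. -/
lemma Iw_tau (hc0 : ∀ τ, c τ ≠ 0) (hm : 1 ≤ m) (hD : 2 * D ≤ m)
    (hu : u.natDegree ≤ D) (hv : v.natDegree ≤ D)
    (hpos : ∀ (τ : A →+* ℂ) (j : Fin m), 0 < wt m c u v τ j)
    (w : A[X]) (n : ℕ) (hw : w.natDegree ≤ n) (hn : n ≤ 2 * D) (τ : A →+* ℂ) :
    ‖τ (rho D u v * (w.coeff n) ^ (m - 2 * D))‖ ^ 2
        * ‖c τ‖ ^ (2 * (D ^ 2 + n * (m - 2 * D)))
      ≤ (∏ j, wt m c u v τ j) ^ 2 * (nsq m (c τ) (wt m c u v τ) (w.map τ)) ^ (m - 2 * D) := by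
  have h := Iw m D n (c τ) (hc0 τ) hm hD hn (u.map τ) (v.map τ) (w.map τ)
    ((cmap_natDegree_le τ u).trans hu) ((cmap_natDegree_le τ v).trans hv)
    ((cmap_natDegree_le τ w).trans hw) (wt m c u v τ) (hpos τ)
    (fun j => le_max_left _ _) (fun j => le_max_right _ _)
  rw [cmap_rho, coeff_map] at h
  rw [← Finset.prod_pow]
  refine le_trans (le_of_eq ?_) h
  rw [map_mul, map_pow, norm_mul, norm_pow]
  ring

/-- Product of (I_w) over the embeddings. -/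
lemma prod_Iw (hc0 : ∀ τ, c τ ≠ 0) (hm : 1 ≤ m) (hD : 2 * D ≤ m)
    (hu : u.natDegree ≤ D) (hv : v.natDegree ≤ D)
    (hpos : ∀ (τ : A →+* ℂ) (j : Fin m), 0 < wt m c u v τ j)
    (w : A[X]) (n : ℕ) (hw : w.natDegree ≤ n) (hn : n ≤ 2 * D) :
    (∏ τ : A →+* ℂ, ‖τ (rho D u v * (w.coeff n) ^ (m - 2 * D))‖) ^ 2
        * (∏ τ : A →+* ℂ, ‖c τ‖) ^ (2 * (D ^ 2 + n * (m - 2 * D)))
      ≤ (∏ τ : A →+* ℂ, ∏ j, wt m c u v τ j) ^ 2
        * ∏ τ : A →+* ℂ, (nsq m (c τ) (wt m c u v τ) (w.map τ)) ^ (m - 2 * D) := by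
  have h : ∏ τ : A →+* ℂ, (‖τ (rho D u v * (w.coeff n) ^ (m - 2 * D))‖ ^ 2
        * ‖c τ‖ ^ (2 * (D ^ 2 + n * (m - 2 * D))))
      ≤ ∏ τ : A →+* ℂ, ((∏ j, wt m c u v τ j) ^ 2
        * (nsq m (c τ) (wt m c u v τ) (w.map τ)) ^ (m - 2 * D)) := by
    apply Finset.prod_le_prod
    · intro τ _
      positivity
    · intro τ _
      exact Iw_tau m D c u v hc0 hm hD hu hv hpos w n hw hn τ
  rw [Finset.prod_mul_distrib, Finset.prod_mul_distrib, Finset.prod_pow, Finset.prod_pow,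
    Finset.prod_pow] at h
  exact h

lemma tau_le (hc0 : ∀ τ, c τ ≠ 0) (ε : ℝ) (hlo : ∀ τ, ∀ e ≤ D, Real.exp (-(ε / 2)) ≤ ‖c τ‖ ^ e)
    (hm : 1 ≤ m) (hD : 2 * D ≤ m)
    (hu : u.natDegree ≤ D) (hv : v.natDegree ≤ D)
    (hpos : ∀ (τ : A →+* ℂ) (j : Fin m), 0 < wt m c u v τ j)
    (w : A[X]) (n : ℕ) (hw : w.natDegree ≤ n) (hn : n ≤ D) (τ : A →+* ℂ)
    (hns : nsq m (c τ) (wt m c u v τ) (w.map τ) ≤ 1) :
    ‖τ (rho D u v * (w.coeff n) ^ (m - 2 * D))‖ * (‖c τ‖ ^ (D ^ 2)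
      * Real.exp (-(ε / 2)) ^ (m - 2 * D)) ≤ ∏ j, wt m c u v τ j := by
  have h := Iw_tau m D c u v hc0 hm hD hu hv hpos w n hw (by omega) τ
  have hP : 0 ≤ ∏ j, wt m c u v τ j := Finset.prod_nonneg (fun j _ => (hpos τ j).le)
  have h1 : (nsq m (c τ) (wt m c u v τ) (w.map τ)) ^ (m - 2 * D) ≤ 1 :=
    pow_le_one₀ (nsq_nonneg _ _ _ _) hns
  have h3 : Real.exp (-(ε / 2)) ^ (m - 2 * D) ≤ ‖c τ‖ ^ (n * (m - 2 * D)) := by
    rw [pow_mul]
    exact pow_le_pow_left₀ (Real.exp_pos _).le (hlo τ n hn) _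
  have h2 : (‖τ (rho D u v * (w.coeff n) ^ (m - 2 * D))‖ * (‖c τ‖ ^ (D ^ 2)
      * Real.exp (-(ε / 2)) ^ (m - 2 * D))) ^ 2
      ≤ (∏ j, wt m c u v τ j) ^ 2 := by
    calc (‖τ (rho D u v * (w.coeff n) ^ (m - 2 * D))‖ * (‖c τ‖ ^ (D ^ 2)
        * Real.exp (-(ε / 2)) ^ (m - 2 * D))) ^ 2
        ≤ (‖τ (rho D u v * (w.coeff n) ^ (m - 2 * D))‖ * (‖c τ‖ ^ (D ^ 2)
        * ‖c τ‖ ^ (n * (m - 2 * D)))) ^ 2 := by
          apply pow_le_pow_left₀ (by positivity)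
          gcongr
      _ = ‖τ (rho D u v * (w.coeff n) ^ (m - 2 * D))‖ ^ 2
            * ‖c τ‖ ^ (2 * (D ^ 2 + n * (m - 2 * D))) := by ring
      _ ≤ (∏ j, wt m c u v τ j) ^ 2
            * (nsq m (c τ) (wt m c u v τ) (w.map τ)) ^ (m - 2 * D) := h
      _ ≤ (∏ j, wt m c u v τ j) ^ 2 * 1 := by
          apply mul_le_mul_of_nonneg_left h1 (by positivity)
      _ = (∏ j, wt m c u v τ j) ^ 2 := mul_one _
  exact le_of_sq_le_sq' h2 hP

/-- The order height of the pair of leading coefficients. -/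
lemma ratio_le (hc0 : ∀ τ, c τ ≠ 0) (ε : ℝ) (hlo : ∀ τ, ∀ e ≤ D, Real.exp (-(ε / 2)) ≤ ‖c τ‖ ^ e)
    (hm : 1 ≤ m) (hD : 2 * D ≤ m)
    (hu : u.natDegree = D) (hu0 : u ≠ 0)
    (hv : v.natDegree ≤ D) (hv0 : v ≠ 0) (hrho : rho D u v ≠ 0)
    (hpos : ∀ (τ : A →+* ℂ) (j : Fin m), 0 < wt m c u v τ j)
    (I : ℕ) (hI : 0 < I) (H : ℝ)
    (hH : (I : ℝ) * H = ∏ τ : A →+* ℂ, ∏ j, wt m c u v τ j)
    (h2 : I ≤ (Algebra.norm ℤ (rho D u v)).natAbs
      * (idx A (u.coeff D) (v.coeff v.natDegree)) ^ (m - 2 * D)) :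
    OHt A (u.coeff D) (v.coeff v.natDegree) ^ (m - 2 * D)
      * ((∏ τ : A →+* ℂ, ‖c τ‖) ^ (D ^ 2)
        * (Real.exp (-(ε / 2)) ^ (m - 2 * D)) ^ (Fintype.card (A →+* ℂ))) ≤ H := by
  obtain ⟨k, hk⟩ : ∃ k, k = m - 2 * D := ⟨_, rfl⟩
  rw [← hk] at h2 ⊢
  set a : A := u.coeff D with ha
  set d : A := v.coeff v.natDegree with hd
  have ha0 : a ≠ 0 := by
    rw [ha, ← hu, coeff_natDegree]; exact leadingCoeff_ne_zero.mpr hu0
  have hd0 : d ≠ 0 := by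
    rw [hd, coeff_natDegree]; exact leadingCoeff_ne_zero.mpr hv0
  set N := Fintype.card (A →+* ℂ) with hN
  set B := ∏ τ : A →+* ℂ, ‖c τ‖ with hB
  have hB0 : 0 < B := Finset.prod_pos (fun τ _ => norm_pos_iff.mpr (hc0 τ))
  set q : ℝ := Real.exp (-(ε / 2)) ^ k with hq
  have hq0 : 0 < q := pow_pos (Real.exp_pos _) _
  -- archimedean bound
  have h3 : ∀ τ : A →+* ℂ, ‖τ (rho D u v)‖ * (max ‖τ a‖ ‖τ d‖) ^ k * (‖c τ‖ ^ (D ^ 2) * q)
      ≤ ∏ j, wt m c u v τ j := by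
    intro τ
    have e : (max ‖τ a‖ ‖τ d‖) ^ k = max (‖τ a‖ ^ k) (‖τ d‖ ^ k) := by
      rcases le_total ‖τ a‖ ‖τ d‖ with h | h
      · rw [max_eq_right h, max_eq_right (pow_le_pow_left₀ (norm_nonneg _) h k)]
      · rw [max_eq_left h, max_eq_left (pow_le_pow_left₀ (norm_nonneg _) h k)]
    rw [e, mul_max_of_nonneg _ _ (norm_nonneg _), max_mul_of_nonneg _ _ (by positivity)]
    apply max_le
    · have := tau_le m D c u v hc0 ε hlo hm hD hu.le hv hpos u D hu.le le_rfl τ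
        (nsq_u_le m c u v hpos τ)
      rw [← hk, map_mul, map_pow, norm_mul, norm_pow] at this
      exact this
    · have := tau_le m D c u v hc0 ε hlo hm hD hu.le hv hpos v v.natDegree le_rfl hv τ
        (nsq_v_le m c u v hpos τ)
      rw [← hk, map_mul, map_pow, norm_mul, norm_pow] at this
      exact this
  have h4 : ((Algebra.norm ℤ (rho D u v)).natAbs : ℝ)
      * (∏ τ : A →+* ℂ, max ‖τ a‖ ‖τ d‖) ^ k * (B ^ (D ^ 2) * q ^ N)
      ≤ ∏ τ : A →+* ℂ, ∏ j, wt m c u v τ j := by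
    have : ∏ τ : A →+* ℂ, (‖τ (rho D u v)‖ * (max ‖τ a‖ ‖τ d‖) ^ k * (‖c τ‖ ^ (D ^ 2) * q))
        ≤ ∏ τ : A →+* ℂ, ∏ j, wt m c u v τ j := by
      apply Finset.prod_le_prod
      · intro τ _
        positivity
      · intro τ _
        exact h3 τ
    rw [Finset.prod_mul_distrib, Finset.prod_mul_distrib, Finset.prod_mul_distrib,
      Finset.prod_const, Finset.card_univ, ← hN, Finset.prod_pow, Finset.prod_pow, ← hB,
      ← norm_eq] at this
    exact this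
  -- divide by the index
  have hIR : (0 : ℝ) < I := by exact_mod_cast hI
  set ix := idx A a d with hix
  have hix0 : (0 : ℝ) < ix := by exact_mod_cast Nat.pos_of_ne_zero (idx_ne_zero A a d (Or.inl ha0))
  have h2R : (I : ℝ) ≤ ((Algebra.norm ℤ (rho D u v)).natAbs : ℝ) * (ix : ℝ) ^ k := by
    exact_mod_cast h2
  set P := ∏ τ : A →+* ℂ, max ‖τ a‖ ‖τ d‖ with hP
  have hP0 : 0 < P := prod_max_pos A a d (Or.inl ha0)
  have hOH : OHt A a d = P / ix := rfl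
  rw [hOH, div_pow]
  have h5 : (I : ℝ) * (P ^ k / (ix : ℝ) ^ k * (B ^ (D ^ 2) * q ^ N)) ≤ I * H := by
    rw [hH]
    refine le_trans ?_ h4
    have h6 : P ^ k / (ix : ℝ) ^ k * (B ^ (D ^ 2) * q ^ N)
        = (P ^ k * (B ^ (D ^ 2) * q ^ N)) / (ix : ℝ) ^ k := by ring
    rw [h6, ← mul_div_assoc, div_le_iff₀ (by positivity)]
    calc (I : ℝ) * (P ^ k * (B ^ (D ^ 2) * q ^ N))
        ≤ (((Algebra.norm ℤ (rho D u v)).natAbs : ℝ) * (ix : ℝ) ^ k)
          * (P ^ k * (B ^ (D ^ 2) * q ^ N)) := by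
          apply mul_le_mul_of_nonneg_right h2R (by positivity)
      _ = ((Algebra.norm ℤ (rho D u v)).natAbs : ℝ) * P ^ k * (B ^ (D ^ 2) * q ^ N)
          * (ix : ℝ) ^ k := by ring
  exact le_of_mul_le_mul_left h5 hIR

/-- From a lower bound of the product of conjugates to a lower bound of the product of `nsq`. -/
lemma J_gen (hc0 : ∀ τ, c τ ≠ 0) (hB1 : 1 ≤ ∏ τ : A →+* ℂ, ‖c τ‖) (hm : 1 ≤ m) (hD : 2 * D ≤ m)
    (hu : u.natDegree ≤ D) (hv : v.natDegree ≤ D)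
    (hpos : ∀ (τ : A →+* ℂ) (j : Fin m), 0 < wt m c u v τ j)
    (I : ℕ) (hI : 0 < I) (H : ℝ)
    (hH : (I : ℝ) * H = ∏ τ : A →+* ℂ, ∏ j, wt m c u v τ j)
    (w : A[X]) (n : ℕ) (hw : w.natDegree ≤ n) (hn : n ≤ 2 * D) (q : ℝ) (hq : 0 ≤ q)
    (hlow : q * (I : ℝ)
      ≤ ∏ τ : A →+* ℂ, ‖τ (rho D u v * (w.coeff n) ^ (m - 2 * D))‖) :
    q ^ 2 * (∏ τ : A →+* ℂ, ‖c τ‖) ^ (2 * D ^ 2)
      ≤ H ^ 2 * ∏ τ : A →+* ℂ, (nsq m (c τ) (wt m c u v τ) (w.map τ)) ^ (m - 2 * D) := by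
  have h := prod_Iw m D c u v hc0 hm hD hu hv hpos w n hw hn
  have hIR : (0 : ℝ) < I := by exact_mod_cast hI
  rw [← hH] at h
  set B := ∏ τ : A →+* ℂ, ‖c τ‖ with hB
  have hB0 : 0 < B := by linarith
  have h1 : (q * (I : ℝ)) ^ 2 * B ^ (2 * D ^ 2)
      ≤ ((I : ℝ) * H) ^ 2
        * ∏ τ : A →+* ℂ, (nsq m (c τ) (wt m c u v τ) (w.map τ)) ^ (m - 2 * D) := by
    refine le_trans ?_ h
    apply mul_le_mul
    · exact pow_le_pow_left₀ (by positivity) hlow 2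
    · apply pow_le_pow_right₀ hB1
      nlinarith [Nat.zero_le (n * (m - 2 * D))]
    · positivity
    · positivity
  have h2 : (I : ℝ) ^ 2 * (q ^ 2 * B ^ (2 * D ^ 2))
      ≤ (I : ℝ) ^ 2 * (H ^ 2
        * ∏ τ : A →+* ℂ, (nsq m (c τ) (wt m c u v τ) (w.map τ)) ^ (m - 2 * D)) := by
    calc _ = (q * (I : ℝ)) ^ 2 * B ^ (2 * D ^ 2) := by ring
      _ ≤ _ := h1
      _ = _ := by ring
  exact le_of_mul_le_mul_left h2 (by positivity)

/-- Parallelogram law. -/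
lemma parallelogram (ε : ℝ) (hup : ∀ τ, ∀ e ≤ D, ‖c τ‖ ^ e ≤ Real.exp (ε / 2)) (hm : 1 ≤ m)
    (hpos : ∀ (τ : A →+* ℂ) (j : Fin m), 0 < wt m c u v τ j)
    (g1 g2 : A) (e : ℕ) (heD : e ≤ D)
    (τ : A →+* ℂ) (q : ℝ) (hq : 0 ≤ q) (hg1 : ‖τ g1‖ ≤ q) (hg2 : ‖τ g2‖ ≤ q) :
    nsq m (c τ) (wt m c u v τ) ((C g2 * u - C g1 * X ^ e * v).map τ)
      + nsq m (c τ) (wt m c u v τ) ((C g2 * u + C g1 * X ^ e * v).map τ)
      ≤ 2 * q ^ 2 * (1 + Real.exp ε) := by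
  unfold nsq
  refine mean_le_aux m hm _ _ _ (fun j => ?_)
  have e1 : ((C g2 * u - C g1 * X ^ e * v).map τ).eval (node m (c τ) j)
      = τ g2 * (u.map τ).eval (node m (c τ) j)
        - τ g1 * node m (c τ) j ^ e * (v.map τ).eval (node m (c τ) j) := by
    simp only [Polynomial.map_sub, Polynomial.map_mul, Polynomial.map_C,
      Polynomial.map_pow, Polynomial.map_X, eval_sub, eval_mul, eval_C, eval_pow, eval_X]
  have e2 : ((C g2 * u + C g1 * X ^ e * v).map τ).eval (node m (c τ) j)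
      = τ g2 * (u.map τ).eval (node m (c τ) j)
        + τ g1 * node m (c τ) j ^ e * (v.map τ).eval (node m (c τ) j) := by
    simp only [Polynomial.map_add, Polynomial.map_mul, Polynomial.map_C,
      Polynomial.map_pow, Polynomial.map_X, eval_add, eval_mul, eval_C, eval_pow, eval_X]
  rw [e1, e2]
  have hW : 0 < wt m c u v τ j := hpos τ j
  have hu' : ‖(u.map τ).eval (node m (c τ) j)‖ ≤ wt m c u v τ j := le_max_left _ _
  have hv' : ‖(v.map τ).eval (node m (c τ) j)‖ ≤ wt m c u v τ j := le_max_right _ _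
  have hnode : ‖node m (c τ) j‖ ^ e ≤ Real.exp (ε / 2) := by
    rw [norm_node]
    exact hup τ e heD
  generalize (u.map τ).eval (node m (c τ) j) = U at hu' ⊢
  generalize (v.map τ).eval (node m (c τ) j) = V at hv' ⊢
  generalize node m (c τ) j = z at hnode ⊢
  generalize wt m c u v τ j = W at hW hu' hv' ⊢
  have hna : ‖τ g2 * U‖ ≤ q * W := by
    rw [norm_mul]
    exact mul_le_mul hg2 hu' (norm_nonneg _) hq
  have hnd : ‖τ g1 * z ^ e * V‖ ≤ q * Real.exp (ε / 2) * W := by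
    rw [norm_mul, norm_mul, norm_pow]
    apply mul_le_mul _ hv' (norm_nonneg _) (by positivity)
    exact mul_le_mul hg1 hnode (by positivity) hq
  have h := parallelogram_aux (τ g2 * U) (τ g1 * z ^ e * V) q W (Real.exp (ε / 2)) hq hW
    (by positivity) hna hnd
  have e3 : (Real.exp (ε / 2)) ^ 2 = Real.exp ε := by
    rw [← Real.exp_nat_mul]
    congr 1
    push_cast
    ring
  rw [e3] at h
  exact h

theorem core (hc0 : ∀ τ, c τ ≠ 0) (ε : ℝ) (hε : 0 ≤ ε)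
    (hlo : ∀ τ, ∀ e ≤ D, Real.exp (-(ε / 2)) ≤ ‖c τ‖ ^ e)
    (hup : ∀ τ, ∀ e ≤ D, ‖c τ‖ ^ e ≤ Real.exp (ε / 2))
    (hB1 : 1 ≤ ∏ τ : A →+* ℂ, ‖c τ‖) (hm : 1 ≤ m) (hD : 2 * D ≤ m)
    (hu : u.natDegree = D) (hu0 : u ≠ 0)
    (hv : v.natDegree ≤ D) (hv0 : v ≠ 0) (hrho : rho D u v ≠ 0)
    (hpos : ∀ (τ : A →+* ℂ) (j : Fin m), 0 < wt m c u v τ j)
    (I : ℕ) (hI : 0 < I) (H : ℝ)
    (hH : (I : ℝ) * H = ∏ τ : A →+* ℂ, ∏ j, wt m c u v τ j)
    (h1 : ∀ (n : ℕ) (s t : A[X]), (s * u + t * v).natDegree ≤ n → n ≤ 2 * D →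
      rho D u v * ((s * u + t * v).coeff n) ^ (m - 2 * D) ≠ 0 →
      I ≤ (Algebra.norm ℤ (rho D u v * ((s * u + t * v).coeff n) ^ (m - 2 * D))).natAbs)
    (h2 : I ≤ (Algebra.norm ℤ (rho D u v)).natAbs
      * (idx A (u.coeff D) (v.coeff v.natDegree)) ^ (m - 2 * D))
    (G : Set (A × A)) (κ θ : ℝ) (hθ : 0 ≤ θ)
    (hBog : ∀ a b : A, a ≠ 0 → b ≠ 0 → (∀ g ∈ G, a * g.2 ≠ b * g.1) →
      κ * Fintype.card (A →+* ℂ) ≤ Real.log (OHt A a b))
    (hDen : ∀ g ∈ G, g.1 ≠ 0 ∧ g.2 ≠ 0 ∧ ∀ τ : A →+* ℂ,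
        ‖τ g.1‖ ≤ Real.exp (θ * (Real.log (OHt A g.1 g.2) / Fintype.card (A →+* ℂ))) ∧
        ‖τ g.2‖ ≤ Real.exp (θ * (Real.log (OHt A g.1 g.2) / Fintype.card (A →+* ℂ))))
    (hne : ∀ g ∈ G, ∀ e : ℕ, C g.2 * u ≠ C g.1 * X ^ e * v) :
    (D : ℝ) ^ 2 * Real.log (∏ τ : A →+* ℂ, ‖c τ‖)
      + Fintype.card (A →+* ℂ) * (((m : ℝ) - 2 * D)
        * (min κ (Real.log (5 / 4) / (2 + 2 * θ)) - ε / 2)) ≤ Real.log H := by
  classical
  set N := Fintype.card (A →+* ℂ) with hNdef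
  have hN1 : 1 ≤ N := card_hom_pos A
  have hNpos : (0 : ℝ) < N := by exact_mod_cast hN1
  have : Nonempty (A →+* ℂ) := Fintype.card_pos_iff.mp hN1
  set κ' := min κ (Real.log (5 / 4) / (2 + 2 * θ)) with hκ'
  obtain ⟨k, hk⟩ : ∃ k, k = m - 2 * D := ⟨_, rfl⟩
  have hkR : (k : ℝ) = (m : ℝ) - 2 * D := by
    rw [hk, Nat.cast_sub hD]; push_cast; ring
  rw [← hkR]
  have hmR : (0 : ℝ) < m := by exact_mod_cast hm
  set B := ∏ τ : A →+* ℂ, ‖c τ‖ with hBdef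
  have hB0 : 0 < B := by linarith
  set L := Real.log B with hL
  have hLnn : 0 ≤ L := Real.log_nonneg hB1
  have hIR : (0 : ℝ) < I := by exact_mod_cast hI
  have hPpos : 0 < ∏ τ : A →+* ℂ, ∏ j, wt m c u v τ j :=
    Finset.prod_pos (fun τ _ => Finset.prod_pos (fun j _ => hpos τ j))
  have hHpos : 0 < H := by
    rw [← hH] at hPpos
    exact pos_of_mul_pos_right hPpos hIR.le
  by_contra hcon
  push Not at hcon
  have hul : u.coeff D ≠ 0 := by
    rw [← hu, coeff_natDegree]; exact leadingCoeff_ne_zero.mpr hu0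
  have hvl : v.coeff v.natDegree ≠ 0 := by
    rw [coeff_natDegree]; exact leadingCoeff_ne_zero.mpr hv0
  -- the ratio of the leading coefficients
  have hr := ratio_le m D c u v hc0 ε hlo hm hD hu hu0 hv hv0 hrho hpos I hI H hH h2
  rw [← hk, ← hNdef, ← hBdef] at hr
  set R := OHt A (u.coeff D) (v.coeff v.natDegree) with hR
  have hRpos : 0 < R := OHt_pos A _ _ (Or.inl hul)
  have hlogr : (k : ℝ) * Real.log R + (D ^ 2 * L - N * (k * (ε / 2))) ≤ Real.log H := by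
    have := Real.log_le_log (by positivity) hr
    rw [Real.log_mul (by positivity) (by positivity), Real.log_mul (by positivity) (by positivity),
      Real.log_pow, Real.log_pow, Real.log_pow, Real.log_pow, ← hL, Real.log_exp] at this
    push_cast at this
    linarith
  have hkR1 : (k : ℝ) * Real.log R < k * (N * κ') := by nlinarith
  rcases Nat.eq_zero_or_pos k with hk0 | hkpos
  · rw [hk0] at hkR1
    simp at hkR1
  have hkposR : (0 : ℝ) < k := by exact_mod_cast hkpos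
  have hlogR : Real.log R < N * κ' := lt_of_mul_lt_mul_left hkR1 hkposR.le
  have hex : ∃ g ∈ G, u.coeff D * g.2 = v.coeff v.natDegree * g.1 := by
    by_contra hnS
    push Not at hnS
    have h3 := hBog (u.coeff D) (v.coeff v.natDegree) hul hvl hnS
    rw [← hR] at h3
    have h4 : κ' ≤ κ := min_le_left _ _
    have h5 : (N : ℝ) * κ' ≤ N * κ := by gcongr
    linarith
  obtain ⟨g, hgG, hgrel⟩ := hex
  obtain ⟨hg1, hg2, hgτ⟩ := hDen g hgG
  set g1 := g.1 with hg1def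
  set g2 := g.2 with hg2def
  have hRg : OHt A g1 g2 = R := by
    rw [hR]
    refine (OHt_congr A _ _ _ _ hul hg1 ?_).symm
    exact hgrel
  have hκ'θ : (2 + 2 * θ) * κ' ≤ Real.log (5 / 4) := by
    have h3 : κ' ≤ Real.log (5 / 4) / (2 + 2 * θ) := min_le_right _ _
    have h4 : (0 : ℝ) < 2 + 2 * θ := by linarith
    rw [le_div_iff₀ h4] at h3
    linarith
  set q := Real.exp (θ * κ') with hq
  have hqpos : 0 < q := Real.exp_pos _
  have hqle : Real.exp (θ * (Real.log (OHt A g1 g2) / (N : ℝ))) ≤ q := by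
    apply Real.exp_le_exp.mpr
    apply mul_le_mul_of_nonneg_left _ hθ
    rw [hRg, div_le_iff₀ hNpos]
    linarith
  have hg1τ : ∀ τ : A →+* ℂ, ‖τ g1‖ ≤ q := fun τ => (hgτ τ).1.trans hqle
  have hg2τ : ∀ τ : A →+* ℂ, ‖τ g2‖ ≤ q := fun τ => (hgτ τ).2.trans hqle
  have hrel : u.coeff D * g2 = g1 * v.coeff v.natDegree := by
    rw [hgrel, mul_comm]
  set n := v.natDegree with hn
  obtain ⟨e, he⟩ : ∃ e, D = n + e := ⟨D - n, by omega⟩
  set w : A[X] := C g2 * u - C g1 * X ^ e * v with hw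
  set wp : A[X] := C g2 * u + C g1 * X ^ e * v with hwp
  have hw0 : w ≠ 0 := sub_ne_zero.mpr (hne g hgG e)
  have hdeg1 : (C g2 * u).natDegree ≤ D := by
    refine (natDegree_C_mul_le _ _).trans hu.le
  have hdeg2 : (C g1 * X ^ e * v).natDegree ≤ D := by
    rw [mul_assoc]
    refine (natDegree_C_mul_le _ _).trans (natDegree_mul_le.trans ?_)
    have := natDegree_X_pow_le (R := A) e
    omega
  have hwdeg : w.natDegree ≤ D := (natDegree_sub_le _ _).trans (max_le hdeg1 hdeg2)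
  have hwpdeg : wp.natDegree ≤ D := (natDegree_add_le _ _).trans (max_le hdeg1 hdeg2)
  have hwpc : wp.coeff D = 2 * g2 * u.coeff D := by
    rw [hwp, coeff_add, coeff_C_mul, mul_assoc, coeff_C_mul]
    have : (X ^ e * v).coeff D = v.coeff n := by
      rw [he, coeff_X_pow_mul]
    rw [this, ← hrel]
    ring
  -- J for w
  have hwne : rho D u v * (w.coeff w.natDegree) ^ (m - 2 * D) ≠ 0 := by
    apply mul_ne_zero hrho (pow_ne_zero _ _)
    rw [coeff_natDegree]; exact leadingCoeff_ne_zero.mpr hw0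
  have hwst : w = C g2 * u + (-(C g1 * X ^ e)) * v := by rw [hw]; ring
  have hwlow : (1 : ℝ) * (I : ℝ)
      ≤ ∏ τ : A →+* ℂ, ‖τ (rho D u v * (w.coeff w.natDegree) ^ (m - 2 * D))‖ := by
    rw [← norm_eq, one_mul]
    have h3 := h1 w.natDegree (C g2) (-(C g1 * X ^ e)) (by rw [← hwst]) (by omega)
      (by rw [← hwst]; exact hwne)
    rw [← hwst] at h3
    exact_mod_cast h3
  have hJw := J_gen m D c u v hc0 hB1 hm hD hu.le hv hpos I hI H hH w w.natDegree le_rfl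
    (by omega) 1 zero_le_one hwlow
  -- J for wp
  have hune : rho D u v * (u.coeff D) ^ (m - 2 * D) ≠ 0 := mul_ne_zero hrho (pow_ne_zero _ hul)
  have hulow : (I : ℝ) ≤ ∏ τ : A →+* ℂ, ‖τ (rho D u v * (u.coeff D) ^ (m - 2 * D))‖ := by
    rw [← norm_eq]
    have hust : u = 1 * u + 0 * v := by ring
    have h3 := h1 D 1 0 (by rw [← hust]; exact hu.le) (by omega) (by rw [← hust]; exact hune)
    rw [← hust] at h3
    exact_mod_cast h3
  have hg2prod : 1 ≤ ∏ τ : A →+* ℂ, ‖τ g2‖ := by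
    rw [← norm_eq]
    have : 0 < (Algebra.norm ℤ g2).natAbs :=
      Nat.pos_of_ne_zero (Int.natAbs_ne_zero.mpr (norm_ne_zero' A g2 hg2))
    exact_mod_cast this
  have hwplow : (2 : ℝ) ^ (k * N) * (I : ℝ)
      ≤ ∏ τ : A →+* ℂ, ‖τ (rho D u v * (wp.coeff D) ^ (m - 2 * D))‖ := by
    have h3 : ∀ τ : A →+* ℂ, ‖τ (rho D u v * (wp.coeff D) ^ (m - 2 * D))‖
        = 2 ^ k * ‖τ g2‖ ^ k * ‖τ (rho D u v * (u.coeff D) ^ (m - 2 * D))‖ := by
      intro τ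
      rw [hwpc, ← hk]
      simp only [map_mul, map_pow, norm_mul, norm_pow, map_ofNat]
      rw [mul_pow, mul_pow]
      simp only [Complex.norm_ofNat]
      ring
    simp only [h3]
    rw [Finset.prod_mul_distrib, Finset.prod_mul_distrib, Finset.prod_const, Finset.card_univ,
      ← hNdef, Finset.prod_pow, ← pow_mul]
    have h4 : 1 ≤ (∏ τ : A →+* ℂ, ‖τ g2‖) ^ k := one_le_pow₀ hg2prod
    calc (2 : ℝ) ^ (k * N) * (I : ℝ) = 2 ^ (k * N) * 1 * (I : ℝ) := by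
          ring
      _ ≤ _ := by gcongr
  have hJwp := J_gen m D c u v hc0 hB1 hm hD hu.le hv hpos I hI H hH wp D hwpdeg (by omega)
    (2 ^ (k * N)) (by positivity) hwplow
  rw [← hk, ← hBdef] at hJw hJwp
  -- means
  set Xf : (A →+* ℂ) → ℝ := fun τ => nsq m (c τ) (wt m c u v τ) (w.map τ) with hXf
  set Yf : (A →+* ℂ) → ℝ := fun τ => nsq m (c τ) (wt m c u v τ) (wp.map τ) with hYf
  have hX := mean_gt N k hN1 hkpos hNdef.symm Xf (fun τ => nsq_nonneg _ _ _ _) H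
    (1 ^ 2 * B ^ (2 * D ^ 2)) ((∑ τ, Xf τ) / N) (-2 * (κ' - ε / 2))
    hHpos (by positivity) hJw (by
      rw [one_pow, one_mul, Real.log_pow, ← hL]
      push_cast
      nlinarith) rfl
  have hY := mean_gt N k hN1 hkpos hNdef.symm Yf (fun τ => nsq_nonneg _ _ _ _) H
    ((2 ^ (k * N)) ^ 2 * B ^ (2 * D ^ 2)) ((∑ τ, Yf τ) / N)
    (2 * Real.log 2 - 2 * (κ' - ε / 2))
    hHpos (by positivity) hJwp (by
      rw [Real.log_mul (by positivity) (by positivity), Real.log_pow, Real.log_pow, Real.log_pow,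
        ← hL]
      push_cast
      nlinarith) rfl
  -- sum
  have hsum : (∑ τ, Xf τ) / N + (∑ τ, Yf τ) / N ≤ 2 * q ^ 2 * (1 + Real.exp ε) := by
    rw [← add_div, ← Finset.sum_add_distrib, div_le_iff₀ hNpos]
    calc ∑ τ, (Xf τ + Yf τ) ≤ ∑ _τ : A →+* ℂ, 2 * q ^ 2 * (1 + Real.exp ε) := by
          apply Finset.sum_le_sum
          intro τ _
          exact parallelogram m D c u v ε hup hm hpos g1 g2 e (by omega) τ q hqpos.le
            (hg1τ τ) (hg2τ τ)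
      _ = 2 * q ^ 2 * (1 + Real.exp ε) * N := by
          rw [Finset.sum_const, Finset.card_univ, ← hNdef, nsmul_eq_mul]
          ring
  have hexpY : Real.exp (2 * Real.log 2 - 2 * (κ' - ε / 2)) = 4 * Real.exp (-2 * (κ' - ε / 2)) := by
    have h3 : 2 * Real.log 2 - 2 * (κ' - ε / 2)
        = Real.log 4 + (-2 * (κ' - ε / 2)) := by
      have : Real.log 4 = 2 * Real.log 2 := by
        rw [show (4 : ℝ) = 2 ^ 2 by norm_num, Real.log_pow]; push_cast; ring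
      rw [this]
      ring
    rw [h3, Real.exp_add, Real.exp_log (by norm_num)]
  rw [hexpY] at hY
  have hfin : 5 * Real.exp (-2 * (κ' - ε / 2)) < 2 * q ^ 2 * (1 + Real.exp ε) := by linarith
  have hq2 : q ^ 2 = Real.exp (2 * θ * κ') := by
    rw [hq, ← Real.exp_nat_mul]
    congr 1
    push_cast
    ring
  have hE : Real.exp (2 * κ') * Real.exp (2 * θ * κ') ≤ 5 / 4 := by
    rw [← Real.exp_add]
    have h3 : 2 * κ' + 2 * θ * κ' ≤ Real.log (5 / 4) := by linarith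
    calc Real.exp (2 * κ' + 2 * θ * κ') ≤ Real.exp (Real.log (5 / 4)) := Real.exp_le_exp.mpr h3
      _ = 5 / 4 := Real.exp_log (by norm_num)
  have hmul : Real.exp (2 * κ' - ε) * (5 * Real.exp (-2 * (κ' - ε / 2)))
      < Real.exp (2 * κ' - ε) * (2 * q ^ 2 * (1 + Real.exp ε)) :=
    mul_lt_mul_of_pos_left hfin (Real.exp_pos _)
  have e1 : Real.exp (2 * κ' - ε) * (5 * Real.exp (-2 * (κ' - ε / 2))) = 5 := by
    calc Real.exp (2 * κ' - ε) * (5 * Real.exp (-2 * (κ' - ε / 2)))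
        = 5 * (Real.exp (2 * κ' - ε) * Real.exp (-2 * (κ' - ε / 2))) := by ring
      _ = 5 * Real.exp ((2 * κ' - ε) + (-2 * (κ' - ε / 2))) := by rw [Real.exp_add]
      _ = 5 := by
          rw [show (2 * κ' - ε) + (-2 * (κ' - ε / 2)) = 0 by ring, Real.exp_zero, mul_one]
  have e2 : Real.exp (2 * κ' - ε) * (2 * q ^ 2 * (1 + Real.exp ε))
      = 2 * (Real.exp (2 * κ') * Real.exp (2 * θ * κ')) * (Real.exp (-ε) + 1) := by
    rw [hq2]
    have h3 : Real.exp (2 * κ' - ε) = Real.exp (2 * κ') * Real.exp (-ε) := by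
      rw [← Real.exp_add]; congr 1
    have h4 : Real.exp (-ε) * Real.exp ε = 1 := by
      rw [← Real.exp_add, neg_add_cancel, Real.exp_zero]
    rw [h3]
    calc Real.exp (2 * κ') * Real.exp (-ε) * (2 * Real.exp (2 * θ * κ') * (1 + Real.exp ε))
        = 2 * (Real.exp (2 * κ') * Real.exp (2 * θ * κ'))
          * (Real.exp (-ε) + Real.exp (-ε) * Real.exp ε) := by ring
      _ = _ := by rw [h4]
  rw [e1, e2] at hmul
  have h5 : Real.exp (-ε) ≤ 1 := Real.exp_le_one_iff.mpr (by linarith)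
  have h6 : 0 ≤ Real.exp (2 * κ') * Real.exp (2 * θ * κ') := by positivity
  have h7 : 2 * (Real.exp (2 * κ') * Real.exp (2 * θ * κ')) * (Real.exp (-ε) + 1) ≤ 5 := by
    calc 2 * (Real.exp (2 * κ') * Real.exp (2 * θ * κ')) * (Real.exp (-ε) + 1)
        ≤ 2 * (Real.exp (2 * κ') * Real.exp (2 * θ * κ')) * 2 := by
          apply mul_le_mul_of_nonneg_left (by linarith) (by positivity)
      _ ≤ 5 := by linarith
  linarith

end

end Pool.Agent.H4.OG
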