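import Pool.Agent.H4.OG.KumGrp

/-!
# Module IndB (MP_187c26_nt, sums of radicals over K): independence of the powers of a radical

`z_i^(k_i) = β_i ∈ K` multiplicatively independent, `k₀ ∣ k_i`, `x^m = z_j`. Then `1, x, …, x^(m-1)` are
linearly independent over `K(μ_∞)(z_i)`.

Proof. Let `F' = cycZ K z`. `Ω/F'` is Galois (compare OH/IndT.lean) and `F'` contains a primitive `m`-th
root of unity. Apply `shortRel` (OH/ShortRel.lean) to `i ↦ x^i`, `i : Fin m`: `(x^i)^m = z_j^i ∈ F'`. If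
`x^i / x^i' ∈ F'` with `i ≠ i'`, then `x^d ∈ F'` with `0 < d < m` (invert if necessary). `x^(m k_j) = β_j`, so
`x^d ∈ satG β`. By `kumGrp` (as given) `x^d = ξ ∏ z_i^(e_i)`, `ξ^n = 1`, `n ≥ 1`. Raise to the power `m n`:
`z_j^(d n) = ∏ z_i^(e_i m n)`, and to the power `P = ∏ k_i`: as `z_i^P = β_i^(P/k_i)`,
`β_j^(d n P/k_j) = ∏ β_i^(e_i m n P/k_i)`. By `hind` (apply it to the difference of the exponents) the
exponents at `j` agree: `d n P/k_j = e_j m n P/k_j`, so `d = e_j m`, contradicting `0 < d < m`.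
-/

set_option autoImplicit false

open IntermediateField

namespace Pool.Agent.H4.OG

theorem indB (K Ω : Type) [Field K] [Field Ω] [CharZero Ω] [IsAlgClosed Ω]
    [Algebra K Ω] [Algebra.IsAlgebraic K Ω] {ι : Type} [Fintype ι] [DecidableEq ι] (β : ι → Ωˣ)
    (hβ : ∀ i, (β i : Ω) ∈ Set.range (algebraMap K Ω))
    (hind : ∀ e : ι → ℤ, ∏ i, β i ^ e i = 1 → e = 0)
    (k₀ : ℕ) (hk₀ : 1 ≤ k₀)
    (hidx : ∀ γ : Ωˣ, γ ∈ satG β → (γ : Ω) ∈ cyc K Ω →
      ∃ (ξ : Ωˣ) (e : ι → ℤ), (∃ n : ℕ, 1 ≤ n ∧ ξ ^ n = 1) ∧ γ ^ k₀ = ξ * ∏ i, β i ^ e i)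
    (k : ι → ℕ) (hk : ∀ i, 1 ≤ k i) (hkk : ∀ i, k₀ ∣ k i) (z : ι → Ωˣ)
    (hz : ∀ i, z i ^ k i = β i) (m : ℕ) (hm : 1 ≤ m) (j : ι) (x : Ωˣ) (hx : x ^ m = z j)
    (c : Fin m → Ω) (hc : ∀ i, c i ∈ cycZ K z) (h0 : ∑ i, c i * (x : Ω) ^ (i : ℕ) = 0) :
    ∀ i, c i = 0 := by
  classical
  set F := cycZ K z with hF
  have hgal : IsGalois F Ω := by
    have : Algebra.IsAlgebraic F Ω := Algebra.IsAlgebraic.tower_top (K := K) F
    have : IsAlgClosure F Ω := ⟨inferInstance, inferInstance⟩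
    infer_instance
  have : NeZero m := ⟨by omega⟩
  have : NeZero (m : Ω) := ⟨by exact_mod_cast (by omega : m ≠ 0)⟩
  obtain ⟨w, hw⟩ := HasEnoughRootsOfUnity.exists_primitiveRoot Ω m
  have hwF : w ∈ F := IntermediateField.subset_adjoin K _ (Or.inl ⟨m, hm, hw.pow_eq_one⟩)
  have hω : IsPrimitiveRoot (⟨w, hwF⟩ : F) m := by
    rw [← IsPrimitiveRoot.coe_submonoidClass_iff]
    exact hw
  have hzF : ∀ i, (z i : Ω) ∈ F := fun i => IntermediateField.subset_adjoin K _ (Or.inr ⟨i, rfl⟩)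
  have hx0 : (x : Ω) ≠ 0 := x.ne_zero
  -- small powers of `x` are not in `F`
  have key : ∀ d : ℕ, 0 < d → d < m → (x : Ω) ^ d ∉ F := by
    intro d hd0 hdm hmem
    have hsat : x ^ d ∈ satG β := by
      refine ⟨m * k j, Nat.mul_pos hm (hk j), Pi.single j (d : ℤ), ?_⟩
      have h1 : (x ^ d) ^ (m * k j) = β j ^ d := by
        rw [← pow_mul, mul_comm d, mul_assoc, pow_mul, hx, pow_mul, hz]
      rw [h1, Finset.prod_eq_single j]
      · rw [Pi.single_eq_same, zpow_natCast]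
      · intro i _ hij
        rw [Pi.single_eq_of_ne hij, zpow_zero]
      · intro h
        exact absurd (Finset.mem_univ j) h
    obtain ⟨ξ, e, ⟨n, hn, hξ⟩, hxe⟩ := kumGrp K Ω β hβ k₀ hk₀ hidx k hk hkk z hz (x ^ d) hsat (by
      rw [Units.val_pow_eq_pow_val]
      exact hmem)
    let P : ι → ℕ := fun i => ∏ l ∈ Finset.univ.erase i, k l
    have hP : ∀ i, k i * P i = ∏ l, k l := fun i => Finset.mul_prod_erase _ _ (Finset.mem_univ i)
    have hP0 : 0 < P j := Finset.prod_pos fun l _ => hk l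
    have hzP : ∀ i, z i ^ (∏ l, k l) = β i ^ P i := by
      intro i
      rw [← hP i, pow_mul, hz]
    have h1 : β j ^ ((d * n * P j : ℕ) : ℤ) = ∏ i, β i ^ (e i * (m * n * P i : ℕ)) := by
      have h2 : (x ^ d) ^ (m * n * ∏ l, k l) = (ξ * ∏ i, z i ^ e i) ^ (m * n * ∏ l, k l) := by
        rw [hxe]
      have h3 : (x ^ d) ^ (m * n * ∏ l, k l) = β j ^ (d * n * P j) := by
        calc (x ^ d) ^ (m * n * ∏ l, k l) = ((x ^ m) ^ (∏ l, k l)) ^ (d * n) := by
              rw [← pow_mul, ← pow_mul, ← pow_mul]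
              congr 1
              ring
          _ = β j ^ (d * n * P j) := by
              rw [hx, hzP, ← pow_mul]
              congr 1
              ring
      have h4 : (ξ * ∏ i, z i ^ e i) ^ (m * n * ∏ l, k l) =
          ∏ i, β i ^ (e i * (m * n * P i : ℕ)) := by
        have h5 : ξ ^ (m * n * ∏ l, k l) = 1 := by
          have h6 : m * n * ∏ l, k l = n * (m * ∏ l, k l) := by ring
          rw [h6, pow_mul, hξ, one_pow]
        rw [mul_pow, h5, one_mul, ← Finset.prod_pow]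
        refine Finset.prod_congr rfl fun i _ => ?_
        have h7 : (z i ^ e i) ^ (m * n * ∏ l, k l) = (z i ^ (∏ l, k l)) ^ (e i * (m * n : ℕ)) := by
          rw [← zpow_natCast, ← zpow_natCast, ← zpow_mul, ← zpow_mul]
          congr 1
          push_cast
          ring
        rw [h7, hzP, ← zpow_natCast, ← zpow_mul]
        congr 1
        push_cast
        ring
      rw [h3, h4] at h2
      rw [zpow_natCast]
      exact h2
    have h2 := hind (fun i => e i * (m * n * P i : ℕ) -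
        (Pi.single j ((d * n * P j : ℕ) : ℤ) : ι → ℤ) i) (by
      have h3 : ∀ i, β i ^ (e i * (m * n * P i : ℕ) - (Pi.single j ((d * n * P j : ℕ) : ℤ) : ι → ℤ) i) =
          β i ^ (e i * (m * n * P i : ℕ)) * (β i ^ ((Pi.single j ((d * n * P j : ℕ) : ℤ) : ι → ℤ) i))⁻¹ := by
        intro i
        rw [zpow_sub]
      rw [Finset.prod_congr rfl fun i _ => h3 i, Finset.prod_mul_distrib, Finset.prod_inv_distrib,
        ← h1]
      rw [Finset.prod_eq_single (f := fun i => β i ^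
        ((Pi.single j ((d * n * P j : ℕ) : ℤ) : ι → ℤ) i)) j]
      · rw [Pi.single_eq_same, mul_inv_cancel]
      · intro i _ hij
        rw [Pi.single_eq_of_ne hij, zpow_zero]
      · intro h
        exact absurd (Finset.mem_univ j) h)
    have h3 := congrFun h2 j
    simp only [Pi.single_eq_same, Pi.zero_apply] at h3
    have h4 : ((n : ℤ) * P j) * (e j * m - d) = 0 := by
      push_cast at h3
      linear_combination h3
    have hnP : ((n : ℤ) * P j) ≠ 0 := by
      have h5 : 0 < n * P j := Nat.mul_pos hn hP0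
      exact_mod_cast h5.ne'
    have h5 : e j * m - d = 0 := (mul_eq_zero.1 h4).resolve_left hnP
    have h6 : (m : ℤ) ∣ d := ⟨e j, by linarith⟩
    have h7 : m ∣ d := by exact_mod_cast h6
    have := Nat.le_of_dvd hd0 h7
    omega
  have hli : LinearIndependent F (fun i : Fin m => (x : Ω) ^ (i : ℕ)) := by
    refine Pool.Agent.H4.OH.shortRel F Ω m hm ⟨w, hwF⟩ hω _ (fun i => pow_ne_zero _ hx0) ?_ ?_
    · intro i
      have h1 : ((x : Ω) ^ (i : ℕ)) ^ m ∈ F := by
        rw [← pow_mul, mul_comm, pow_mul]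
        have h2 : (x : Ω) ^ m = z j := by
          rw [← Units.val_pow_eq_pow_val, hx]
        rw [h2]
        exact pow_mem (hzF j) _
      exact ⟨⟨_, h1⟩, rfl⟩
    · rintro a b hab ⟨y, hy⟩
      have hy' : (x : Ω) ^ (a : ℕ) / (x : Ω) ^ (b : ℕ) ∈ F := by
        have h1 : (x : Ω) ^ (a : ℕ) / (x : Ω) ^ (b : ℕ) = (y : Ω) := hy.symm
        rw [h1]
        exact y.2
      have hab' : (a : ℕ) ≠ b := fun h => hab (Fin.ext h)
      rcases lt_or_gt_of_ne hab' with h | h
      · have h1 : (x : Ω) ^ ((b : ℕ) - a) = ((x : Ω) ^ (a : ℕ) / (x : Ω) ^ (b : ℕ))⁻¹ := by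
          rw [inv_div, eq_div_iff (pow_ne_zero _ hx0), ← pow_add]
          congr 1
          omega
        refine key (b - a) (by omega) (by have := b.2; omega) ?_
        rw [h1]
        exact inv_mem hy'
      · have h1 : (x : Ω) ^ ((a : ℕ) - b) = (x : Ω) ^ (a : ℕ) / (x : Ω) ^ (b : ℕ) := by
          rw [eq_div_iff (pow_ne_zero _ hx0), ← pow_add]
          congr 1
          omega
        refine key (a - b) (by omega) (by have := a.2; omega) ?_
        rw [h1]
        exact hy'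
  rw [Fintype.linearIndependent_iff] at hli
  have h1 := hli (fun i => ⟨c i, hc i⟩) (by
    rw [← h0]
    rfl)
  intro i
  exact congrArg (fun y : F => (y : Ω)) (h1 i)

end Pool.Agent.H4.OG
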