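import Pool.Agent.H4.OG.Defs

/-!
# Module Indep (MP_187c26_nt, sums of radicals over K): pairwise coprime nonunits

`b_i ∈ 𝓞 K` nonzero nonunits, pairwise coprime, `β_i` their images in `Ω`.
(a) If `∏ β_i^(e_i) = 1` then `e = 0`. (b) A radical `γ ∈ satG β` that is an algebraic integer satisfies
`γ^n = ∏ β_i^(a_i)` with `n ≥ 1` and `a_i ∈ ℕ`.

Proof. Both follow from: (*) if `w ∈ 𝓞 K` and `w = ∏ b_i^(e_i)` in `K`, `e_i ∈ ℤ`, then `e_i ≥ 0` for all `i`.
Proof of (*): suppose `e_j < 0`. `w ∏_{e_i < 0} b_i^(-e_i) = ∏_{e_i ≥ 0} b_i^(e_i)` in `𝓞 K` (injectivity of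
`𝓞 K → K`), so `b_j` divides `∏_{e_i ≥ 0} b_i^(e_i)`, which is coprime to `b_j` (`IsCoprime.prod_right`,
`IsCoprime.pow_right`), so `b_j` is a unit (`IsCoprime.isUnit_of_dvd'`), a contradiction.
(a): (*) for `e` and `-e`, `w = 1` (the map `K → Ω` is injective).
(b): `γ^n = ∏ β_i^(e_i)` is the image of `t ∈ K`, and integral over `ℤ` (power of `γ`), so `t ∈ 𝓞 K`
(`isIntegral_algebraMap_iff`-like, `algebraMap K Ω` injective) and (*) applies; `a_i = (e_i).toNat`.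
-/

set_option autoImplicit false

open NumberField

namespace Pool.Agent.H4.OG

theorem indepB_star (K : Type) [Field K] [NumberField K]
    {ι : Type} [Fintype ι] [DecidableEq ι] (b : ι → 𝓞 K) (hbu : ∀ i, ¬ IsUnit (b i))
    (hcop : ∀ i j, i ≠ j → IsCoprime (b i) (b j)) (hb0 : ∀ i, b i ≠ 0) (w : 𝓞 K) (e : ι → ℤ)
    (h : (w : K) = ∏ i, (b i : K) ^ e i) : ∀ j, 0 ≤ e j := by
  intro j
  by_contra hj
  push Not at hj
  have hbK : ∀ i, (b i : K) ≠ 0 := fun i h => hb0 i (RingOfIntegers.ext h)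
  have h1 : (w : K) * ∏ i, (b i : K) ^ (-e i).toNat = ∏ i, (b i : K) ^ (e i).toNat := by
    rw [h, ← Finset.prod_mul_distrib]
    refine Finset.prod_congr rfl fun i _ => ?_
    rw [← zpow_natCast, ← zpow_natCast, ← zpow_add₀ (hbK i)]
    congr 1
    omega
  have h2 : w * ∏ i, (b i) ^ (-e i).toNat = ∏ i, (b i) ^ (e i).toNat := by
    apply RingOfIntegers.ext
    change algebraMap (𝓞 K) K _ = algebraMap (𝓞 K) K _
    rw [map_mul, map_prod, map_prod]
    simp only [map_pow]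
    exact h1
  have h3 : b j ∣ ∏ i, (b i) ^ (e i).toNat := by
    rw [← h2]
    refine Dvd.dvd.mul_left ?_ _
    refine dvd_trans (dvd_pow_self (b j) (n := (-e j).toNat) (by omega)) ?_
    exact Finset.dvd_prod_of_mem (fun i => (b i) ^ (-e i).toNat) (Finset.mem_univ j)
  have h4 : IsCoprime (b j) (∏ i, (b i) ^ (e i).toNat) := by
    apply IsCoprime.prod_right
    intro i _
    by_cases hij : i = j
    · subst hij
      have : (e i).toNat = 0 := by omega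
      rw [this, pow_zero]
      exact isCoprime_one_right
    · exact (hcop j i (fun h => hij h.symm)).pow_right
  exact hbu j (h4.isUnit_of_dvd' (dvd_refl _) h3)

theorem indepB_ne (K Ω : Type) [Field K] [NumberField K] [Field Ω] [CharZero Ω] [Algebra K Ω]
    {ι : Type} (b : ι → 𝓞 K) (β : ι → Ωˣ)
    (hβ : ∀ i, (β i : Ω) = algebraMap K Ω (b i : K)) : ∀ i, b i ≠ 0 := by
  intro i h
  have h1 := hβ i
  rw [h] at h1
  change _ = algebraMap K Ω (algebraMap (𝓞 K) K 0) at h1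
  rw [map_zero, map_zero] at h1
  exact (β i).ne_zero h1

theorem indepB_prod (K Ω : Type) [Field K] [NumberField K] [Field Ω] [CharZero Ω] [Algebra K Ω]
    {ι : Type} [Fintype ι] (b : ι → 𝓞 K) (β : ι → Ωˣ)
    (hβ : ∀ i, (β i : Ω) = algebraMap K Ω (b i : K)) (e : ι → ℤ) :
    ((∏ i, β i ^ e i : Ωˣ) : Ω) = algebraMap K Ω (∏ i, (b i : K) ^ e i) := by
  rw [map_prod, Units.coe_prod]
  refine Finset.prod_congr rfl fun i _ => ?_
  rw [map_zpow₀, ← hβ i, Units.val_zpow_eq_zpow_val]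

theorem indepB (K Ω : Type) [Field K] [NumberField K] [Field Ω] [CharZero Ω] [Algebra K Ω]
    {ι : Type} [Fintype ι] [DecidableEq ι] (b : ι → 𝓞 K) (hbu : ∀ i, ¬ IsUnit (b i))
    (hcop : ∀ i j, i ≠ j → IsCoprime (b i) (b j)) (β : ι → Ωˣ)
    (hβ : ∀ i, (β i : Ω) = algebraMap K Ω (b i : K)) (e : ι → ℤ) (h : ∏ i, β i ^ e i = 1) :
    e = 0 := by
  have hb0 := indepB_ne K Ω b β hβ
  have h1 : ∏ i, (b i : K) ^ e i = 1 := by
    apply (algebraMap K Ω).injective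
    rw [← indepB_prod K Ω b β hβ e, h, Units.val_one, map_one]
  have h2 : ∀ j, 0 ≤ e j := indepB_star K b hbu hcop hb0 1 e (by rw [h1]; rfl)
  have h3 : ∀ j, 0 ≤ (-e) j := by
    apply indepB_star K b hbu hcop hb0 1 (-e)
    have h4 : ∏ i, (b i : K) ^ (-e) i = (∏ i, (b i : K) ^ e i)⁻¹ := by
      rw [← Finset.prod_inv_distrib]
      exact Finset.prod_congr rfl fun i _ => by rw [Pi.neg_apply, zpow_neg]
    rw [h4, h1, inv_one]
    rfl
  funext j
  have h5 := h2 j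
  have h6 := h3 j
  rw [Pi.neg_apply] at h6
  rw [Pi.zero_apply]
  omega

theorem radFormB (K Ω : Type) [Field K] [NumberField K] [Field Ω] [CharZero Ω] [Algebra K Ω]
    {ι : Type} [Fintype ι] [DecidableEq ι] (b : ι → 𝓞 K) (hbu : ∀ i, ¬ IsUnit (b i))
    (hcop : ∀ i j, i ≠ j → IsCoprime (b i) (b j)) (β : ι → Ωˣ)
    (hβ : ∀ i, (β i : Ω) = algebraMap K Ω (b i : K)) (γ : Ωˣ) (hγ : γ ∈ satG β)
    (hint : IsIntegral ℤ (γ : Ω)) :
    ∃ (n : ℕ) (a : ι → ℕ), 1 ≤ n ∧ γ ^ n = ∏ i, β i ^ a i := by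
  have hb0 := indepB_ne K Ω b β hβ
  obtain ⟨n, hn, e, he⟩ := hγ
  have h1 : (γ : Ω) ^ n = algebraMap K Ω (∏ i, (b i : K) ^ e i) := by
    rw [← indepB_prod K Ω b β hβ e, ← he, Units.val_pow_eq_pow_val]
  have h2 : IsIntegral ℤ (algebraMap K Ω (∏ i, (b i : K) ^ e i)) := by
    rw [← h1]; exact hint.pow n
  have h3 : IsIntegral ℤ (∏ i, (b i : K) ^ e i) := by
    have hinj : Function.Injective ((algebraMap K Ω).toIntAlgHom) := (algebraMap K Ω).injective
    exact (isIntegral_algHom_iff ((algebraMap K Ω).toIntAlgHom) hinj).1 h2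
  obtain ⟨w, hw⟩ : ∃ w : 𝓞 K, (w : K) = ∏ i, (b i : K) ^ e i := ⟨⟨_, h3⟩, rfl⟩
  have h4 := indepB_star K b hbu hcop hb0 w e hw
  refine ⟨n, fun i => (e i).toNat, hn, ?_⟩
  rw [he]
  refine Finset.prod_congr rfl fun i _ => ?_
  rw [← zpow_natCast, Int.toNat_of_nonneg (h4 i)]

end Pool.Agent.H4.OG
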