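import Pool.Agent.H4.OG.Defs
import Pool.Agent.H4.OH.ShortRel

/-!
# Module KumGrp (MP_187c26_nt, sums of radicals over K): radicals in Kummer extensions of `K(μ_∞)`

`z_i^(k_i) = β_i ∈ K`, `k₀ ∣ k_i`. Every radical `γ` of the group generated by the `β_i` that lies in
`K(μ_∞)(z_i)` is `ξ ∏ z_i^(e_i)`, `ξ` a root of unity.

Proof. Let `F = cyc K Ω` (an intermediate field; `Ω/F` is Galois: algebraically closed, algebraic,
characteristic zero, compare the proof of `indT` in OH/IndT.lean).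
(1) There are `e : ι → ℤ` and `f ∈ F` with `γ = f ∏ z_i^(e_i)`. Suppose not. `cycZ K z`, as a set, is
`Algebra.adjoin F {z_i}` (`z_i` algebraic over `F`: `IntermediateField.adjoin_toSubalgebra_of_isAlgebraic...`;
`cycZ K z = (adjoin F (range z)).restrictScalars K`, `IntermediateField.adjoin_adjoin_left`), so it is the
`F`-span of the monomials `∏ z_i^(a_i)`, `a_i ∈ ℕ` (`Algebra.adjoin_eq_span`). Consider the setoid on
`ι → ℤ`: `e ~ e'` iff `∏ z_i^(e_i) / ∏ z_i^(e'_i) ∈ F`, `Q` its quotient, `rep : Q → (ι → ℤ)` (`Quotient.out`). The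
monomials `w_q = ∏ z_i^(rep q i)` span the same space. Let `M = n ∏ k_i` where `γ^n = ∏ β_i^(e_i)`; all `w_q^M` and
`γ^M` are in `K`, hence in `F`, and `F` contains a primitive `M`-th root of unity
(`HasEnoughRootsOfUnity`/`IsAlgClosed`, it lies in `F` by definition of `cyc`). By `shortRel`, applied to
`Option Q → Ω`, `none ↦ γ`, `some q ↦ w_q`, the family is linearly independent over `F` (quotients of two
different members are not in `F`: `rep` of different classes; `γ / w_q ∉ F` by assumption). So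
`γ ∉ span F (range w)` (`linearIndependent_option`), a contradiction.
(2) `f = γ ∏ z_i^(-e_i)` is a unit, `f ∈ satG β` (each `z_i ∈ satG β`: `z_i^(k_i) = β_i`), `f ∈ F`. By `hidx`:
`f^k₀ = ξ ∏ β_i^(e'_i) = ξ (∏ z_i^((k_i/k₀) e'_i))^k₀`, so `f = ξ' ∏ z_i^((k_i/k₀) e'_i)` where
`ξ'^k₀ = ξ` is a root of unity.
-/

set_option autoImplicit false

open IntermediateField

namespace Pool.Agent.H4.OG

/-- the monomial with exponents `e` -/
private noncomputable def kgmon {Ω ι : Type} [Field Ω] [Fintype ι] (z : ι → Ωˣ) (e : ι → ℤ) : Ωˣ :=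
  ∏ i, z i ^ e i

private theorem kgmon_add {Ω ι : Type} [Field Ω] [Fintype ι] (z : ι → Ωˣ) (e f : ι → ℤ) :
    kgmon z (e + f) = kgmon z e * kgmon z f := by
  unfold kgmon
  rw [← Finset.prod_mul_distrib]
  exact Finset.prod_congr rfl fun i _ => zpow_add _ _ _

private theorem kgmon_zero {Ω ι : Type} [Field Ω] [Fintype ι] (z : ι → Ωˣ) :
    kgmon z 0 = 1 := by
  unfold kgmon
  exact Finset.prod_eq_one fun i _ => zpow_zero _

private theorem kgmon_single {Ω ι : Type} [Field Ω] [Fintype ι] [DecidableEq ι] (z : ι → Ωˣ)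
    (i : ι) : kgmon z (Pi.single i 1) = z i := by
  unfold kgmon
  rw [Finset.prod_eq_single i]
  · rw [Pi.single_eq_same, zpow_one]
  · intro j _ hj
    rw [Pi.single_eq_of_ne hj, zpow_zero]
  · intro h; exact absurd (Finset.mem_univ i) h

theorem kumGrp (K Ω : Type) [Field K] [Field Ω] [CharZero Ω] [IsAlgClosed Ω]
    [Algebra K Ω] [Algebra.IsAlgebraic K Ω] {ι : Type} [Fintype ι] [DecidableEq ι] (β : ι → Ωˣ)
    (hβ : ∀ i, (β i : Ω) ∈ Set.range (algebraMap K Ω))
    (k₀ : ℕ) (hk₀ : 1 ≤ k₀)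
    (hidx : ∀ γ : Ωˣ, γ ∈ satG β → (γ : Ω) ∈ cyc K Ω →
      ∃ (ξ : Ωˣ) (e : ι → ℤ), (∃ n : ℕ, 1 ≤ n ∧ ξ ^ n = 1) ∧ γ ^ k₀ = ξ * ∏ i, β i ^ e i)
    (k : ι → ℕ) (hk : ∀ i, 1 ≤ k i) (hkk : ∀ i, k₀ ∣ k i) (z : ι → Ωˣ)
    (hz : ∀ i, z i ^ k i = β i) (γ : Ωˣ) (hγ : γ ∈ satG β) (hγz : (γ : Ω) ∈ cycZ K z) :
    ∃ (ξ : Ωˣ) (e : ι → ℤ), (∃ n : ℕ, 1 ≤ n ∧ ξ ^ n = 1) ∧ γ = ξ * ∏ i, z i ^ e i := by
  classical
  set F := cyc K Ω with hF
  have hcharF : CharZero F := ⟨fun a b h => by
    have h1 := congrArg (algebraMap F Ω) h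
    rw [map_natCast, map_natCast] at h1
    exact_mod_cast h1⟩
  have hgal : IsGalois F Ω := by
    have : Algebra.IsAlgebraic F Ω := Algebra.IsAlgebraic.tower_top (K := K) F
    have : IsAlgClosure F Ω := ⟨inferInstance, inferInstance⟩
    infer_instance
  let S : Set Ω := {w | ∃ i, w = (z i : Ω)}
  -- `γ` is in the algebra generated by the `z i`
  have hadj : (γ : Ω) ∈ Algebra.adjoin F S := by
    have h1 : (IntermediateField.adjoin F S).restrictScalars K = cycZ K z :=
      IntermediateField.adjoin_adjoin_left K {ξ : Ω | ∃ n : ℕ, 1 ≤ n ∧ ξ ^ n = 1} S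
    have h2 : (γ : Ω) ∈ IntermediateField.adjoin F S := by
      rw [← h1] at hγz
      exact hγz
    have h3 := IntermediateField.adjoin_toSubalgebra_of_isAlgebraic (F := F) (S := S)
      (fun x _ => Algebra.IsAlgebraic.isAlgebraic x)
    rw [← h3]
    exact h2
  have hspan : (γ : Ω) ∈ Submodule.span F (Set.range fun e : ι → ℤ => (kgmon z e : Ω)) := by
    have h2 : (γ : Ω) ∈ Subalgebra.toSubmodule (Algebra.adjoin F S) := hadj
    rw [Algebra.adjoin_eq_span] at h2
    refine (Submodule.span_mono ?_) h2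
    intro y hy
    induction hy using Submonoid.closure_induction_right with
    | one => exact ⟨0, by dsimp only; rw [kgmon_zero, Units.val_one]⟩
    | mul_right y hy w hw ih =>
      obtain ⟨e, he⟩ := ih
      obtain ⟨i, rfl⟩ := hw
      refine ⟨e + Pi.single i 1, ?_⟩
      dsimp only at he ⊢
      rw [kgmon_add, kgmon_single, Units.val_mul, he]
  -- powers of the monomials
  obtain ⟨n, hn, e0, he0⟩ := hγ
  have hβK : ∀ e : ι → ℤ, ((∏ i, β i ^ e i : Ωˣ) : Ω) ∈ Set.range (algebraMap K Ω) := by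
    intro e
    have h1 : ∀ i, ((β i ^ e i : Ωˣ) : Ω) ∈ (algebraMap K Ω).fieldRange := by
      intro i
      rw [Units.val_zpow_eq_zpow_val]
      exact zpow_mem (hβ i) _
    rw [Units.coe_prod]
    exact prod_mem fun i _ => h1 i
  set M := n * ∏ i, k i with hM
  have hkp : 1 ≤ ∏ i, k i := Nat.one_le_iff_ne_zero.2 (Finset.prod_ne_zero_iff.2
    fun i _ => by have := hk i; omega)
  have hM1 : 1 ≤ M := Nat.mul_pos hn hkp
  have hrF : ∀ y : Ω, y ∈ Set.range (algebraMap K Ω) → y ∈ Set.range (algebraMap F Ω) := by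
    rintro _ ⟨a, rfl⟩
    exact ⟨algebraMap K F a, rfl⟩
  have hpowK : ∀ (y : Ω) (m : ℕ), y ∈ Set.range (algebraMap K Ω) →
      y ^ m ∈ Set.range (algebraMap K Ω) := by
    rintro _ m ⟨a, rfl⟩
    exact ⟨a ^ m, by rw [map_pow]⟩
  have hγM : (γ : Ω) ^ M ∈ Set.range (algebraMap F Ω) := by
    apply hrF
    rw [hM, pow_mul]
    apply hpowK
    have h1 := hβK e0
    rw [← he0, Units.val_pow_eq_pow_val] at h1
    exact h1
  have hmonM : ∀ e : ι → ℤ, (kgmon z e : Ω) ^ M ∈ Set.range (algebraMap F Ω) := by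
    intro e
    apply hrF
    rw [hM, mul_comm, pow_mul]
    apply hpowK
    have h1 : kgmon z e ^ (∏ i, k i) = ∏ i, β i ^ (e i * ∏ j ∈ Finset.univ.erase i, (k j : ℤ)) := by
      unfold kgmon
      rw [← Finset.prod_pow]
      refine Finset.prod_congr rfl fun i _ => ?_
      rw [← hz i, ← zpow_natCast, ← zpow_natCast, ← zpow_mul, ← zpow_mul]
      congr 1
      rw [Nat.cast_prod, ← Finset.mul_prod_erase Finset.univ (fun j => (k j : ℤ)) (Finset.mem_univ i)]
      ring
    have h2 := hβK (fun i => e i * ∏ j ∈ Finset.univ.erase i, (k j : ℤ))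
    rw [← h1, Units.val_pow_eq_pow_val] at h2
    exact h2
  -- primitive root
  have hNZ : NeZero (M : Ω) := ⟨by
    have : M ≠ 0 := by omega
    exact_mod_cast this⟩
  have hroot : ∃ ω : F, IsPrimitiveRoot ω M := by
    obtain ⟨ζ, hζ⟩ := HasEnoughRootsOfUnity.exists_primitiveRoot Ω M
    have hζF : ζ ∈ F := IntermediateField.subset_adjoin K _ ⟨M, hM1, hζ.pow_eq_one⟩
    refine ⟨⟨ζ, hζF⟩, ?_⟩
    rw [← IsPrimitiveRoot.coe_submonoidClass_iff]
    exact hζ
  obtain ⟨ω, hω⟩ := hroot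
  -- (1)
  have hone : ∃ e : ι → ℤ, (γ : Ω) / kgmon z e ∈ Set.range (algebraMap F Ω) := by
    by_contra hcon
    push Not at hcon
    let r : Setoid (ι → ℤ) :=
      { r := fun e e' => (kgmon z e : Ω) / kgmon z e' ∈ Set.range (algebraMap F Ω)
        iseqv := by
          refine ⟨?_, ?_, ?_⟩
          · intro e
            exact ⟨1, by rw [map_one, div_self (Units.ne_zero _)]⟩
          · rintro e e' ⟨a, ha⟩
            exact ⟨a⁻¹, by rw [map_inv₀, ha, inv_div]⟩
          · rintro e e' e'' ⟨a, ha⟩ ⟨b, hb⟩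
            exact ⟨a * b, by rw [map_mul, ha, hb, div_mul_div_cancel₀ (Units.ne_zero _)]⟩ }
    let w : Option (Quotient r) → Ω := fun o => match o with
      | none => (γ : Ω)
      | some q => (kgmon z q.out : Ω)
    have hli : LinearIndependent F w := by
      refine Pool.Agent.H4.OH.shortRel F Ω M hM1 ω hω w ?_ ?_ ?_
      · rintro (_ | q)
        · exact γ.ne_zero
        · exact Units.ne_zero _
      · rintro (_ | q)
        · exact hγM
        · exact hmonM _
      · rintro (_ | q) (_ | q') hne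
        · exact absurd rfl hne
        · exact hcon _
        · rintro ⟨a, ha⟩
          apply hcon q.out
          refine ⟨a⁻¹, ?_⟩
          rw [map_inv₀, ha, inv_div]
        · intro h
          apply hne
          have h1 : q = q' := by
            rw [← Quotient.out_eq q, ← Quotient.out_eq q']
            exact Quotient.sound h
          rw [h1]
    rw [linearIndependent_option] at hli
    apply hli.2
    refine (Submodule.span_le.2 ?_) hspan
    rintro _ ⟨e, rfl⟩
    have h1 : r (Quotient.mk r e).out e := Quotient.mk_out e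
    obtain ⟨a, ha⟩ := r.symm h1
    have h2 : (kgmon z e : Ω) = a • w (some (Quotient.mk r e)) := by
      rw [Algebra.smul_def, ha]
      exact (div_mul_cancel₀ _ (Units.ne_zero _)).symm
    dsimp only
    rw [h2]
    exact Submodule.smul_mem _ a (Submodule.subset_span ⟨_, rfl⟩)
  -- (2)
  obtain ⟨e, a, ha⟩ := hone
  set f : Ωˣ := γ * (kgmon z e)⁻¹ with hf
  have hfF : (f : Ω) ∈ cyc K Ω := by
    rw [hf, Units.val_mul, Units.val_inv_eq_inv_val, ← div_eq_mul_inv, ← ha]
    exact a.2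
  have hzsat : ∀ i, z i ∈ satG β := by
    intro i
    refine ⟨k i, hk i, Pi.single i 1, ?_⟩
    rw [hz i]
    exact (kgmon_single β i).symm
  have hmsat : kgmon z e ∈ satG β := by
    unfold kgmon
    exact Subgroup.prod_mem _ fun i _ => Subgroup.zpow_mem _ (hzsat i) _
  have hfsat : f ∈ satG β := Subgroup.mul_mem _ ⟨n, hn, e0, he0⟩ (Subgroup.inv_mem _ hmsat)
  obtain ⟨ξ, e', ⟨n', hn', hξ⟩, hfk⟩ := hidx f hfsat hfF
  choose c hc using hkk
  set g : ι → ℤ := fun i => (c i : ℤ) * e' i with hg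
  have h1 : (kgmon z g) ^ k₀ = ∏ i, β i ^ e' i := by
    unfold kgmon
    rw [← Finset.prod_pow]
    refine Finset.prod_congr rfl fun i _ => ?_
    rw [← hz i, hg, ← zpow_natCast, ← zpow_natCast, ← zpow_mul, ← zpow_mul, hc i]
    congr 1
    push_cast
    ring
  refine ⟨f * (kgmon z g)⁻¹, e + g, ⟨k₀ * n', Nat.mul_pos hk₀ hn', ?_⟩, ?_⟩
  · rw [pow_mul, mul_pow, inv_pow, hfk, h1, mul_inv_cancel_right, hξ]
  · have h2 := kgmon_add z e g
    have h3 : γ = f * kgmon z e := by rw [hf, inv_mul_cancel_right]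
    change γ = f * (kgmon z g)⁻¹ * kgmon z (e + g)
    rw [h2, mul_comm (kgmon z e) (kgmon z g), mul_assoc f, inv_mul_cancel_left]
    exact h3

end Pool.Agent.H4.OG
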