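import Pool.Agent.H4.OH.Mono

/-!
# Module Mono (MP_187c26_nt, sums of radicals over K): monomials have small conjugates, general form

`A ⊆ Ω` an order, `x_i ∈ A` (`i ∈ s`) pairwise coprime in `A`, weights `w_i ≥ 0`, `‖τ x_i‖ ≤ exp (C w_i)` for all
`τ : A →+* ℂ` and `log ∏_τ ‖τ x_i‖ ≥ c w_i card(A →+* ℂ)`, `c > 0`. Then `DenS A (T ⊔ ⨆ i ∈ s, zpowers (x i)) (C / c)`.

Proof. Adapt the proof of `denS_mono` in OH/Mono.lean (the construction of `g1 = z ∏ X_i^(jp_i)`,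
`g2 = ∏ X_i^(jm_i)`, their coprimality and `hunit` are the same; `hcopX` is now a hypothesis). Let
`W = ∑ w_i jp_i`. `‖τ g1‖ ≤ exp (C W)` (`‖τ z‖ = 1`), and, `N = card`, as `idx A g1 g2 = 1` (`mono_idx`):
`OHt A g1 g2 = ∏_τ max ‖τ g1‖ ‖τ g2‖ ≥ ∏_τ ‖τ g1‖ = ∏_i (∏_τ ‖τ X_i‖)^(jp_i)`, so
`log (OHt A g1 g2) ≥ ∑ jp_i (c w_i N) = c W N` (the `∏_τ ‖τ X_i‖` are positive: `X_i ≠ 0`,
`hom_injective`), so `C W ≤ (C / c) (log (OHt) / N)`. The same for `g2`.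
-/

set_option autoImplicit false

namespace Pool.Agent.H4.OG

open Pool.Agent.H4.OH
open Pool.Agent.H4.RR (mem_iSup_zpowers norm_eq_one_of_pow)

variable {Ω : Type} [Field Ω] [CharZero Ω]

theorem denS_monoG (A : Subring Ω) [hA : Module.Finite ℤ A] {ι : Type} [DecidableEq ι]
    (s : Finset ι) (x : ι → Ωˣ) (X : ι → A) (hX : ∀ i ∈ s, (X i : Ω) = (x i : Ω))
    (hcop : ∀ i ∈ s, ∀ j ∈ s, i ≠ j → IsCoprime (X i) (X j))
    (w : ι → ℝ) (hw : ∀ i ∈ s, 0 ≤ w i) (C c : ℝ) (hC : 0 ≤ C) (hc : 0 < c)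
    (hup : ∀ i ∈ s, ∀ τ : A →+* ℂ, ‖τ (X i)‖ ≤ Real.exp (C * w i))
    (hN : ∀ i ∈ s, c * w i * Fintype.card (A →+* ℂ) ≤ Real.log (∏ τ : A →+* ℂ, ‖τ (X i)‖))
    (T : Subgroup Ωˣ) (hT : ∀ ζ ∈ T, (ζ : Ω) ∈ A ∧ ∃ n : ℕ, 1 ≤ n ∧ ζ ^ n = 1) :
    DenS A (T ⊔ ⨆ i ∈ s, Subgroup.zpowers (x i)) (C / c) := by
  refine ⟨hA, ?_⟩
  intro t ht
  obtain ⟨ζ, hζ, y, hy, hty⟩ := Subgroup.mem_sup.1 ht
  obtain ⟨j, rfl⟩ := mem_iSup_zpowers x s y hy
  obtain ⟨hζA, N0, hN0, hζN⟩ := hT ζ hζ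
  -- exponents
  set jp : ι → ℕ := fun i => (j i).toNat with hjp
  set jm : ι → ℕ := fun i => (-(j i)).toNat with hjm
  have hjz : ∀ i, j i + (jm i : ℤ) = (jp i : ℤ) := by
    intro i
    simp only [hjp, hjm]
    omega
  have hj0 : ∀ i, jp i = 0 ∨ jm i = 0 := by
    intro i
    simp only [hjp, hjm]
    omega
  -- the identity of units
  have hunit : t * ∏ i ∈ s, x i ^ jm i = ζ * ∏ i ∈ s, x i ^ jp i := by
    rw [← hty, mul_assoc, ← Finset.prod_mul_distrib]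
    congr 1
    refine Finset.prod_congr rfl fun i _ => ?_
    rw [← zpow_natCast, ← zpow_add, hjz, zpow_natCast]
  -- elements of A
  let z : A := ⟨(ζ : Ω), hζA⟩
  have hzN : z ^ N0 = 1 := by
    apply Subtype.ext
    rw [Subring.coe_pow, Subring.coe_one]
    show (ζ : Ω) ^ N0 = 1
    rw [← Units.val_pow_eq_pow_val, hζN, Units.val_one]
  have hzunit : IsUnit z := IsUnit.of_pow_eq_one hzN (by omega)
  set g1 : A := z * ∏ i ∈ s, X i ^ jp i with hg1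
  set g2 : A := ∏ i ∈ s, X i ^ jm i with hg2
  have hcoe : ∀ e : ι → ℕ, (((∏ i ∈ s, X i ^ e i : A) : Ω)) = ((∏ i ∈ s, x i ^ e i : Ωˣ) : Ω) := by
    intro e
    rw [Units.coe_prod]
    refine (map_prod A.subtype _ _).trans ?_
    refine Finset.prod_congr rfl fun i hi => ?_
    rw [Units.val_pow_eq_pow_val, map_pow]
    show (X i : Ω) ^ e i = _
    rw [hX i hi]
  have hg1Ω : (g1 : Ω) = ((ζ * ∏ i ∈ s, x i ^ jp i : Ωˣ) : Ω) := by
    rw [hg1, Subring.coe_mul, hcoe jp, Units.val_mul]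
  have hg2Ω : (g2 : Ω) = ((∏ i ∈ s, x i ^ jm i : Ωˣ) : Ω) := hcoe jm
  have hg1n : g1 ≠ 0 := by
    intro h
    have h1 : (g1 : Ω) = 0 := by rw [h]; rfl
    rw [hg1Ω] at h1
    exact Units.ne_zero _ h1
  have hg2n : g2 ≠ 0 := by
    intro h
    have h1 : (g2 : Ω) = 0 := by rw [h]; rfl
    rw [hg2Ω] at h1
    exact Units.ne_zero _ h1
  have hXn : ∀ i ∈ s, X i ≠ 0 := by
    intro i hi h
    have h1 : (X i : Ω) = 0 := by rw [h]; rfl
    rw [hX i hi] at h1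
    exact (x i).ne_zero h1
  have hτ0 : ∀ (τ : A →+* ℂ) (a : A), a ≠ 0 → 0 < ‖τ a‖ := by
    intro τ a ha
    rw [norm_pos_iff, Ne, map_eq_zero_iff τ (hom_injective A τ)]
    exact ha
  -- norms of the conjugates of monomials
  have hnorm : ∀ (τ : A →+* ℂ) (e : ι → ℕ), ‖τ (∏ i ∈ s, X i ^ e i)‖
      = ∏ i ∈ s, ‖τ (X i)‖ ^ e i := by
    intro τ e
    rw [map_prod, norm_prod]
    refine Finset.prod_congr rfl fun i hi => ?_
    rw [map_pow, norm_pow]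
  have hupp : ∀ (τ : A →+* ℂ) (e : ι → ℕ), ‖τ (∏ i ∈ s, X i ^ e i)‖ ≤
      Real.exp (C * ∑ i ∈ s, w i * e i) := by
    intro τ e
    rw [hnorm, Finset.mul_sum, Real.exp_sum]
    refine Finset.prod_le_prod (fun i _ => by positivity) fun i hi => ?_
    have h1 := pow_le_pow_left₀ (norm_nonneg _) (hup i hi τ) (e i)
    rw [← Real.exp_nat_mul] at h1
    refine h1.trans (le_of_eq ?_)
    congr 1
    ring
  have hlow : ∀ e : ι → ℕ, c * (∑ i ∈ s, w i * e i) * Fintype.card (A →+* ℂ) ≤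
      Real.log (∏ τ : A →+* ℂ, ‖τ (∏ i ∈ s, X i ^ e i)‖) := by
    intro e
    have h1 : ∏ τ : A →+* ℂ, ‖τ (∏ i ∈ s, X i ^ e i)‖ =
        ∏ i ∈ s, (∏ τ : A →+* ℂ, ‖τ (X i)‖) ^ e i := by
      simp only [hnorm]
      rw [Finset.prod_comm]
      refine Finset.prod_congr rfl fun i _ => ?_
      rw [Finset.prod_pow]
    rw [h1, Real.log_prod (fun i hi => pow_ne_zero _ (Finset.prod_ne_zero_iff.2 fun τ _ =>
      (hτ0 τ (X i) (hXn i hi)).ne'))]
    rw [Finset.mul_sum, Finset.sum_mul]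
    refine Finset.sum_le_sum fun i hi => ?_
    rw [Real.log_pow]
    have h2 := mul_le_mul_of_nonneg_left (hN i hi) (Nat.cast_nonneg (α := ℝ) (e i))
    refine le_trans (le_of_eq ?_) h2
    ring
  have hz1 : ∀ τ : A →+* ℂ, ‖τ z‖ = 1 := by
    intro τ
    refine norm_eq_one_of_pow hN0 ?_
    rw [← map_pow, hzN, map_one]
  have hn1 : ∀ τ : A →+* ℂ, ‖τ g1‖ = ‖τ (∏ i ∈ s, X i ^ jp i)‖ := by
    intro τ
    rw [hg1, map_mul, norm_mul, hz1, one_mul]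
  -- coprimality
  have hcopg : IsCoprime g1 g2 := by
    have h1 : IsCoprime (∏ i ∈ s, X i ^ jp i) g2 := by
      refine IsCoprime.prod_left fun i hi => IsCoprime.prod_right fun k hk => ?_
      by_cases hik : i = k
      · subst hik
        rcases hj0 i with h | h
        · rw [h, pow_zero]
          exact isCoprime_one_left
        · rw [h, pow_zero]
          exact isCoprime_one_right
      · exact (hcop i hi k hk hik).pow
    exact (isCoprime_mul_unit_left_left hzunit _ _).2 h1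
  have hNpos : (0 : ℝ) < Fintype.card (A →+* ℂ) := by
    exact_mod_cast card_hom_pos A
  have hOH : OHt A g1 g2 = ∏ τ : A →+* ℂ, max ‖τ g1‖ ‖τ g2‖ := by
    unfold OHt
    rw [mono_idx A g1 g2 hcopg, Nat.cast_one, div_one]
  have hge1 : ∏ τ : A →+* ℂ, ‖τ g1‖ ≤ OHt A g1 g2 := by
    rw [hOH]
    exact Finset.prod_le_prod (fun τ _ => norm_nonneg _) fun τ _ => le_max_left _ _
  have hge2 : ∏ τ : A →+* ℂ, ‖τ g2‖ ≤ OHt A g1 g2 := by
    rw [hOH]
    exact Finset.prod_le_prod (fun τ _ => norm_nonneg _) fun τ _ => le_max_right _ _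
  have hfin : ∀ W : ℝ, c * W * Fintype.card (A →+* ℂ) ≤ Real.log (OHt A g1 g2) →
      C * W ≤ C / c * (Real.log (OHt A g1 g2) / Fintype.card (A →+* ℂ)) := by
    intro W hW
    rw [div_mul_div_comm, le_div_iff₀ (by positivity)]
    calc C * W * (c * Fintype.card (A →+* ℂ)) = C * (c * W * Fintype.card (A →+* ℂ)) := by ring
      _ ≤ C * Real.log (OHt A g1 g2) := mul_le_mul_of_nonneg_left hW hC
  have hW1 := hfin (∑ i ∈ s, w i * jp i) ((hlow jp).trans (by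
    refine Real.log_le_log (Finset.prod_pos fun τ _ => ?_) ?_
    · rw [← hn1]
      exact hτ0 τ g1 hg1n
    · refine le_trans (le_of_eq ?_) hge1
      exact Finset.prod_congr rfl fun τ _ => (hn1 τ).symm))
  have hW2 := hfin (∑ i ∈ s, w i * jm i) ((hlow jm).trans
    (Real.log_le_log (Finset.prod_pos fun τ _ => hτ0 τ g2 hg2n) hge2))
  refine ⟨g1, g2, hg1n, hg2n, ?_, ?_⟩
  · rw [hg1Ω, hg2Ω, ← Units.val_mul, hunit]
  · intro τ
    constructor
    · rw [hn1]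
      exact (hupp τ jp).trans (Real.exp_le_exp.2 hW1)
    · exact (hupp τ jm).trans (Real.exp_le_exp.2 hW2)

end Pool.Agent.H4.OG
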