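import Pool.Agent.H4.OG.Core
import Pool.Agent.H4.OH.Step

/-!
# The step theorem for orders, variable absolute values (MP_187c26_nt, sums of radicals over K)
-/

set_option autoImplicit false
set_option linter.unusedSectionVars false

open Polynomial

namespace Pool.Agent.H4.OG

open Pool.Agent.H4.RR (fam famDet rho)
open Pool.Agent.H4.OH

section

variable (A R : Type) [CommRing A] [IsDomain A] [CharZero A] [Module.Finite ℤ A]
  [CommRing R] [IsDomain R] [CharZero R] [Module.Finite ℤ R] [Algebra A R]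

/-- The step theorem, normalised so that `u` has degree `D`. -/
lemma step_aux (m : ℕ) (hm : 1 ≤ m) (x : R) (b : A) (hx : x ^ m = algebraMap A R b)
    (bas : Module.Basis (Fin m) A R) (hbas : ∀ i, bas i = x ^ (i : ℕ))
    (ε ℓ : ℝ) (hε : 0 ≤ ε) (hℓ : 0 < ℓ)
    (hblo : ∀ τ : A →+* ℂ, Real.exp (-ε) ≤ ‖τ b‖) (hbup : ∀ τ : A →+* ℂ, ‖τ b‖ ≤ Real.exp ε)
    (hbN : ℓ * Fintype.card (A →+* ℂ) ≤ Real.log (∏ τ : A →+* ℂ, ‖τ b‖))
    (G : Set (A × A)) (κ θ : ℝ) (hθ : 0 ≤ θ)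
    (hBog : BogO A G κ) (hDen : DenO A G θ)
    (κ1 : ℝ) (hκ0 : 0 ≤ κ1) (hκ1 : κ1 ≤ min κ (Real.log (5 / 4) / (2 + 2 * θ)) - ε / 2)
    (hκ2 : κ1 ≤ ℓ / 2)
    (U V : R) (hU : U ≠ 0) (hV : V ≠ 0)
    (hne : ∀ g ∈ G, ∀ e : ℕ, U * algebraMap A R g.2 ≠ V * algebraMap A R g.1 * x ^ e)
    (D : ℕ) (u v : A[X]) (hD : 2 * D ≤ m) (hu : u.natDegree = D) (hv : v.natDegree ≤ D)
    (K : Type) [Field K] [Algebra A K] [IsFractionRing A K]
    (hcop : IsCoprime (u.map (algebraMap A K)) (v.map (algebraMap A K)))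
    (hux : aeval x u ≠ 0) (hvx : aeval x v ≠ 0)
    (huv : aeval x u * V = aeval x v * U) :
    κ1 / 2 * Fintype.card (R →+* ℂ) ≤ Real.log (OHt R U V) := by
  -- the roots of the conjugates of `b`
  have hroot : ∀ τ : A →+* ℂ, ∃ z : ℂ, z ^ m = τ b := fun τ =>
    IsAlgClosed.exists_pow_nat_eq (τ b) (by omega)
  choose c hcb using hroot
  have hcn : ∀ τ, ‖c τ‖ ^ m = ‖τ b‖ := by
    intro τ
    rw [← norm_pow, hcb]
  have hm0 : m ≠ 0 := by omega
  have hmR : (0 : ℝ) < m := by exact_mod_cast hm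
  have hc0 : ∀ τ, c τ ≠ 0 := by
    intro τ h
    have h1 := hcn τ
    rw [h, norm_zero, zero_pow hm0] at h1
    have h2 := hblo τ
    rw [← h1] at h2
    exact absurd h2 (not_le.mpr (Real.exp_pos _))
  have hlo : ∀ τ, ∀ e ≤ D, Real.exp (-(ε / 2)) ≤ ‖c τ‖ ^ e := by
    intro τ e he
    apply le_of_pow_le_pow_left₀ hm0 (by positivity)
    calc Real.exp (-(ε / 2)) ^ m = Real.exp (m * -(ε / 2)) := (Real.exp_nat_mul _ _).symm
      _ ≤ Real.exp (e * -ε) := by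
          apply Real.exp_le_exp.mpr
          have h1 : (2 : ℝ) * e ≤ m := by exact_mod_cast (by omega : 2 * e ≤ m)
          nlinarith
      _ = Real.exp (-ε) ^ e := Real.exp_nat_mul _ _
      _ ≤ ‖τ b‖ ^ e := pow_le_pow_left₀ (Real.exp_pos _).le (hblo τ) e
      _ = (‖c τ‖ ^ e) ^ m := by rw [← hcn τ]; ring
  have hup : ∀ τ, ∀ e ≤ D, ‖c τ‖ ^ e ≤ Real.exp (ε / 2) := by
    intro τ e he
    apply le_of_pow_le_pow_left₀ hm0 (Real.exp_pos _).le
    calc (‖c τ‖ ^ e) ^ m = ‖τ b‖ ^ e := by rw [← hcn τ]; ring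
      _ ≤ Real.exp ε ^ e := pow_le_pow_left₀ (norm_nonneg _) (hbup τ) e
      _ = Real.exp (e * ε) := (Real.exp_nat_mul _ _).symm
      _ ≤ Real.exp (m * (ε / 2)) := by
          apply Real.exp_le_exp.mpr
          have h1 : (2 : ℝ) * e ≤ m := by exact_mod_cast (by omega : 2 * e ≤ m)
          nlinarith
      _ = Real.exp (ε / 2) ^ m := Real.exp_nat_mul _ _
  set N := Fintype.card (A →+* ℂ) with hNdef
  have hNpos : (0 : ℝ) < N := by exact_mod_cast card_hom_pos A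
  have hB0 : 0 < ∏ τ : A →+* ℂ, ‖c τ‖ :=
    Finset.prod_pos (fun τ _ => norm_pos_iff.mpr (hc0 τ))
  have hBm : (∏ τ : A →+* ℂ, ‖c τ‖) ^ m = ∏ τ : A →+* ℂ, ‖τ b‖ := by
    rw [← Finset.prod_pow]
    exact Finset.prod_congr rfl (fun τ _ => hcn τ)
  have hlogB : ℓ * N / m ≤ Real.log (∏ τ : A →+* ℂ, ‖c τ‖) := by
    rw [← hBm, Real.log_pow] at hbN
    rw [div_le_iff₀ hmR]
    linarith
  have hB1 : 1 ≤ ∏ τ : A →+* ℂ, ‖c τ‖ := by
    rw [← Real.log_nonneg_iff hB0]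
    refine le_trans ?_ hlogB
    positivity
  obtain ⟨e, he⟩ := exists_embed_equiv A R m hm x b hx bas hbas c hc0 hcb
  have hu0 : u ≠ 0 := by
    intro h
    apply hux
    rw [h, map_zero]
  have hv0 : v ≠ 0 := by
    intro h
    apply hvx
    rw [h, map_zero]
  -- rho
  have hinj : Function.Injective (algebraMap A K) := IsFractionRing.injective A K
  have hrho : rho D u v ≠ 0 := by
    intro h
    have h1 := Pool.Agent.H4.RR.rho_ne_zero D (u.map (algebraMap A K)) (v.map (algebraMap A K))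
      (by rw [natDegree_map_eq_of_injective hinj]; exact hu.le)
      (by rw [natDegree_map_eq_of_injective hinj]; exact hv)
      (Or.inl (by rw [natDegree_map_eq_of_injective hinj]; exact hu)) hcop
    apply h1
    rw [← Pool.Agent.H4.RR.rho_map, h, map_zero]
  -- weights
  have heval : ∀ (w : A[X]) (τ : A →+* ℂ) (j : Fin m),
      (w.map τ).eval (node m (c τ) j) = e (τ, j) (aeval x w) := by
    intro w τ j
    rw [eval_map, aeval_def, hom_eval₂, (he τ j).2]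
    congr 1
    ext a
    exact ((he τ j).1 a).symm
  have hwt : ∀ (τ : A →+* ℂ) (j : Fin m), wt m c u v τ j
      = max ‖e (τ, j) (aeval x u)‖ ‖e (τ, j) (aeval x v)‖ := by
    intro τ j
    rw [wt, heval u τ j, heval v τ j]
  have hpos : ∀ (τ : A →+* ℂ) (j : Fin m), 0 < wt m c u v τ j := by
    intro τ j
    rw [hwt]
    apply lt_max_of_lt_left
    rw [norm_pos_iff, Ne, map_eq_zero_iff _ (hom_injective R _)]
    exact hux
  set I := idx R (aeval x u) (aeval x v) with hIdef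
  have hI : 0 < I := Nat.pos_of_ne_zero (idx_ne_zero R _ _ (Or.inl hux))
  have hOH : OHt R U V = OHt R (aeval x u) (aeval x v) := by
    refine OHt_congr R _ _ _ _ hU hux ?_
    rw [mul_comm, ← huv, mul_comm]
  have hH : (I : ℝ) * OHt R (aeval x u) (aeval x v) = ∏ τ : A →+* ℂ, ∏ j, wt m c u v τ j := by
    have hIR : (I : ℝ) ≠ 0 := by exact_mod_cast hI.ne'
    rw [OHt, ← hIdef, mul_div_cancel₀ _ hIR, ← e.prod_comp, Fintype.prod_prod_type]
    exact Finset.prod_congr rfl (fun τ _ => Finset.prod_congr rfl (fun j _ => (hwt τ j).symm))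
  have h1 : ∀ (n : ℕ) (s t : A[X]), (s * u + t * v).natDegree ≤ n → n ≤ 2 * D →
      rho D u v * ((s * u + t * v).coeff n) ^ (m - 2 * D) ≠ 0 →
      I ≤ (Algebra.norm ℤ (rho D u v * ((s * u + t * v).coeff n) ^ (m - 2 * D))).natAbs :=
    fun n s t hdeg hn h0 => idx_le_one A R m D n hD hn x bas hbas u v s t hu.le hv hdeg h0
  have hul : u.coeff D ≠ 0 := by
    rw [← hu, coeff_natDegree]; exact leadingCoeff_ne_zero.mpr hu0
  have h2 : I ≤ (Algebra.norm ℤ (rho D u v)).natAbs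
      * (idx A (u.coeff D) (v.coeff v.natDegree)) ^ (m - 2 * D) :=
    idx_le_two A R m D v.natDegree hD hv x bas hbas u v hu.le le_rfl hrho (Or.inl hul)
  have hne' : ∀ g ∈ G, ∀ e : ℕ, C g.2 * u ≠ C g.1 * X ^ e * v := by
    intro g hg e' heq
    apply hne g hg e'
    have h3 : algebraMap A R g.2 * aeval x u = algebraMap A R g.1 * x ^ e' * aeval x v := by
      have := congrArg (aeval x) heq
      rwa [map_mul, map_mul, map_mul, aeval_C, aeval_C, map_pow, aeval_X] at this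
    apply mul_left_cancel₀ hvx
    calc aeval x v * (U * algebraMap A R g.2) = (aeval x v * U) * algebraMap A R g.2 := by ring
      _ = (aeval x u * V) * algebraMap A R g.2 := by rw [huv]
      _ = (algebraMap A R g.2 * aeval x u) * V := by ring
      _ = (algebraMap A R g.1 * x ^ e' * aeval x v) * V := by rw [h3]
      _ = aeval x v * (V * algebraMap A R g.1 * x ^ e') := by ring
  have hcore := core m D c u v hc0 ε hε hlo hup hB1 hm hD hu hu0 hv hv0 hrho hpos I hI _ hH h1 h2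
    G κ θ hθ hBog hDen hne'
  rw [hOH, card_hom_step A R m bas]
  refine le_trans ?_ hcore
  rw [← hNdef]
  have h5 : (D : ℝ) ^ 2 * (ℓ * N / m) + N * (((m : ℝ) - 2 * D) * κ1)
      ≤ (D : ℝ) ^ 2 * Real.log (∏ τ : A →+* ℂ, ‖c τ‖)
        + N * (((m : ℝ) - 2 * D) * (min κ (Real.log (5 / 4) / (2 + 2 * θ)) - ε / 2)) := by
    have h6 : (0 : ℝ) ≤ (m : ℝ) - 2 * D := by
      have : (2 : ℝ) * D ≤ m := by exact_mod_cast hD
      linarith
    gcongr
  refine le_trans ?_ h5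
  have h7 : (κ1 - κ1 ^ 2 / ℓ) * m ≤ (D : ℝ) ^ 2 * (ℓ / m) + ((m : ℝ) - 2 * D) * κ1 := by
    have h3 : (D : ℝ) ^ 2 * (ℓ / m) + ((m : ℝ) - 2 * D) * κ1 - (κ1 - κ1 ^ 2 / ℓ) * m
        = (D * ℓ - m * κ1) ^ 2 / (m * ℓ) := by
      field_simp
      ring
    have h4 : 0 ≤ (D * ℓ - m * κ1) ^ 2 / (m * ℓ) := by positivity
    linarith
  have h8 : κ1 / 2 ≤ κ1 - κ1 ^ 2 / ℓ := by
    have h9 : κ1 ^ 2 / ℓ ≤ κ1 / 2 := by
      rw [div_le_iff₀ hℓ]
      nlinarith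
    linarith
  calc κ1 / 2 * ((N * m : ℕ) : ℝ) = N * (κ1 / 2 * m) := by push_cast; ring
    _ ≤ N * ((κ1 - κ1 ^ 2 / ℓ) * m) := by gcongr
    _ ≤ N * ((D : ℝ) ^ 2 * (ℓ / m) + ((m : ℝ) - 2 * D) * κ1) := by gcongr
    _ = (D : ℝ) ^ 2 * (ℓ * N / m) + N * (((m : ℝ) - 2 * D) * κ1) := by ring

/-- The step theorem: a lower bound for order heights on `R = A[x]`. -/
theorem step (m : ℕ) (hm : 1 ≤ m) (x : R) (b : A) (hx : x ^ m = algebraMap A R b)
    (bas : Module.Basis (Fin m) A R) (hbas : ∀ i, bas i = x ^ (i : ℕ))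
    (ε ℓ : ℝ) (hε : 0 ≤ ε) (hℓ : 0 < ℓ)
    (hblo : ∀ τ : A →+* ℂ, Real.exp (-ε) ≤ ‖τ b‖) (hbup : ∀ τ : A →+* ℂ, ‖τ b‖ ≤ Real.exp ε)
    (hbN : ℓ * Fintype.card (A →+* ℂ) ≤ Real.log (∏ τ : A →+* ℂ, ‖τ b‖))
    (G : Set (A × A)) (κ θ : ℝ) (hθ : 0 ≤ θ)
    (hBog : BogO A G κ) (hDen : DenO A G θ)
    (κ1 : ℝ) (hκ0 : 0 ≤ κ1) (hκ1 : κ1 ≤ min κ (Real.log (5 / 4) / (2 + 2 * θ)) - ε / 2)
    (hκ2 : κ1 ≤ ℓ / 2)
    (U V : R) (hU : U ≠ 0) (hV : V ≠ 0)
    (hne : ∀ g ∈ G, ∀ e : ℕ, U * algebraMap A R g.2 ≠ V * algebraMap A R g.1 * x ^ e ∧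
      V * algebraMap A R g.2 ≠ U * algebraMap A R g.1 * x ^ e) :
    κ1 / 2 * Fintype.card (R →+* ℂ) ≤ Real.log (OHt R U V) := by
  obtain ⟨D, u, v, hD, hu, hv, huv, hcop, hux, hvx, hrel⟩ :=
    exists_rep A R m hm x bas hbas U V hU hV (FractionRing A)
  by_cases hu' : u.natDegree = D
  · exact step_aux A R m hm x b hx bas hbas ε ℓ hε hℓ hblo hbup hbN G κ θ hθ hBog hDen κ1 hκ0 hκ1
      hκ2 U V hU hV (fun g hg e => (hne g hg e).1) D u v hD hu' hv (FractionRing A) hcop hux hvx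
      hrel
  · have hv' : v.natDegree = D := huv.resolve_left hu'
    rw [OHt_comm]
    exact step_aux A R m hm x b hx bas hbas ε ℓ hε hℓ hblo hbup hbN G κ θ hθ hBog hDen κ1 hκ0 hκ1
      hκ2 V U hV hU (fun g hg e => (hne g hg e).2) D v u hD hv' hu (FractionRing A) hcop.symm hvx
      hux hrel.symm

end

end Pool.Agent.H4.OG
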