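import Pool.Agent.H4.OG.Step
import Pool.Agent.H4.OH.SubStep

/-!
# The step theorem inside a field, variable absolute values (MP_187c26_nt, sums of radicals over K)
-/

set_option autoImplicit false

namespace Pool.Agent.H4.OG

open Pool.Agent.H4.OH

variable {Ω : Type} [Field Ω] [CharZero Ω]

theorem stepS (A R : Subring Ω) (hAR : A ≤ R) (x : Ωˣ) (m : ℕ) (hm : 1 ≤ m)
    (hR : R = A ⊔ Subring.closure {(x : Ω)}) (b : A) (hx : (x : Ω) ^ m = (b : Ω))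
    (hind : ∀ c : Fin m → A, ∑ i, (c i : Ω) * (x : Ω) ^ (i : ℕ) = 0 → ∀ i, c i = 0)
    [Module.Finite ℤ A] (ε ℓ : ℝ) (hε : 0 ≤ ε) (hℓ : 0 < ℓ)
    (hblo : ∀ τ : A →+* ℂ, Real.exp (-ε) ≤ ‖τ b‖) (hbup : ∀ τ : A →+* ℂ, ‖τ b‖ ≤ Real.exp ε)
    (hbN : ℓ * Fintype.card (A →+* ℂ) ≤ Real.log (∏ τ : A →+* ℂ, ‖τ b‖))
    (S : Subgroup Ωˣ) (κ θ : ℝ) (hθ : 0 ≤ θ)
    (hBog : BogS A S κ) (hDen : DenS A S θ)
    (κ1 : ℝ) (hκ0 : 0 ≤ κ1) (hκ1 : κ1 ≤ min κ (Real.log (5 / 4) / (2 + 2 * θ)) - ε / 2)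
    (hκ2 : κ1 ≤ ℓ / 2) :
    BogS R (S ⊔ Subgroup.zpowers x) (κ1 / 2) := by
  obtain ⟨hA, hBog⟩ := hBog
  obtain ⟨_, hDen⟩ := hDen
  let : Algebra A R := (Subring.inclusion hAR).toAlgebra
  have halg : ∀ a : A, ((algebraMap A R a : R) : Ω) = (a : Ω) := fun a => rfl
  have hxmem : (x : Ω) ∈ R := by
    rw [hR]
    exact (le_sup_right : Subring.closure {(x : Ω)} ≤ A ⊔ Subring.closure {(x : Ω)})
      (Subring.subset_closure rfl)
  let xR : R := ⟨(x : Ω), hxmem⟩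
  have hxR : (xR : Ω) = (x : Ω) := rfl
  obtain ⟨bas, hbas⟩ := substep_basis A R hAR x m hm hR b hx hind xR hxR
  have hfinAR : Module.Finite A R := Module.Finite.of_basis bas
  have hfin : Module.Finite ℤ R := Module.Finite.trans A R
  refine ⟨hfin, fun U V hU hV hne => ?_⟩
  have hxb : xR ^ m = algebraMap A R b := by
    apply Subtype.ext
    rw [Subring.coe_pow, hxR, halg, hx]
  set G : Set (A × A) := {g | g.1 ≠ 0 ∧ g.2 ≠ 0 ∧ (∀ τ : A →+* ℂ,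
      ‖τ g.1‖ ≤ Real.exp (θ * (Real.log (OHt A g.1 g.2) / Fintype.card (A →+* ℂ))) ∧
      ‖τ g.2‖ ≤ Real.exp (θ * (Real.log (OHt A g.1 g.2) / Fintype.card (A →+* ℂ)))) ∧
      ∃ s ∈ S, (g.1 : Ω) = (s : Ω) * (g.2 : Ω)} with hG
  have hBogO : BogO A G κ := by
    intro a c ha hc hg
    apply hBog a c ha hc
    intro s hs hac
    obtain ⟨g1, g2, h1, h2, h3, h4⟩ := hDen s hs
    apply hg (g1, g2) ⟨h1, h2, h4, s, hs, h3⟩
    apply Subtype.ext
    rw [Subring.coe_mul, Subring.coe_mul]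
    simp only
    rw [hac, h3]
    ring
  have hDenO : DenO A G θ := fun g hg => ⟨hg.1, hg.2.1, hg.2.2.1⟩
  refine step A R m hm xR b hxb bas hbas ε ℓ hε hℓ hblo hbup hbN G κ θ hθ hBogO hDenO κ1 hκ0 hκ1
    hκ2 U V hU hV ?_
  rintro g ⟨h1, h2, _, s, hs, h3⟩ e
  have hg2 : ((g.2 : A) : Ω) ≠ 0 := by
    intro h
    exact h2 (Subtype.ext h)
  have hmem : s * x ^ e ∈ S ⊔ Subgroup.zpowers x :=
    Subgroup.mul_mem_sup hs (Subgroup.npow_mem_zpowers x e)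
  constructor
  · intro h
    have h4 := congrArg (fun y : R => (y : Ω)) h
    simp only [Subring.coe_mul, Subring.coe_pow, halg, hxR] at h4
    apply hne _ hmem
    rw [Units.val_mul, Units.val_pow_eq_pow_val]
    apply mul_right_cancel₀ hg2
    rw [h4, h3]
    ring
  · intro h
    have h4 := congrArg (fun y : R => (y : Ω)) h
    simp only [Subring.coe_mul, Subring.coe_pow, halg, hxR] at h4
    apply hne _ (Subgroup.inv_mem _ hmem)
    have h5 : (V : Ω) = ((s * x ^ e : Ωˣ) : Ω) * (U : Ω) := by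
      rw [Units.val_mul, Units.val_pow_eq_pow_val]
      apply mul_right_cancel₀ hg2
      rw [h4, h3]
      ring
    rw [h5, ← mul_assoc, ← Units.val_mul, inv_mul_cancel, Units.val_one, one_mul]

end Pool.Agent.H4.OG
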