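import Pool.Agent.H4.OG.SubStep
import Pool.Agent.H4.OG.Mono
import Pool.Agent.H4.OG.BaseB
import Pool.Agent.H4.OG.Bounds
import Pool.Agent.H4.OG.BaseHt
import Pool.Agent.H4.OG.IndB
import Pool.Agent.H4.OG.Indep
import Pool.Agent.H4.OH.TowerS

/-!
# The tower (MP_187c26_nt, sums of radicals over K)
-/

set_option autoImplicit false

open NumberField IntermediateField

namespace Pool.Agent.H4.OG

open Pool.Agent.H4.OH

section

variable {K Ω : Type} [Field K] [Field Ω] [Algebra K Ω] {ι : Type}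

lemma bogS_mono_group [CharZero Ω] {A : Subring Ω} {S S' : Subgroup Ωˣ} {κ : ℝ} (h : BogS A S κ)
    (hle : S ≤ S') : BogS A S' κ := by
  obtain ⟨hA, h⟩ := h
  exact ⟨hA, fun a b ha hb hs => h a b ha hb (fun s hsS => hs s (hle hsS))⟩

lemma ordB_empty (ζ : Ω) (y x : ι → Ωˣ) : ordB K ζ y x (∅ : Finset ι) = intOf (baseF K ζ y) := by
  unfold ordB
  have h : Subring.closure {w : Ω | ∃ i ∈ (∅ : Finset ι), w = (x i : Ω)} ≤ intOf (baseF K ζ y) := by
    rw [Subring.closure_le]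
    rintro w ⟨i, hi, -⟩
    simp at hi
  exact sup_eq_left.mpr h

lemma ordB_insert [DecidableEq ι] (ζ : Ω) (y x : ι → Ωˣ) (T : Finset ι) (j : ι) :
    ordB K ζ y x (insert j T) = ordB K ζ y x T ⊔ Subring.closure {(x j : Ω)} := by
  unfold ordB
  rw [sup_assoc, ← Subring.closure_union]
  congr 2
  ext w
  constructor
  · rintro ⟨i, hi, rfl⟩
    rcases Finset.mem_insert.mp hi with rfl | hi
    · exact Or.inr rfl
    · exact Or.inl ⟨i, hi, rfl⟩
  · rintro (⟨i, hi, rfl⟩ | h)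
    · exact ⟨i, Finset.mem_insert_of_mem hi, rfl⟩
    · exact ⟨j, Finset.mem_insert_self _ _, h⟩

lemma y_mem_baseF (ζ : Ω) (y : ι → Ωˣ) (i : ι) : (y i : Ω) ∈ baseF K ζ y :=
  IntermediateField.subset_adjoin K _ (Or.inr ⟨i, rfl⟩)

lemma zeta_mem_baseF (ζ : Ω) (y : ι → Ωˣ) : ζ ∈ baseF K ζ y :=
  IntermediateField.subset_adjoin K _ (Or.inl rfl)

lemma z_mem_cycZ (z : ι → Ωˣ) (i : ι) : (z i : Ω) ∈ cycZ K z :=
  IntermediateField.subset_adjoin K _ (Or.inr ⟨i, rfl⟩)

lemma root_mem_cycZ (z : ι → Ωˣ) (ξ : Ω) (n : ℕ) (hn : 1 ≤ n) (h : ξ ^ n = 1) : ξ ∈ cycZ K z :=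
  IntermediateField.subset_adjoin K _ (Or.inl ⟨n, hn, h⟩)

variable [DecidableEq ι]

lemma zT_pow (y x : ι → Ωˣ) (T : Finset ι) (m : ℕ) (hx : ∀ i, x i ^ m = y i) (i : ι) :
    ∃ e : ℕ, y i = zT y x T i ^ e := by
  unfold zT
  by_cases h : i ∈ T
  · exact ⟨m, by rw [if_pos h, hx]⟩
  · exact ⟨1, by rw [if_neg h, pow_one]⟩

lemma baseF_le_cycZ (ζ : Ω) (N : ℕ) (hN : 1 ≤ N) (hζ : ζ ^ N = 1) (y x : ι → Ωˣ) (T : Finset ι)
    (m : ℕ) (hx : ∀ i, x i ^ m = y i) : baseF K ζ y ≤ cycZ K (zT y x T) := by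
  unfold baseF
  rw [IntermediateField.adjoin_le_iff]
  rintro w (h | ⟨i, rfl⟩)
  · rw [Set.mem_singleton_iff] at h
    rw [h]
    exact root_mem_cycZ _ _ N hN hζ
  · obtain ⟨e, he⟩ := zT_pow y x T m hx i
    rw [he, Units.val_pow_eq_pow_val]
    exact pow_mem (z_mem_cycZ _ i) e

lemma ordB_le_cycZ (ζ : Ω) (N : ℕ) (hN : 1 ≤ N) (hζ : ζ ^ N = 1) (y x : ι → Ωˣ) (T : Finset ι)
    (m : ℕ) (hx : ∀ i, x i ^ m = y i) (w : Ω) (hw : w ∈ ordB K ζ y x T) :
    w ∈ cycZ K (zT y x T) := by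
  have h : ordB K ζ y x T ≤ (cycZ K (zT y x T)).toSubalgebra.toSubring := by
    unfold ordB
    refine sup_le ?_ ?_
    · intro v hv
      exact baseF_le_cycZ ζ N hN hζ y x T m hx hv.1
    · rw [Subring.closure_le]
      rintro v ⟨i, hi, rfl⟩
      have h1 : zT y x T i = x i := by unfold zT; rw [if_pos hi]
      have h2 := z_mem_cycZ (K := K) (zT y x T) i
      rw [h1] at h2
      exact h2
  exact h hw

lemma zT_mem_ordB (ζ : Ω) (y x : ι → Ωˣ) (T : Finset ι) (hyint : ∀ i, IsIntegral ℤ (y i : Ω))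
    (i : ι) : (zT y x T i : Ω) ∈ ordB K ζ y x T := by
  unfold zT ordB
  by_cases h : i ∈ T
  · rw [if_pos h]
    exact (le_sup_right : _ ≤ intOf (baseF K ζ y) ⊔ _) (Subring.subset_closure ⟨i, h, rfl⟩)
  · rw [if_neg h]
    exact (le_sup_left : intOf (baseF K ζ y) ≤ _) ⟨y_mem_baseF ζ y i, hyint i⟩

end

/-- Bounds for the conjugates of a root of an element with bounded conjugates. -/
lemma root_bounds (A : Type) [CommRing A] [IsDomain A] [CharZero A] [Module.Finite ℤ A]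
    (z bA : A) (M : ℕ) (hM : 1 ≤ M) (hz : z ^ M = bA) (C c : ℝ)
    (hC : ∀ τ : A →+* ℂ, Real.exp (-C) ≤ ‖τ bA‖ ∧ ‖τ bA‖ ≤ Real.exp C)
    (hc : c * Fintype.card (A →+* ℂ) ≤ Real.log (∏ τ : A →+* ℂ, ‖τ bA‖)) :
    (∀ τ : A →+* ℂ, Real.exp (-(C / M)) ≤ ‖τ z‖ ∧ ‖τ z‖ ≤ Real.exp (C / M)) ∧
      c / M * Fintype.card (A →+* ℂ) ≤ Real.log (∏ τ : A →+* ℂ, ‖τ z‖) := by
  have hM0 : M ≠ 0 := by omega
  have hMR : (0 : ℝ) < M := by exact_mod_cast hM
  have h1 : ∀ τ : A →+* ℂ, ‖τ z‖ ^ M = ‖τ bA‖ := by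
    intro τ
    rw [← norm_pow, ← map_pow, hz]
  refine ⟨fun τ => ⟨?_, ?_⟩, ?_⟩
  · apply le_of_pow_le_pow_left₀ hM0 (norm_nonneg _)
    rw [h1, ← Real.exp_nat_mul]
    have e : (M : ℝ) * -(C / M) = -C := by field_simp
    rw [e]
    exact (hC τ).1
  · apply le_of_pow_le_pow_left₀ hM0 (Real.exp_pos _).le
    rw [h1, ← Real.exp_nat_mul]
    have e : (M : ℝ) * (C / M) = C := by field_simp
    rw [e]
    exact (hC τ).2
  · have h2 : (∏ τ : A →+* ℂ, ‖τ z‖) ^ M = ∏ τ : A →+* ℂ, ‖τ bA‖ := by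
      rw [← Finset.prod_pow]
      exact Finset.prod_congr rfl (fun τ _ => h1 τ)
    rw [← h2, Real.log_pow] at hc
    rw [div_mul_eq_mul_div, div_le_iff₀ hMR]
    linarith

theorem towerB (K Ω : Type) [Field K] [NumberField K] [Field Ω] [CharZero Ω] [IsAlgClosed Ω]
    [Algebra K Ω] [Algebra.IsAlgebraic K Ω] (r : ℕ) (b : Fin r → 𝓞 K)
    (hbu : ∀ i, ¬ IsUnit (b i)) (hcop : ∀ i j, i ≠ j → IsCoprime (b i) (b j))
    (β : Fin r → Ωˣ) (hβ : ∀ i, (β i : Ω) = algebraMap K Ω (b i : K))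
    (k₀ : ℕ) (hk₀ : 1 ≤ k₀)
    (hidx : ∀ γ : Ωˣ, γ ∈ satG β → (γ : Ω) ∈ cyc K Ω →
      ∃ (ξ : Ωˣ) (e : Fin r → ℤ), (∃ n : ℕ, 1 ≤ n ∧ ξ ^ n = 1) ∧ γ ^ k₀ = ξ * ∏ i, β i ^ e i)
    (C c : ℝ) (hC : 0 ≤ C) (hc : 0 < c)
    (hbd : ∀ (A : Subring Ω) [Module.Finite ℤ A],
      (∀ z : 𝓞 K, algebraMap K Ω (z : K) ∈ A) → ∀ (i : Fin r) (bA : A),
      (bA : Ω) = algebraMap K Ω (b i : K) →
      (∀ τ : A →+* ℂ, Real.exp (-C) ≤ ‖τ bA‖ ∧ ‖τ bA‖ ≤ Real.exp C) ∧
      c * Fintype.card (A →+* ℂ) ≤ Real.log (∏ τ : A →+* ℂ, ‖τ bA‖))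
    (κ₀ : ℝ) (hht : ∀ k : Fin r → ℕ, (∀ i, ∃ e : ℕ, k i = k₀ * 2 ^ e) → ∀ z : Fin r → Ωˣ,
      (∀ i, z i ^ k i = β i) → ∀ a : Ωˣ, (a : Ω) ∈ cycZ K z →
      (∀ (ξ : Ωˣ) (e : Fin r → ℤ), (∃ n : ℕ, 1 ≤ n ∧ ξ ^ n = 1) → a ≠ ξ * ∏ i, z i ^ e i) →
      κ₀ ≤ absLogHeight₁ (a : Ω))
    (k : ℕ → ℕ) (κ : ℕ → ℝ) (hκ0 : κ 0 = κ₀)
    (hκ : ∀ j, 0 < κ j ∧ (∃ e : ℕ, k j = k₀ * 2 ^ e) ∧
      C / (k j : ℝ) / 2 ≤ min (κ j) (Real.log (5 / 4) / (2 + 2 * (C / c))) / 2 ∧
      κ (j + 1) = min (min (κ j) (Real.log (5 / 4) / (2 + 2 * (C / c))) / 2)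
        (c / (k j : ℝ) / 2) / 2)
    (y : Fin r → Ωˣ) (hy : ∀ i : Fin r, y i ^ k i = β i)
    (N m : ℕ) (hN : 1 ≤ N) (hm : 1 ≤ m) (ζ : Ω) (hζ : IsPrimitiveRoot ζ N)
    (x : Fin r → Ωˣ) (hx : ∀ i, x i ^ m = y i) (j : ℕ) (hj : j ≤ r) :
    BogS (ordB K ζ y x (Finset.univ.filter fun i : Fin r => (i : ℕ) < j))
      (grpT K ζ y x (Finset.univ.filter fun i : Fin r => (i : ℕ) < j)) (κ j) := by
  classical
  have hζN : ζ ^ N = 1 := hζ.pow_eq_one
  have hk1 : ∀ j, 1 ≤ k j := by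
    intro j
    obtain ⟨e, he⟩ := (hκ j).2.1
    rw [he]
    exact Nat.mul_pos hk₀ (pow_pos (by norm_num) e)
  have hβK : ∀ i, (β i : Ω) ∈ Set.range (algebraMap K Ω) := fun i => ⟨_, (hβ i).symm⟩
  have hβint : ∀ i, IsIntegral ℤ (β i : Ω) := by
    intro i
    rw [hβ]
    exact (RingOfIntegers.isIntegral_coe (b i)).map (algebraMap K Ω).toIntAlgHom
  have hyint : ∀ i, IsIntegral ℤ (y i : Ω) := by
    intro i
    refine IsIntegral.of_pow (n := k i) (hk1 i) ?_
    rw [← Units.val_pow_eq_pow_val, hy i]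
    exact hβint i
  have hxint : ∀ i, IsIntegral ℤ (x i : Ω) := by
    intro i
    refine IsIntegral.of_pow (n := m) hm ?_
    rw [← Units.val_pow_eq_pow_val, hx i]
    exact hyint i
  have hfinE : FiniteDimensional K (baseF K ζ y) := by
    have hfin : ({ζ} ∪ {w : Ω | ∃ i, w = (y i : Ω)}).Finite := by
      apply Set.Finite.union (Set.finite_singleton ζ)
      have : {w : Ω | ∃ i, w = (y i : Ω)} = Set.range (fun i => (y i : Ω)) := by
        ext w
        constructor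
        · rintro ⟨i, rfl⟩; exact ⟨i, rfl⟩
        · rintro ⟨i, rfl⟩; exact ⟨i, rfl⟩
      rw [this]
      exact Set.finite_range _
    have : Finite ↑({ζ} ∪ {w : Ω | ∃ i, w = (y i : Ω)}) := hfin.to_subtype
    exact IntermediateField.finiteDimensional_adjoin fun x _ => Algebra.IsIntegral.isIntegral x
  have hη : 0 < Real.log (5 / 4) / (2 + 2 * (C / c)) := by
    have := Pool.Agent.H4.OH.log_five_four_pos
    positivity
  induction j with
  | zero =>
    have hT : (Finset.univ.filter fun i : Fin r => (i : ℕ) < 0) = ∅ := by simp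
    rw [hT, ordB_empty]
    apply base_bogB K Ω (baseF K ζ y) hfinE
    intro a ha haG
    rw [hκ0]
    have hkk : ∀ i : Fin r, ∃ e : ℕ, k i = k₀ * 2 ^ e := fun i => (hκ i).2.1
    apply hht (fun i => k i) hkk y hy a
    · have h1 : zT y x (∅ : Finset (Fin r)) = y := by
        funext i
        unfold zT
        rw [if_neg (Finset.notMem_empty i)]
      have h2 := baseF_le_cycZ (K := K) ζ N hN hζN y x ∅ m hx ha
      rwa [h1] at h2
    · rintro ξ e ⟨n, hn, hξ⟩ hae
      apply haG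
      have hξE : (ξ : Ω) ∈ baseF K ζ y := by
        have h3 : ξ = a * ∏ i, y i ^ (-e i) := by
          rw [hae, mul_assoc, ← Finset.prod_mul_distrib]
          simp
        rw [h3, Units.val_mul, Units.coe_prod]
        apply mul_mem ha
        apply prod_mem
        intro i _
        rw [Units.val_zpow_eq_zpow_val]
        exact zpow_mem (y_mem_baseF ζ y i) _
      have hξG : ξ ∈ rootsIn (intOf (baseF K ζ y)) := by
        refine ⟨⟨hξE, ?_⟩, n, hn, hξ⟩
        refine IsIntegral.of_pow (n := n) hn ?_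
        rw [← Units.val_pow_eq_pow_val, hξ, Units.val_one]
        exact isIntegral_one
      rw [hae]
      unfold grpT
      apply Subgroup.mul_mem_sup hξG
      apply Subgroup.prod_mem
      intro i _
      apply Subgroup.mem_iSup_of_mem i
      have h1 : zT y x (∅ : Finset (Fin r)) i = y i := by
        unfold zT
        rw [if_neg (Finset.notMem_empty i)]
      rw [h1]
      exact Subgroup.zpow_mem_zpowers _ _
  | succ j ih =>
    have hjr : j < r := hj
    have ihB := ih hjr.le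
    set T := Finset.univ.filter fun i : Fin r => (i : ℕ) < j with hTdef
    set i0 : Fin r := ⟨j, hjr⟩ with hi0
    have hi0T : i0 ∉ T := by
      rw [hTdef, Finset.mem_filter]
      simp [hi0]
    have hTs : (Finset.univ.filter fun i : Fin r => (i : ℕ) < j + 1) = insert i0 T := by
      ext i
      rw [hTdef, Finset.mem_insert, Finset.mem_filter, Finset.mem_filter]
      constructor
      · rintro ⟨-, h⟩
        rcases Nat.lt_succ_iff_lt_or_eq.mp h with h | h
        · exact Or.inr ⟨Finset.mem_univ _, h⟩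
        · exact Or.inl (Fin.ext h)
      · rintro (h | ⟨-, h⟩)
        · exact ⟨Finset.mem_univ _, by rw [h]; exact Nat.lt_succ_self j⟩
        · exact ⟨Finset.mem_univ _, Nat.lt_succ_of_lt h⟩
    rw [hTs]
    set A := ordB K ζ y x T with hA
    have hfin : Module.Finite ℤ A := ihB.1
    -- exponents
    set kT : Fin r → ℕ := fun i => if i ∈ T then k i * m else k i with hkT
    have hkT1 : ∀ i, 1 ≤ kT i := by
      intro i
      simp only [hkT]
      split_ifs
      · exact Nat.mul_pos (hk1 i) hm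
      · exact hk1 i
    have hkTd : ∀ i, k₀ ∣ kT i := by
      intro i
      obtain ⟨e, he⟩ := (hκ i).2.1
      have h1 : k₀ ∣ k i := ⟨2 ^ e, he⟩
      simp only [hkT]
      split_ifs
      · exact Dvd.dvd.mul_right h1 m
      · exact h1
    have hzT : ∀ i, zT y x T i ^ kT i = β i := by
      intro i
      simp only [hkT, zT]
      split_ifs with h
      · rw [mul_comm, pow_mul, hx, hy]
      · exact hy i
    have hzTi0 : zT y x T i0 = y i0 := by
      unfold zT
      rw [if_neg hi0T]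
    have hKA : ∀ z : 𝓞 K, algebraMap K Ω (z : K) ∈ A := by
      intro z
      rw [hA]
      unfold ordB
      refine (le_sup_left : intOf (baseF K ζ y) ≤ _) ⟨(baseF K ζ y).algebraMap_mem _, ?_⟩
      exact (RingOfIntegers.isIntegral_coe z).map (algebraMap K Ω).toIntAlgHom
    let B : Fin r → A := fun i => ⟨algebraMap K Ω (b i : K), hKA (b i)⟩
    have hB : ∀ i, (B i : Ω) = algebraMap K Ω (b i : K) := fun i => rfl
    let Z : Fin r → A := fun i => ⟨(zT y x T i : Ω), zT_mem_ordB ζ y x T hyint i⟩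
    have hZ : ∀ i, (Z i : Ω) = (zT y x T i : Ω) := fun i => rfl
    have hZB : ∀ i, Z i ^ kT i = B i := by
      intro i
      apply Subtype.ext
      rw [Subring.coe_pow, hZ, hB, ← Units.val_pow_eq_pow_val, hzT i, hβ i]
    have hBcop : ∀ i i', i ≠ i' → IsCoprime (B i) (B i') := by
      intro i i' hii
      let f : 𝓞 K →+* A :=
        { toFun := fun z => ⟨algebraMap K Ω (z : K), hKA z⟩
          map_one' := Subtype.ext (by simp)
          map_mul' := fun a b => Subtype.ext (by simp)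
          map_zero' := Subtype.ext (by simp)
          map_add' := fun a b => Subtype.ext (by simp) }
      exact (hcop i i' hii).map f
    have hZcop : ∀ i ∈ (Finset.univ : Finset (Fin r)), ∀ i' ∈ (Finset.univ : Finset (Fin r)),
        i ≠ i' → IsCoprime (Z i) (Z i') := by
      intro i _ i' _ hii
      have h1 := hBcop i i' hii
      rw [← hZB i, ← hZB i'] at h1
      exact (IsCoprime.pow_iff (hkT1 i) (hkT1 i')).1 h1
    have hbounds : ∀ i, (∀ τ : A →+* ℂ, Real.exp (-(C / kT i)) ≤ ‖τ (Z i)‖ ∧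
        ‖τ (Z i)‖ ≤ Real.exp (C / kT i)) ∧
        c / kT i * Fintype.card (A →+* ℂ) ≤ Real.log (∏ τ : A →+* ℂ, ‖τ (Z i)‖) := by
      intro i
      obtain ⟨h1, h2⟩ := hbd A hKA i (B i) (hB i)
      exact root_bounds A (Z i) (B i) (kT i) (hkT1 i) (hZB i) C c h1 h2
    -- denominators
    have hDen : DenS A (grpT K ζ y x T) (C / c) := by
      have h1 := denS_monoG A Finset.univ (zT y x T) Z (fun i _ => hZ i) hZcop
        (fun i => 1 / (kT i : ℝ)) (fun i _ => by positivity) C c hC hc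
        (fun i _ τ => by
          have := ((hbounds i).1 τ).2
          rwa [div_eq_mul_one_div] at this)
        (fun i _ => by
          have := (hbounds i).2
          rwa [div_eq_mul_one_div] at this)
        (rootsIn (intOf (baseF K ζ y))) (by
          intro ξ hξ
          refine ⟨?_, hξ.2⟩
          rw [hA]
          unfold ordB
          exact (le_sup_left : intOf (baseF K ζ y) ≤ _) hξ.1)
      have h2 : (⨆ i ∈ (Finset.univ : Finset (Fin r)), Subgroup.zpowers (zT y x T i))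
          = ⨆ i, Subgroup.zpowers (zT y x T i) := by simp
      rw [h2] at h1
      exact h1
    -- independence
    have hind0 := indepB K Ω b hbu hcop β hβ
    have hyA : (x i0 : Ω) ^ m = (Z i0 : Ω) := by
      rw [hZ, hzTi0, ← Units.val_pow_eq_pow_val, hx]
    have hlin : ∀ cc : Fin m → A, ∑ i, (cc i : Ω) * (x i0 : Ω) ^ (i : ℕ) = 0 → ∀ i, cc i = 0 := by
      intro cc h0 i
      have h1 := indB K Ω β hβK hind0 k₀ hk₀ hidx kT hkT1 hkTd (zT y x T) hzT m hm i0 (x i0)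
        (by rw [hzTi0]; exact hx i0) (fun i => (cc i : Ω))
        (fun i => ordB_le_cycZ ζ N hN hζN y x T m hx (cc i : Ω) (cc i).2) h0 i
      exact Subtype.ext h1
    have hkTi0 : kT i0 = k j := by
      simp only [hkT]
      rw [if_neg hi0T]
    obtain ⟨hb1, hb2⟩ := hbounds i0
    rw [hkTi0] at hb1 hb2
    have hkjR : (0 : ℝ) < k j := by exact_mod_cast hk1 j
    obtain ⟨hκj, -, hεj, hκs⟩ := hκ j
    set η := Real.log (5 / 4) / (2 + 2 * (C / c)) with hηdef
    have hmin : 0 < min (κ j) η := lt_min hκj hη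
    have hstep := stepS A (ordB K ζ y x (insert i0 T)) (by rw [ordB_insert]; exact le_sup_left)
      (x i0) m hm (ordB_insert ζ y x T i0) (Z i0) hyA hlin (C / k j) (c / k j) (by positivity)
      (by positivity) (fun τ => (hb1 τ).1) (fun τ => (hb1 τ).2) hb2
      (grpT K ζ y x T) (κ j) (C / c) (by positivity) ihB hDen
      (min (min (κ j) η / 2) (c / (k j : ℝ) / 2)) (by positivity)
      (by
        have h1 : min (min (κ j) η / 2) (c / (k j : ℝ) / 2) ≤ min (κ j) η / 2 := min_le_left _ _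
        linarith)
      (min_le_right _ _)
    rw [hκs]
    refine bogS_mono_group hstep ?_
    refine sup_le ?_ ?_
    · unfold grpT
      refine sup_le le_sup_left (iSup_le fun i => ?_)
      rw [Subgroup.zpowers_le]
      refine (le_sup_right : _ ≤ rootsIn (intOf (baseF K ζ y)) ⊔ _) ?_
      by_cases hi : i = i0
      · apply Subgroup.mem_iSup_of_mem i0
        rw [hi, hzTi0, ← hx i0]
        have h1 : zT y x (insert i0 T) i0 = x i0 := by
          unfold zT
          rw [if_pos (Finset.mem_insert_self _ _)]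
        rw [h1]
        exact Subgroup.npow_mem_zpowers _ _
      · apply Subgroup.mem_iSup_of_mem i
        have h1 : zT y x (insert i0 T) i = zT y x T i := by
          unfold zT
          by_cases h : i ∈ T
          · rw [if_pos h, if_pos (Finset.mem_insert_of_mem h)]
          · rw [if_neg h, if_neg (fun h' => (Finset.mem_insert.mp h').elim hi h)]
        rw [h1]
        exact Subgroup.mem_zpowers _
    · rw [Subgroup.zpowers_le]
      unfold grpT
      refine (le_sup_right : _ ≤ rootsIn (intOf (baseF K ζ y)) ⊔ _) ?_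
      apply Subgroup.mem_iSup_of_mem i0
      have h1 : zT y x (insert i0 T) i0 = x i0 := by
        unfold zT
        rw [if_pos (Finset.mem_insert_self _ _)]
      rw [h1]
      exact Subgroup.mem_zpowers _

end Pool.Agent.H4.OG
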